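import Pool.Agent.H37.KC.Base

/-!
# F1: sizes

Sizes.  `Qf 4 y = 15^{1/4} cosh(2y)^{-1/2}`, so `0 < Q ≤ 15^{1/4} ≤ 2` (from `Qf_pow`: `Q⁴ = C0 4 (1 - th²) ≤ C0 4 = 15`).
* `F1_W3`: `|W| ≤ |Q| + 1/10`.
* `F1_y0`: `Qf_hi` gives `y0` with `Q ≤ 1/10` on `y ≥ y0`.
* `F1_int`: `W = (W - Q) + Q`, `W² ≤ 2(W-Q)² + 2Q²`, same for the derivative; all integrable by the `Cl` classes.
-/

open MeasureTheory Filter Topology Set
open scoped ContDiff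

namespace H37KC

open H98KB H68KC

theorem F1_Q2 (y : ℝ) : Qf 4 y ≤ 2 := by
  have h := Qf_pow (k := 4) (by norm_num) y
  have h0 := Qf_pos 4 y
  have h1 : Qf 4 y ^ 4 ≤ 2 ^ 4 := by
    rw [h, C0]
    have := sq_nonneg (th 4 y)
    push_cast
    nlinarith
  exact (pow_le_pow_iff_left₀ h0.le (by norm_num) (by norm_num)).1 h1

theorem F1_abs {c : ℝ} {W : ℝ → ℝ} (hc : c ≤ 1 / 10) (h : ∀ y, |W y - Qf 4 y| ≤ c) (y : ℝ) :
    |W y| ≤ 1 / 10 + Qf 4 y := by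
  have h1 := (h y).trans hc
  have h0 := Qf_pos 4 y
  rw [abs_le] at h1 ⊢
  constructor <;> linarith [h1.1, h1.2]

theorem F1_W3 {c : ℝ} {W : ℝ → ℝ} (hc : c ≤ 1 / 10) (h : ∀ y, |W y - Qf 4 y| ≤ c) (y : ℝ) :
    |W y| ≤ 3 := by
  have h1 := F1_abs hc h y
  have h2 := F1_Q2 y
  linarith

theorem F1_y0 : ∃ y0 : ℝ, 0 < y0 ∧ ∀ (c : ℝ) (W : ℝ → ℝ), c ≤ 1 / 10 → (∀ y, |W y - Qf 4 y| ≤ c) →
    ∀ y, y0 ≤ y → |W y| ≤ 1 / 5 := by
  obtain ⟨C, hC, hQ⟩ := Qf_hi (k := 4) (by norm_num)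
  refine ⟨|Real.log (10 * C)| + 1, by positivity, ?_⟩
  intro c W hc h y hy
  have h1 := F1_abs hc h y
  have h2 := hQ y
  have h3 : Real.log (10 * C) ≤ |y| := by
    have := le_abs_self (Real.log (10 * C))
    have := le_abs_self y
    linarith
  have h4 : Real.exp (-|y|) ≤ (10 * C)⁻¹ := by
    rw [Real.exp_neg]
    have h5 : 10 * C ≤ Real.exp |y| := by
      rw [← Real.log_le_iff_le_exp (by positivity)]
      exact h3
    exact inv_anti₀ (by positivity) h5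
  have h5 : C * Real.exp (-|y|) ≤ 1 / 10 := by
    calc C * Real.exp (-|y|) ≤ C * (10 * C)⁻¹ := mul_le_mul_of_nonneg_left h4 hC.le
      _ = 1 / 10 := by field_simp
  linarith

theorem F1_two {p q : ℝ} {f g : ℝ → ℝ} (hp : 0 < p) (hq : 0 < q) (hf : Cl p q f) (hg : Cl p q g) :
    ∫ y, (f y + g y) ^ 2 ≤ 2 * (∫ y, (f y) ^ 2) + 2 * ∫ y, (g y) ^ 2 := by
  have i1 : Integrable (fun y => (f y) ^ 2) :=
    Cl_int (Cl_pow' hf hp.le hq.le 2 (by norm_num)) hp hq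
  have i2 : Integrable (fun y => (g y) ^ 2) :=
    Cl_int (Cl_pow' hg hp.le hq.le 2 (by norm_num)) hp hq
  have i3 : Integrable (fun y => (f y + g y) ^ 2) :=
    Cl_int (Cl_pow' (Cl_add hf hg) hp.le hq.le 2 (by norm_num)) hp hq
  rw [← integral_const_mul, ← integral_const_mul, ← integral_add (i1.const_mul 2) (i2.const_mul 2)]
  refine integral_mono i3 ((i1.const_mul 2).add (i2.const_mul 2)) fun y => ?_
  have := sq_nonneg (f y - g y)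
  show (f y + g y) ^ 2 ≤ 2 * (f y) ^ 2 + 2 * (g y) ^ 2
  nlinarith

theorem F1_int : ∃ C : ℝ, 1 ≤ C ∧ ∀ (p q : ℝ) (W : ℝ → ℝ), 0 < p → p ≤ 1 / 2 → 0 < q → q ≤ 1 / 2 →
    Cl p q (fun y => W y - Qf 4 y) → Xn (fun y => W y - Qf 4 y) ≤ 1 →
    (∫ y, (W y - Qf 4 y) ^ 2) ≤ 1 → (∫ y, (deriv W y) ^ 2) ≤ C ∧ (∫ y, (W y) ^ 2) ≤ C := by
  have hA : 0 ≤ ∫ y, (Qf 4 y) ^ 2 := integral_nonneg fun y => sq_nonneg _
  have hB : 0 ≤ ∫ y, (deriv (Qf 4) y) ^ 2 := integral_nonneg fun y => sq_nonneg _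
  refine ⟨2 + 2 * (∫ y, (Qf 4 y) ^ 2) + 2 * ∫ y, (deriv (Qf 4) y) ^ 2, by linarith, ?_⟩
  intro p q W hp hp2 hq hq2 hr hX hL
  have hQ1 : Cl 1 1 (Qf 4) := Cl_Qf (by norm_num)
  have hQ : Cl p q (Qf 4) := Cl_mono hQ1 (by linarith) (by linarith)
  have hW : Cl p q W := Cl_W hp2 hq2 hr
  have hd : ∀ y, deriv W y = deriv (fun y => W y - Qf 4 y) y + deriv (Qf 4) y := by
    intro y
    have h1 := ((Cl_hd hW y).sub (Cl_hd hQ y)).deriv
    have h2 : deriv (fun y => W y - Qf 4 y) y = deriv W y - deriv (Qf 4) y := h1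
    rw [h2]
    ring
  constructor
  · have h1 := F1_two hp hq (Cl_der hr) (Cl_der hQ)
    have h2 : ∫ y, (deriv W y) ^ 2 =
        ∫ y, (deriv (fun y => W y - Qf 4 y) y + deriv (Qf 4) y) ^ 2 := by
      refine integral_congr_ae (Eventually.of_forall fun y => ?_)
      show (deriv W y) ^ 2 = _
      rw [hd y]
    rw [h2]
    unfold Xn at hX
    linarith
  · have h1 := F1_two hp hq hr hQ
    have h2 : ∫ y, (W y) ^ 2 = ∫ y, (W y - Qf 4 y + Qf 4 y) ^ 2 := by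
      refine integral_congr_ae (Eventually.of_forall fun y => ?_)
      show (W y) ^ 2 = _
      ring
    rw [h2]
    linarith

end H37KC
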