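import Pool.Agent.H37.KC.P1

/-!
# Row F2 of MP_95be7d_K4B (90 lines)

Estimates ahead of the front: `Ph s ≥ 1/2` on `y ≥ 1/(2s)` (`P1_half`).
* `F2_tail`: `∫_{Ici a} f² ≤ ∫_{Ici a} 2 Φ f² ≤ 2 ∫ Φ f²` (`setIntegral_mono_on`, `setIntegral_le_integral`).
* `F2_pt`: `W(y)² = -∫_{Ioi y} 2 W W'` (`integral_Ioi_of_hasDerivAt_of_tendsto`, `Cl_tendsto_top`), so by Cauchy-Schwarz
  `W(y)⁴ ≤ 4 (∫ W²) (∫_{Ici y} W'²) ≤ 8 (∫ W²) N`  (e.g. `integral_mul_le_Lp_mul_Lq` on the restricted measure, or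
  for every `t > 0`: `2|W W'| ≤ t W² + W'²/t`, so `W(y)² ≤ t ∫W² + (1/t) 2N` and optimise in `t`).
* `F2_dif`: for `x, y ≥ a`: `W y - W x = ∫_x^y W'`, Cauchy-Schwarz on the interval and `F2_tail`.
-/

open MeasureTheory Filter Topology Set
open scoped ContDiff

namespace H37KC

open H98KB H68KC

theorem F2_nonneg (s : ℝ) (W : ℝ → ℝ) : 0 ≤ Nn s W := by
  unfold Nn
  exact integral_nonneg fun y => mul_nonneg (P1_pos s y).le (sq_nonneg _)

theorem F2_tail {p q s a : ℝ} {f : ℝ → ℝ} (hp : 0 < p) (hq : 0 < q) (hf : Cl p q f)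
    (ha : 1 / (2 * s) ≤ a) : ∫ y in Ici a, (f y) ^ 2 ≤ 2 * ∫ y, Ph s y * (f y) ^ 2 := by
  have hf2 : Cl p q (fun y => (f y) ^ 2) := Cl_pow' hf hp.le hq.le 2 (by norm_num)
  have h1 : Integrable (fun y => (f y) ^ 2) := Cl_int hf2 hp hq
  have h2 : Integrable (fun y => Ph s y * (f y) ^ 2) :=
    Cl_int (Cl_mul (P1_Cl s) hf2) (by linarith) (by linarith)
  have h3 : Integrable (fun y => 2 * (Ph s y * (f y) ^ 2)) := h2.const_mul 2
  calc ∫ y in Ici a, (f y) ^ 2 ≤ ∫ y in Ici a, 2 * (Ph s y * (f y) ^ 2) := by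
        refine setIntegral_mono_on h1.integrableOn h3.integrableOn measurableSet_Ici ?_
        intro y hy
        have h4 : 1 / 2 ≤ Ph s y := P1_half (le_trans ha hy)
        have h5 : 0 ≤ (f y) ^ 2 := sq_nonneg _
        have h6 := mul_le_mul_of_nonneg_right h4 h5
        linarith
    _ ≤ ∫ y, 2 * (Ph s y * (f y) ^ 2) := by
        refine setIntegral_le_integral h3 (Eventually.of_forall fun y => ?_)
        exact mul_nonneg (by norm_num) (mul_nonneg (P1_pos s y).le (sq_nonneg _))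
    _ = 2 * ∫ y, Ph s y * (f y) ^ 2 := integral_const_mul _ _

theorem F2_opt {v A N : ℝ} (hv : 0 ≤ v) (hA : 0 ≤ A) (hN : 0 ≤ N)
    (h : ∀ t : ℝ, 0 < t → v ≤ t * A + 1 / t * (2 * N)) : v ^ 2 ≤ 8 * A * N := by
  rcases hv.eq_or_lt with h0 | h0
  · rw [← h0]
    have := mul_nonneg hA hN
    linarith
  rcases hA.eq_or_lt with h1 | h1
  · exfalso
    have ht : 0 < 2 * (2 * N + 1) / v := by positivity
    have h2 := h _ ht
    rw [← h1, mul_zero, zero_add] at h2
    have h3 : 1 / (2 * (2 * N + 1) / v) * (2 * N) = v / 2 * (2 * N / (2 * N + 1)) := by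
      field_simp
    rw [h3] at h2
    have h4 : 2 * N / (2 * N + 1) ≤ 1 := by
      rw [div_le_one (by positivity)]
      linarith
    have h5 : v / 2 * (2 * N / (2 * N + 1)) ≤ v / 2 * 1 :=
      mul_le_mul_of_nonneg_left h4 (by linarith)
    linarith
  · have ht : 0 < v / (2 * A) := by positivity
    have h2 := h _ ht
    have h3 : v / (2 * A) * A = v / 2 := by field_simp
    have h4 : 1 / (v / (2 * A)) * (2 * N) = 4 * A * N / v := by
      field_simp
      ring
    rw [h3, h4] at h2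
    have h5 : v / 2 ≤ 4 * A * N / v := by linarith
    rw [le_div_iff₀ h0] at h5
    have h6 : v / 2 * v = v ^ 2 / 2 := by ring
    rw [h6] at h5
    linarith

theorem F2_pt {p q s y : ℝ} {W : ℝ → ℝ} (hp : 0 < p) (hq : 0 < q) (hW : Cl p q W)
    (hy : 1 / (2 * s) ≤ y) : (W y) ^ 4 ≤ 8 * (∫ z, (W z) ^ 2) * Nn s W := by
  have hW' : Cl p q (deriv W) := Cl_der hW
  have hW2 : Cl p q (fun z => (W z) ^ 2) := Cl_pow' hW hp.le hq.le 2 (by norm_num)
  have hD2 : Cl p q (fun z => (deriv W z) ^ 2) := Cl_pow' hW' hp.le hq.le 2 (by norm_num)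
  have i1 : Integrable (fun z => (W z) ^ 2) := Cl_int hW2 hp hq
  have i2 : Integrable (fun z => (deriv W z) ^ 2) := Cl_int hD2 hp hq
  have i3 : Integrable (fun z => W z * deriv W z) :=
    Cl_int (Cl_mul hW hW') (by linarith) (by linarith)
  have i4 : Integrable (fun z => 2 * (W z * deriv W z)) := i3.const_mul 2
  have h1 : ∫ z in Ioi y, 2 * (W z * deriv W z) = 0 - (W y) ^ 2 := by
    refine integral_Ioi_of_hasDerivAt_of_tendsto' (f := fun z => (W z) ^ 2) ?_ i4.integrableOn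
      (Cl_tendsto_top hW2 hp)
    intro z _
    have h := (Cl_hd hW z).pow 2
    refine HasDerivAt.congr_deriv (f' := _) h ?_
    norm_num
    ring
  have h2 : (W y) ^ 2 ≤ ∫ z in Ioi y, |2 * (W z * deriv W z)| := by
    have h3 : (W y) ^ 2 = |∫ z in Ioi y, 2 * (W z * deriv W z)| := by
      rw [h1, zero_sub, abs_neg, abs_of_nonneg (sq_nonneg _)]
    rw [h3]
    exact abs_integral_le_integral_abs
  have hT := F2_tail hp hq hW' hy
  have hN : 0 ≤ Nn s W := F2_nonneg s W
  have hA : 0 ≤ ∫ z, (W z) ^ 2 := integral_nonneg fun z => sq_nonneg _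
  have key : ∀ t : ℝ, 0 < t → (W y) ^ 2 ≤ t * (∫ z, (W z) ^ 2) + 1 / t * (2 * Nn s W) := by
    intro t ht
    have h4 : ∫ z in Ioi y, |2 * (W z * deriv W z)| ≤
        ∫ z in Ioi y, (t * (W z) ^ 2 + 1 / t * (deriv W z) ^ 2) := by
      refine setIntegral_mono_on i4.abs.integrableOn
        ((i1.const_mul t).add (i2.const_mul (1 / t))).integrableOn measurableSet_Ioi ?_
      intro z _
      have h5 : 0 ≤ 1 / t * (t * |W z| - |deriv W z|) ^ 2 :=
        mul_nonneg (by positivity) (sq_nonneg _)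
      have h6 : 1 / t * (t * |W z| - |deriv W z|) ^ 2 =
          t * |W z| ^ 2 + 1 / t * |deriv W z| ^ 2 - 2 * (|W z| * |deriv W z|) := by
        field_simp
        ring
      rw [h6, sq_abs, sq_abs] at h5
      rw [abs_mul, abs_mul, abs_two]
      linarith
    have h7 : ∫ z in Ioi y, (t * (W z) ^ 2 + 1 / t * (deriv W z) ^ 2) =
        t * (∫ z in Ioi y, (W z) ^ 2) + 1 / t * ∫ z in Ioi y, (deriv W z) ^ 2 := by
      rw [integral_add (i1.const_mul t).integrableOn (i2.const_mul (1 / t)).integrableOn,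
        integral_const_mul, integral_const_mul]
    have h8 : ∫ z in Ioi y, (W z) ^ 2 ≤ ∫ z, (W z) ^ 2 :=
      setIntegral_le_integral i1 (Eventually.of_forall fun z => sq_nonneg _)
    have h9 : ∫ z in Ioi y, (deriv W z) ^ 2 ≤ 2 * Nn s W := by
      rw [← integral_Ici_eq_integral_Ioi]
      exact hT
    have h10 := mul_le_mul_of_nonneg_left h8 ht.le
    have h11 := mul_le_mul_of_nonneg_left h9 (by positivity : (0:ℝ) ≤ 1 / t)
    linarith
  have h12 := F2_opt (sq_nonneg (W y)) hA hN key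
  calc (W y) ^ 4 = ((W y) ^ 2) ^ 2 := by ring
    _ ≤ _ := h12

theorem F2_cs {g : ℝ → ℝ} (hg : Continuous g) {x y : ℝ} (hxy : x ≤ y) :
    (∫ z in x..y, g z) ^ 2 ≤ (y - x) * ∫ z in x..y, (g z) ^ 2 := by
  rcases hxy.eq_or_lt with h | h
  · rw [← h]
    simp
  have hl : 0 < y - x := by linarith
  set I := ∫ z in x..y, g z with hI
  set t := I / (y - x) with ht
  have h0 : 0 ≤ ∫ z in x..y, (g z - t) ^ 2 :=
    intervalIntegral.integral_nonneg hxy fun z _ => sq_nonneg _
  have h1 : ∫ z in x..y, (g z - t) ^ 2 =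
      (∫ z in x..y, (g z) ^ 2) - 2 * t * I + t ^ 2 * (y - x) := by
    have e : ∀ z, (g z - t) ^ 2 = (g z) ^ 2 - 2 * t * g z + t ^ 2 := fun z => by ring
    simp_rw [e]
    rw [intervalIntegral.integral_add, intervalIntegral.integral_sub,
      intervalIntegral.integral_const_mul, intervalIntegral.integral_const, smul_eq_mul]
    · ring
    · exact (hg.pow 2).intervalIntegrable _ _
    · exact (continuous_const.mul hg).intervalIntegrable _ _
    · exact ((hg.pow 2).sub (continuous_const.mul hg)).intervalIntegrable _ _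
    · exact continuous_const.intervalIntegrable _ _
  rw [h1] at h0
  have h2 : t * (y - x) = I := by
    rw [ht]
    field_simp
  have h3 : t ^ 2 * (y - x) = t * I := by
    rw [← h2]
    ring
  rw [h3] at h0
  have h4 : t * I ≤ ∫ z in x..y, (g z) ^ 2 := by linarith
  have h5 := mul_le_mul_of_nonneg_left h4 hl.le
  have h6 : (y - x) * (t * I) = I ^ 2 := by
    rw [← mul_assoc, mul_comm (y - x) t, h2]
    ring
  rw [h6] at h5
  exact h5

theorem F2_dif' {p q s x y : ℝ} {W : ℝ → ℝ} (hp : 0 < p) (hq : 0 < q) (hW : Cl p q W)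
    (hx : 1 / (2 * s) ≤ x) (hxy : x ≤ y) : (W y - W x) ^ 2 ≤ (y - x) * (2 * Nn s W) := by
  have hW' : Cl p q (deriv W) := Cl_der hW
  have hc : Continuous (deriv W) := Cl_cont hW'
  have h1 : ∫ z in x..y, deriv W z = W y - W x :=
    intervalIntegral.integral_eq_sub_of_hasDerivAt (fun z _ => Cl_hd hW z)
      (hc.intervalIntegrable _ _)
  have h2 := F2_cs hc hxy
  rw [h1] at h2
  refine h2.trans (mul_le_mul_of_nonneg_left ?_ (by linarith))
  have hD2 : Cl p q (fun z => (deriv W z) ^ 2) := Cl_pow' hW' hp.le hq.le 2 (by norm_num)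
  have i2 : Integrable (fun z => (deriv W z) ^ 2) := Cl_int hD2 hp hq
  have h3 := F2_tail hp hq hW' hx
  rw [intervalIntegral.integral_of_le hxy]
  refine le_trans ?_ h3
  refine setIntegral_mono_set i2.integrableOn (Eventually.of_forall fun z => sq_nonneg _) ?_
  exact (Ioc_subset_Icc_self.trans Icc_subset_Ici_self).eventuallyLE

theorem F2_dif {p q s x y : ℝ} {W : ℝ → ℝ} (hp : 0 < p) (hq : 0 < q) (hW : Cl p q W)
    (hx : 1 / (2 * s) ≤ x) (hy : 1 / (2 * s) ≤ y) : (W y - W x) ^ 2 ≤ |y - x| * (2 * Nn s W) := by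
  rcases le_total x y with h | h
  · rw [abs_of_nonneg (by linarith)]
    exact F2_dif' hp hq hW hx h
  · rw [abs_of_nonpos (by linarith)]
    have h1 := F2_dif' hp hq hW hy h
    have h2 : (W y - W x) ^ 2 = (W x - W y) ^ 2 := by ring
    rw [h2, neg_sub]
    exact h1

end H37KC
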