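import Pool.Agent.H37.KC.Base

/-!
# Row I1 of MP_95be7d_K4B (110 lines)

Integration by parts identity for the front functional.  With `v = W'` the difference of the two integrands is `deriv H` with

`H = -w y Φ W'² + (1+m) Φ W'² + (-2 Φ W' W''' + Φ W''² + 2 Φ' W' W'' - Φ'' W'²) - 2 Φ W' (W⁴ W') + l (2 Φ W' W'' - Φ' W'²) - 2 Φ W' et'`.

(Check: `Zz' = -w(3/2 W' + y W'') + (1+m) W'' - W'''' - (W⁴W')' + l W''' - et''`.)  All functions are in `Cl` classes: use `Cl_mul`,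
`Cl_mul0`, `Cl_der`, `Cl_id` (with `c` small, e.g. `c = min p q / 2`), `Cl_int`, and `Cl_int_eq`.  `Φ` is only bounded (`Cl 0 0`), the two
factors from `W`, `et` give the decay `Cl (2p - c) (2q - c)`.
-/

open MeasureTheory Filter Topology Set
open scoped ContDiff

namespace H37KC

open H98KB H68KC

theorem I1_two {s : ℝ} {f a b : ℝ → ℝ} (hf : Cl 0 0 f) (ha : Cl s s a) (hb : Cl s s b) :
    Cl (s + s) (s + s) (fun y => f y * (a y * b y)) :=
  Cl_mul0 hf (Cl_mul ha hb)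

theorem I1_dn {s : ℝ} {f : ℝ → ℝ} (hs : 0 < s) (hf : Cl (s + s) (s + s) f) : Cl s s f :=
  Cl_mono hf (by linarith) (by linarith)

theorem I1_y {s : ℝ} {f : ℝ → ℝ} (hs : 0 < s) (hf : Cl (s + s) (s + s) f) :
    Cl s s (fun y => y * f y) :=
  Cl_mono (Cl_mul (Cl_id hs) hf) (by linarith) (by linarith)

theorem I1_w4 {s : ℝ} {W : ℝ → ℝ} (hs : 0 < s) (hW : Cl s s W) :
    Cl s s (fun y => (W y) ^ 4 * deriv W y) :=
  Cl_mul0 (Cl_mono (Cl_pow' hW hs.le hs.le 4 (by norm_num)) hs.le hs.le) (Cl_der hW)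

/-- integrability of the pieces used with `I1` -/
theorem I1_int {p q : ℝ} {W Φ : ℝ → ℝ} (hp : 0 < p) (hq : 0 < q) (hW : Cl p q W) (hΦ : Cl 0 0 Φ) :
    Integrable (fun y => Φ y * (deriv W y) ^ 2) ∧ Integrable (fun y => Φ y * (deriv (deriv W) y) ^ 2) ∧
    Integrable (fun y => deriv Φ y * (deriv W y) ^ 2) ∧ Integrable (fun y => (deriv W y) ^ 2) := by
  have hs : 0 < min p q := lt_min hp hq
  have hW' : Cl (min p q) (min p q) W := Cl_mono hW (min_le_left _ _) (min_le_right _ _)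
  have hV := Cl_der hW'
  have hV1 := Cl_der hV
  refine ⟨?_, ?_, ?_, ?_⟩
  · have e : (fun y => Φ y * (deriv W y) ^ 2) = fun y => Φ y * (deriv W y * deriv W y) := by
      funext y
      ring
    rw [e]
    exact Cl_int (I1_dn hs (I1_two hΦ hV hV)) hs hs
  · have e : (fun y => Φ y * (deriv (deriv W) y) ^ 2) =
        fun y => Φ y * (deriv (deriv W) y * deriv (deriv W) y) := by
      funext y
      ring
    rw [e]
    exact Cl_int (I1_dn hs (I1_two hΦ hV1 hV1)) hs hs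
  · have e : (fun y => deriv Φ y * (deriv W y) ^ 2) =
        fun y => deriv Φ y * (deriv W y * deriv W y) := by
      funext y
      ring
    rw [e]
    exact Cl_int (I1_dn hs (I1_two (Cl_der hΦ) hV hV)) hs hs
  · have e : (fun y => (deriv W y) ^ 2) = fun y => deriv W y * deriv W y := by
      funext y
      ring
    rw [e]
    exact Cl_int (I1_dn hs (Cl_mul hV hV)) hs hs

/-- the right side of `I1` is integrable -/
theorem I1_int' {p q w m l : ℝ} {W et Φ : ℝ → ℝ} (hp : 0 < p) (hq : 0 < q) (hW : Cl p q W)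
    (he : Cl p q et) (hΦ : Cl 0 0 Φ) :
    Integrable (fun y => -2 * w * (Φ y * (deriv W y) ^ 2) + w * y * deriv Φ y * (deriv W y) ^ 2
      - (1 + m) * (deriv Φ y * (deriv W y) ^ 2) - 3 * (deriv Φ y * (deriv (deriv W) y) ^ 2)
      + deriv (deriv (deriv Φ)) y * (deriv W y) ^ 2 - 2 * l * (Φ y * (deriv (deriv W) y) ^ 2)
      + l * (deriv (deriv Φ) y * (deriv W y) ^ 2)
      + 2 * ((deriv Φ y * deriv W y + Φ y * deriv (deriv W) y) * ((W y) ^ 4 * deriv W y))
      + 2 * ((deriv Φ y * deriv W y + Φ y * deriv (deriv W) y) * deriv et y)) := by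
  have hs : 0 < min p q := lt_min hp hq
  have hW' : Cl (min p q) (min p q) W := Cl_mono hW (min_le_left _ _) (min_le_right _ _)
  have he' : Cl (min p q) (min p q) et := Cl_mono he (min_le_left _ _) (min_le_right _ _)
  have hV := Cl_der hW'
  have hV1 := Cl_der hV
  have hE := Cl_der he'
  have hΦ1 := Cl_der hΦ
  have hΦ2 := Cl_der hΦ1
  have hΦ3 := Cl_der hΦ2
  have hW4 := I1_w4 hs hW'
  have a1 := Cl_smul (-2 * w) (I1_dn hs (I1_two hΦ hV hV))
  have a2 := Cl_smul w (I1_y hs (I1_two hΦ1 hV hV))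
  have a3 := Cl_smul (1 + m) (I1_dn hs (I1_two hΦ1 hV hV))
  have a4 := Cl_smul 3 (I1_dn hs (I1_two hΦ1 hV1 hV1))
  have a5 := I1_dn hs (I1_two hΦ3 hV hV)
  have a6 := Cl_smul (2 * l) (I1_dn hs (I1_two hΦ hV1 hV1))
  have a7 := Cl_smul l (I1_dn hs (I1_two hΦ2 hV hV))
  have a8 := Cl_smul 2 (Cl_add (I1_dn hs (I1_two hΦ1 hV hW4)) (I1_dn hs (I1_two hΦ hV1 hW4)))
  have a9 := Cl_smul 2 (Cl_add (I1_dn hs (I1_two hΦ1 hV hE)) (I1_dn hs (I1_two hΦ hV1 hE)))
  have a := Cl_add (Cl_add (Cl_add (Cl_sub (Cl_add (Cl_sub (Cl_sub (Cl_add a1 a2) a3) a4) a5) a6)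
    a7) a8) a9
  refine (Cl_int a hs hs).congr (Eventually.of_forall fun y => ?_)
  simp only []
  ring

theorem I1 {p q w m l : ℝ} {W et Φ : ℝ → ℝ} (hp : 0 < p) (hq : 0 < q) (hW : Cl p q W)
    (he : Cl p q et) (hΦ : Cl 0 0 Φ) :
    ∫ y, 2 * Φ y * (deriv W y * deriv (Zz w m l W et) y) =
    ∫ y, (-2 * w * (Φ y * (deriv W y) ^ 2) + w * y * deriv Φ y * (deriv W y) ^ 2
      - (1 + m) * (deriv Φ y * (deriv W y) ^ 2) - 3 * (deriv Φ y * (deriv (deriv W) y) ^ 2)
      + deriv (deriv (deriv Φ)) y * (deriv W y) ^ 2 - 2 * l * (Φ y * (deriv (deriv W) y) ^ 2)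
      + l * (deriv (deriv Φ) y * (deriv W y) ^ 2)
      + 2 * ((deriv Φ y * deriv W y + Φ y * deriv (deriv W) y) * ((W y) ^ 4 * deriv W y))
      + 2 * ((deriv Φ y * deriv W y + Φ y * deriv (deriv W) y) * deriv et y)) := by
  have hs : 0 < min p q := lt_min hp hq
  have hW' : Cl (min p q) (min p q) W := Cl_mono hW (min_le_left _ _) (min_le_right _ _)
  have he' : Cl (min p q) (min p q) et := Cl_mono he (min_le_left _ _) (min_le_right _ _)
  have hV := Cl_der hW'
  have hV1 := Cl_der hV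
  have hV2 := Cl_der hV1
  have hE := Cl_der he'
  have hΦ1 := Cl_der hΦ
  have hΦ2 := Cl_der hΦ1
  have hW4 := I1_w4 hs hW'
  have b1 := Cl_smul (-w) (I1_y hs (I1_two hΦ hV hV))
  have b2 := Cl_smul (1 + m) (I1_dn hs (I1_two hΦ hV hV))
  have b3 := Cl_smul (-2) (I1_dn hs (I1_two hΦ hV hV2))
  have b4 := I1_dn hs (I1_two hΦ hV1 hV1)
  have b5 := Cl_smul 2 (I1_dn hs (I1_two hΦ1 hV hV1))
  have b6 := I1_dn hs (I1_two hΦ2 hV hV)
  have b7 := Cl_smul 2 (I1_dn hs (I1_two hΦ hV hW4))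
  have b8 := Cl_smul l (Cl_sub (Cl_smul 2 (I1_dn hs (I1_two hΦ hV hV1)))
    (I1_dn hs (I1_two hΦ1 hV hV)))
  have b9 := Cl_smul 2 (I1_dn hs (I1_two hΦ hV hE))
  have hH := Cl_sub (Cl_add (Cl_sub (Cl_sub (Cl_add (Cl_add (Cl_add (Cl_add b1 b2) b3) b4) b5)
    b6) b7) b8) b9
  have hG := I1_int' (w := w) (m := m) (l := l) hp hq hW he hΦ
  have hder := fun y => (Cl_hd hH y).deriv
  have hid : ∀ y, 2 * Φ y * (deriv W y * deriv (Zz w m l W et) y) -
      (-2 * w * (Φ y * (deriv W y) ^ 2) + w * y * deriv Φ y * (deriv W y) ^ 2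
      - (1 + m) * (deriv Φ y * (deriv W y) ^ 2) - 3 * (deriv Φ y * (deriv (deriv W) y) ^ 2)
      + deriv (deriv (deriv Φ)) y * (deriv W y) ^ 2 - 2 * l * (Φ y * (deriv (deriv W) y) ^ 2)
      + l * (deriv (deriv Φ) y * (deriv W y) ^ 2)
      + 2 * ((deriv Φ y * deriv W y + Φ y * deriv (deriv W) y) * ((W y) ^ 4 * deriv W y))
      + 2 * ((deriv Φ y * deriv W y + Φ y * deriv (deriv W) y) * deriv et y)) =
      deriv (fun y => -w * (y * (Φ y * (deriv W y * deriv W y)))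
        + (1 + m) * (Φ y * (deriv W y * deriv W y))
        + -2 * (Φ y * (deriv W y * deriv (deriv (deriv W)) y))
        + Φ y * (deriv (deriv W) y * deriv (deriv W) y)
        + 2 * (deriv Φ y * (deriv W y * deriv (deriv W) y))
        - deriv (deriv Φ) y * (deriv W y * deriv W y)
        - 2 * (Φ y * (deriv W y * ((W y) ^ 4 * deriv W y)))
        + l * (2 * (Φ y * (deriv W y * deriv (deriv W) y)) - deriv Φ y * (deriv W y * deriv W y))
        - 2 * (Φ y * (deriv W y * deriv et y))) y := by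
    intro y
    have w0 := Cl_hd hW' y
    have w1 := Cl_hd hV y
    have w2 := Cl_hd hV1 y
    have w3 := Cl_hd hV2 y
    have e1 := Cl_hd hE y
    have f0 := Cl_hd hΦ y
    have f1 := Cl_hd hΦ1 y
    have f2 := Cl_hd hΦ2 y
    have hZ : HasDerivAt (Zz w m l W et)
        (-w * (1 / 2 * deriv W y + (1 * deriv W y + y * deriv (deriv W) y))
        + (1 + m) * deriv (deriv W) y - deriv (deriv (deriv (deriv W))) y
        - ((4 : ℕ) * (W y) ^ (4 - 1) * deriv W y * deriv W y + (W y) ^ 4 * deriv (deriv W) y)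
        + l * deriv (deriv (deriv W)) y - deriv (deriv et) y) y :=
      ((((((w0.const_mul (1 / 2)).add ((hasDerivAt_id y).mul w1)).const_mul (-w)).add
        (w1.const_mul (1 + m))).sub w3).sub ((w0.pow 4).mul w1)).add (w2.const_mul l) |>.sub e1
    have g1 := ((hasDerivAt_id y).mul (f0.mul (w1.mul w1))).const_mul (-w)
    have g2 := (f0.mul (w1.mul w1)).const_mul (1 + m)
    have g3 := (f0.mul (w1.mul w3)).const_mul (-2)
    have g4 := f0.mul (w2.mul w2)
    have g5 := (f1.mul (w1.mul w2)).const_mul 2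
    have g6 := f2.mul (w1.mul w1)
    have g7 := (f0.mul (w1.mul ((w0.pow 4).mul w1))).const_mul 2
    have g8 := (((f0.mul (w1.mul w2)).const_mul 2).sub (f1.mul (w1.mul w1))).const_mul l
    have g9 := (f0.mul (w1.mul e1)).const_mul 2
    have g := (((((((g1.add g2).add g3).add g4).add g5).sub g6).sub g7).add g8).sub g9
    refine Eq.trans ?_ (HasDerivAt.deriv g).symm
    rw [hZ.deriv]
    norm_num
    ring
  refine Cl_int_eq ?_ hG hH hs hs hid
  have hF := hG.add (Clb_der_int hH hs hs)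
  refine hF.congr (Eventually.of_forall fun y => ?_)
  simp only [Pi.add_apply]
  rw [← hid y]
  ring

end H37KC
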