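import Pool.Agent.H37.KC.Base

/-!
# Row I2 of MP_95be7d_K4B (70 lines)

Pure algebra.  Linear terms in `φ1 a1²`: `≤ (1/16) - 3/4 + 1/16 + 1/64` (`l |φ2| ≤ φ1/64`) plus `τ' a1²`.
`e1` terms: `2 φ1 a1 e1 ≤ φ1 a1²/16 + 16 φ1 e1² ≤ φ1 a1²/16 + 4 e1²`, `2 φ a2 e1 ≤ (l/4) φ a2² + (4/l) e1²`, total `≤ (8/l) e1²` (`l ≤ 1`).
Nonlinear terms, `2 φ1 a⁴ a1² + 2 φ a2 a⁴ a1`:
* zone 1 (`φ ≤ τ`, `a² ≤ 9`): `2 φ1 a⁴ a1² ≤ 2 (τ/4) 81 a1² ≤ 41 τ a1²`;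
  `2 φ a2 a⁴ a1 ≤ (l/4) φ a2² + (4/l) φ a⁸ a1² ≤ (l/4) φ a2² + 26244 τ/l a1²`.
* zone 2 (`φ ≤ 8 φ1`, `a⁴ ≤ 1/625`): `2 φ1 a⁴ a1² ≤ (2/625) φ1 a1²`, `2 φ a⁴ |a1 a2| ≤ (16/625) φ1 |a1 a2| ≤ (8/625) φ1 (a1² + a2²)`.
* zone 3 (`a⁴ ≤ 1/625`, `a⁸ ≤ K`): `2 φ1 a⁴ a1² ≤ (2/625) φ1 a1²`, `2 φ a2 a⁴ a1 ≤ (l/4) φ a2² + (4K/l) φ a1²`.
The total coefficient of `φ1 a1²` is `≤ 0`, of `φ1 a2²` is `≤ -3 + 8/625`, of `φ a2²` is `≤ -2l + l/4 + l/4`.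
-/

open MeasureTheory Filter Topology Set
open scoped ContDiff

namespace H37KC

open H98KB H68KC

theorem I2_yng {l f : ℝ} (hl : 0 < l) (hf : 0 ≤ f) (x z : ℝ) :
    2 * (f * (x * z)) ≤ l / 4 * (f * x ^ 2) + 4 / l * (f * z ^ 2) := by
  have h1 : 0 ≤ f * ((1 / (4 * l)) * (l * x - 4 * z) ^ 2) := by positivity
  have e : f * ((1 / (4 * l)) * (l * x - 4 * z) ^ 2) =
      l / 4 * (f * x ^ 2) + 4 / l * (f * z ^ 2) - 2 * (f * (x * z)) := by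
    field_simp
    ring
  linarith

theorem I2_non {φ φ1 l a a1 a2 τ K : ℝ}
    (h0 : 0 ≤ φ) (h1 : 0 ≤ φ1) (h1' : φ1 ≤ 1 / 4 * φ) (hl : 0 < l)
    (hτ : 0 ≤ τ) (hK : 0 ≤ K)
    (hz : (φ ≤ τ ∧ a ^ 2 ≤ 9) ∨ (φ ≤ 8 * φ1 ∧ a ^ 2 ≤ 1 / 25) ∨ (a ^ 2 ≤ 1 / 25 ∧ a ^ 8 ≤ K)) :
    2 * (φ1 * a ^ 4 * a1 ^ 2) + 2 * (φ * (a2 * (a ^ 4 * a1))) ≤
      l / 4 * (φ * a2 ^ 2) + (41 * τ + 26244 * τ / l) * a1 ^ 2 + 4 * K / l * (φ * a1 ^ 2)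
        + 10 / 625 * (φ1 * a1 ^ 2) + 8 / 625 * (φ1 * a2 ^ 2) := by
  have hA : 0 ≤ a1 ^ 2 := sq_nonneg _
  have hB : 0 ≤ a2 ^ 2 := sq_nonneg _
  have ha : 0 ≤ a ^ 2 := sq_nonneg _
  have hφA : 0 ≤ φ * a1 ^ 2 := mul_nonneg h0 hA
  have hφB : 0 ≤ φ * a2 ^ 2 := mul_nonneg h0 hB
  have h1A : 0 ≤ φ1 * a1 ^ 2 := mul_nonneg h1 hA
  have h1B : 0 ≤ φ1 * a2 ^ 2 := mul_nonneg h1 hB
  have hY := I2_yng hl h0 a2 (a ^ 4 * a1)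
  have e4 : a ^ 4 = (a ^ 2) ^ 2 := by ring
  have e8 : (a ^ 4 * a1) ^ 2 = a ^ 8 * a1 ^ 2 := by ring
  rw [e8] at hY
  have t1 : 0 ≤ 41 * τ * a1 ^ 2 := by positivity
  have t2 : 0 ≤ 26244 * τ / l * a1 ^ 2 := by positivity
  have t3 : 0 ≤ 4 * K / l * (φ * a1 ^ 2) := by positivity
  rcases hz with ⟨z1, z2⟩ | ⟨z1, z2⟩ | ⟨z1, z2⟩
  · have b4 : a ^ 4 ≤ 81 := by
      rw [e4]
      nlinarith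
    have b8 : a ^ 8 ≤ 6561 := by
      have e : a ^ 8 = (a ^ 4) ^ 2 := by ring
      have p4 : 0 ≤ a ^ 4 := by positivity
      rw [e]
      nlinarith
    have c1 : φ1 * a ^ 4 * a1 ^ 2 ≤ (1 / 4 * τ * 81) * a1 ^ 2 := by
      refine mul_le_mul_of_nonneg_right ?_ hA
      exact mul_le_mul (by linarith) b4 (by positivity) (by positivity)
    have c2 : 4 / l * (φ * (a ^ 8 * a1 ^ 2)) ≤ 26244 * τ / l * a1 ^ 2 := by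
      have : φ * a ^ 8 ≤ τ * 6561 := mul_le_mul z1 b8 (by positivity) hτ
      have h5 : 4 / l * (φ * a ^ 8 * a1 ^ 2) ≤ 4 / l * (τ * 6561 * a1 ^ 2) :=
        mul_le_mul_of_nonneg_left (mul_le_mul_of_nonneg_right this hA) (by positivity)
      calc 4 / l * (φ * (a ^ 8 * a1 ^ 2)) = 4 / l * (φ * a ^ 8 * a1 ^ 2) := by ring
        _ ≤ 4 / l * (τ * 6561 * a1 ^ 2) := h5
        _ = 26244 * τ / l * a1 ^ 2 := by ring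
    have c3 : (1 / 4 * τ * 81) * a1 ^ 2 * 2 ≤ 41 * τ * a1 ^ 2 := by
      have : 0 ≤ τ * a1 ^ 2 := mul_nonneg hτ hA
      nlinarith
    linarith
  · have b4 : a ^ 4 ≤ 1 / 625 := by
      rw [e4]
      nlinarith
    have p4 : 0 ≤ a ^ 4 := by positivity
    have c1 : φ1 * a ^ 4 * a1 ^ 2 ≤ 1 / 625 * (φ1 * a1 ^ 2) := by
      have : a ^ 4 * (φ1 * a1 ^ 2) ≤ 1 / 625 * (φ1 * a1 ^ 2) := mul_le_mul_of_nonneg_right b4 h1A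
      linarith
    have c2 : φ * (a2 * (a ^ 4 * a1)) ≤ 4 / 625 * (φ1 * a1 ^ 2 + φ1 * a2 ^ 2) := by
      have d1 : φ * (a2 * (a ^ 4 * a1)) ≤ φ * (a ^ 4 * (1 / 2 * (a1 ^ 2 + a2 ^ 2))) := by
        refine mul_le_mul_of_nonneg_left ?_ h0
        have : a ^ 4 * (a1 * a2) ≤ a ^ 4 * (1 / 2 * (a1 ^ 2 + a2 ^ 2)) := by
          refine mul_le_mul_of_nonneg_left ?_ p4
          nlinarith [sq_nonneg (a1 - a2)]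
        linarith
      have d2 : φ * (a ^ 4 * (1 / 2 * (a1 ^ 2 + a2 ^ 2))) ≤
          8 * φ1 * (1 / 625 * (1 / 2 * (a1 ^ 2 + a2 ^ 2))) := by
        refine mul_le_mul z1 ?_ (by positivity) (by positivity)
        exact mul_le_mul_of_nonneg_right b4 (by positivity)
      refine d1.trans (d2.trans (le_of_eq ?_))
      ring
    have c3 : 0 ≤ 26244 * τ / l * a1 ^ 2 := t2
    have c4 : 0 ≤ l / 4 * (φ * a2 ^ 2) := by positivity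
    linarith
  · have b4 : a ^ 4 ≤ 1 / 625 := by
      rw [e4]
      nlinarith
    have c1 : φ1 * a ^ 4 * a1 ^ 2 ≤ 1 / 625 * (φ1 * a1 ^ 2) := by
      have : a ^ 4 * (φ1 * a1 ^ 2) ≤ 1 / 625 * (φ1 * a1 ^ 2) := mul_le_mul_of_nonneg_right b4 h1A
      linarith
    have c2 : 4 / l * (φ * (a ^ 8 * a1 ^ 2)) ≤ 4 * K / l * (φ * a1 ^ 2) := by
      have h5 : 4 / l * (a ^ 8 * (φ * a1 ^ 2)) ≤ 4 / l * (K * (φ * a1 ^ 2)) :=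
        mul_le_mul_of_nonneg_left (mul_le_mul_of_nonneg_right z2 hφA) (by positivity)
      calc 4 / l * (φ * (a ^ 8 * a1 ^ 2)) = 4 / l * (a ^ 8 * (φ * a1 ^ 2)) := by ring
        _ ≤ 4 / l * (K * (φ * a1 ^ 2)) := h5
        _ = 4 * K / l * (φ * a1 ^ 2) := by ring
    linarith

theorem I2 {φ φ1 φ2 φ3 w m l y a a1 a2 e1 κ τ τ' K : ℝ}
    (h0 : 0 ≤ φ) (h1 : 0 ≤ φ1) (h1' : φ1 ≤ 1 / 4 * φ) (hφ1 : φ ≤ 1) (h2 : |φ2| ≤ 1 / 4 * φ1)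
    (h3 : |φ3| ≤ 1 / 16 * φ1) (hl : 0 < l) (hl1 : l ≤ 1 / 16) (hm : |m| ≤ 1 / 4) (hκ : 0 ≤ κ)
    (hτ : 0 ≤ τ) (hK : 0 ≤ K) (htr : w * y * φ1 ≤ 1 / 16 * φ1 + τ')
    (hz : (φ ≤ τ ∧ a ^ 2 ≤ 9) ∨ (φ ≤ 8 * φ1 ∧ a ^ 2 ≤ 1 / 25) ∨ (a ^ 2 ≤ 1 / 25 ∧ a ^ 8 ≤ K)) :
    w * y * φ1 * a1 ^ 2 - (1 + m) * (φ1 * a1 ^ 2) - 3 * (φ1 * a2 ^ 2) + φ3 * a1 ^ 2
      - 2 * l * (φ * a2 ^ 2) + l * (φ2 * a1 ^ 2)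
      + 2 * ((φ1 * a1 + φ * a2) * (a ^ 4 * a1)) + 2 * ((φ1 * a1 + φ * a2) * e1)
      - κ * (φ1 * a1 ^ 2) ≤
    -l * (φ * a2 ^ 2) + (τ' + 41 * τ + 26244 * τ / l) * a1 ^ 2 + 4 * K / l * (φ * a1 ^ 2)
      + 8 / l * e1 ^ 2 := by
  have hA : 0 ≤ a1 ^ 2 := sq_nonneg _
  have hB : 0 ≤ a2 ^ 2 := sq_nonneg _
  have hC : 0 ≤ e1 ^ 2 := sq_nonneg _
  have h1A : 0 ≤ φ1 * a1 ^ 2 := mul_nonneg h1 hA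
  have h1B : 0 ≤ φ1 * a2 ^ 2 := mul_nonneg h1 hB
  have hφB : 0 ≤ φ * a2 ^ 2 := mul_nonneg h0 hB
  have hN := I2_non (a1 := a1) (a2 := a2) h0 h1 h1' hl hτ hK hz
  have s1 : w * y * φ1 * a1 ^ 2 ≤ (1 / 16 * φ1 + τ') * a1 ^ 2 := mul_le_mul_of_nonneg_right htr hA
  have s2 : -(1 + m) * (φ1 * a1 ^ 2) ≤ -(3 / 4) * (φ1 * a1 ^ 2) := by
    refine mul_le_mul_of_nonneg_right ?_ h1A
    have := (abs_le.1 hm).1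
    linarith
  have s3 : φ3 * a1 ^ 2 ≤ 1 / 16 * φ1 * a1 ^ 2 :=
    mul_le_mul_of_nonneg_right ((le_abs_self _).trans h3) hA
  have s4 : l * (φ2 * a1 ^ 2) ≤ 1 / 64 * (φ1 * a1 ^ 2) := by
    have q1 : φ2 * a1 ^ 2 ≤ 1 / 4 * φ1 * a1 ^ 2 :=
      mul_le_mul_of_nonneg_right ((le_abs_self _).trans h2) hA
    have q2 : l * (φ2 * a1 ^ 2) ≤ l * (1 / 4 * φ1 * a1 ^ 2) := mul_le_mul_of_nonneg_left q1 hl.le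
    have q3 : l * (1 / 4 * φ1 * a1 ^ 2) ≤ 1 / 16 * (1 / 4 * φ1 * a1 ^ 2) :=
      mul_le_mul_of_nonneg_right hl1 (by positivity)
    linarith
  have s5 : 0 ≤ κ * (φ1 * a1 ^ 2) := mul_nonneg hκ h1A
  have s6 : 2 * (φ1 * (a1 * e1)) ≤ 1 / 16 * (φ1 * a1 ^ 2) + 4 * e1 ^ 2 := by
    have q1 := I2_yng (l := 1 / 4) (by norm_num) h1 a1 e1
    have q2 : φ1 * e1 ^ 2 ≤ 1 / 4 * e1 ^ 2 := mul_le_mul_of_nonneg_right (by linarith) hC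
    norm_num at q1
    linarith
  have s7 : 2 * (φ * (a2 * e1)) ≤ l / 4 * (φ * a2 ^ 2) + 4 / l * e1 ^ 2 := by
    have q1 := I2_yng hl h0 a2 e1
    have q2 : 4 / l * (φ * e1 ^ 2) ≤ 4 / l * (1 * e1 ^ 2) :=
      mul_le_mul_of_nonneg_left (mul_le_mul_of_nonneg_right hφ1 hC) (by positivity)
    linarith
  have s8 : 4 * e1 ^ 2 + 4 / l * e1 ^ 2 ≤ 8 / l * e1 ^ 2 := by
    have q1 : (4 : ℝ) ≤ 4 / l := by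
      rw [le_div_iff₀ hl]
      linarith
    have q2 : 4 * e1 ^ 2 ≤ 4 / l * e1 ^ 2 := mul_le_mul_of_nonneg_right q1 hC
    have q3 : 8 / l * e1 ^ 2 = 4 / l * e1 ^ 2 + 4 / l * e1 ^ 2 := by ring
    linarith
  have s9 : 0 ≤ l * (φ * a2 ^ 2) := mul_nonneg hl.le hφB
  have e : w * y * φ1 * a1 ^ 2 - (1 + m) * (φ1 * a1 ^ 2) - 3 * (φ1 * a2 ^ 2) + φ3 * a1 ^ 2
      - 2 * l * (φ * a2 ^ 2) + l * (φ2 * a1 ^ 2)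
      + 2 * ((φ1 * a1 + φ * a2) * (a ^ 4 * a1)) + 2 * ((φ1 * a1 + φ * a2) * e1)
      - κ * (φ1 * a1 ^ 2) =
      w * y * φ1 * a1 ^ 2 + -(1 + m) * (φ1 * a1 ^ 2) - 3 * (φ1 * a2 ^ 2) + φ3 * a1 ^ 2
      - 2 * (l * (φ * a2 ^ 2)) + l * (φ2 * a1 ^ 2)
      + (2 * (φ1 * a ^ 4 * a1 ^ 2) + 2 * (φ * (a2 * (a ^ 4 * a1))))
      + 2 * (φ1 * (a1 * e1)) + 2 * (φ * (a2 * e1)) - κ * (φ1 * a1 ^ 2) := by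
    ring
  rw [e]
  have e2 : (τ' + 41 * τ + 26244 * τ / l) * a1 ^ 2 =
      τ' * a1 ^ 2 + (41 * τ + 26244 * τ / l) * a1 ^ 2 := by ring
  have e3 : l / 4 * (φ * a2 ^ 2) = 1 / 4 * (l * (φ * a2 ^ 2)) := by ring
  rw [e2]
  linarith

end H37KC
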