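import Pool.Agent.H37.KC.T1
import Pool.Agent.H37.KC.I1
import Pool.Agent.H37.KC.I2
import Pool.Agent.H37.KC.F1
import Pool.Agent.H37.KC.F2

/-!
# Row AH of MP_95be7d_K4B (150 lines)

Assembly of `GoodB.AH`.  `s = r²`, `l = r⁸`, `Φ = Ph s`, `y1 = 1/(2s)`, `N = Nn s W`, `(p, q)` from `Sit.cl`, `W ∈ Cl p q` (`Cl_W`),
`ze w m l W et = Zz w m l W et` (`ze_eq`).   Fix `y0` from `F1_y0`, `C1` from `F1_int`, `C2` from `T1_exp`.
Take `r1` with: `r1 ≤ 1/2` (so `l ≤ 1/16`), `y0 ≤ 1/(2 r1²)`, `160 c0 r1² ≤ 1` (so `32 w ≤ s`; note `c0 ≥ 1`: `cnu ≥ 0`).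

`DNn = ∫ 2Φ W' Z' - κ ∫ Φ' W'²` with `κ = w/(8s) ≥ 0`; by `I1` it is `∫ (integrand of I1 - κ Φ' W'²)`.  Pointwise, `I2` with
`φ = Φ y, φ1 = Φ' y, φ2 = Φ'' y, φ3 = Φ''' y, a = W y, a1 = W' y, a2 = W'' y, e1 = et' y, τ = exp(-(1/(8 r²))) exp(y0/4)`
(for `y ≤ y0`: `Φ y ≤ exp((y0 - y1)/4) = τ` by `P1_lo`, `y1/4 = 1/(8r²)`), `τ' = 4 w exp(-(1/(4 r²)))` (`P1_tr`),
`K = (8 C1 N)²` (`F2_pt`: `a⁸ = (a⁴)²`).  Zones: `y ≤ y0` zone 1 (`|W| ≤ 3`, `F1_W3`); `y0 ≤ y ≤ y1` zone 2 (`P1_eight`, `F1_y0`); `y ≥ y1`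
zone 3.  Add `-2 w Φ W'²` and integrate (`integral_mono`, `I1_int`):

`DNn ≤ -2 w N - l ∫ Φ W''² + (τ' + 41 τ + 26244 τ/l) ∫ W'² + (4K/l) N + (8/l) ∫ et'²`.

`∫ W'² ≤ C1`;  `τ ≤ C r^48`, `τ' ≤ 4 w C r^48 ≤ C r^48` (`exp(-(1/(4r²))) ≤ exp(-(1/(8r²)))`, `w ≤ 5 c0`), so with `l = r⁸` the third term is
`≤ C r^40`;  `(4K/l) N ≤ 256 C1² N³ / r⁸ ≤ 256 C1² (|Ca| r^16)³ / r⁸ = C r^40`;  `∫ et'² ≤ ne2 et`.
(`Sit.N1 : N ≤ Ca r^16` and `N ≥ 0`, so `N ≤ |Ca| r^16`.)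
-/

open MeasureTheory Filter Topology Set
open scoped ContDiff

namespace H37KC

open H98KB H68KC

theorem AH_c0 : 1 ≤ c0 := by
  unfold c0 cnu
  have h : 0 ≤ 16 * (∫ y, (deriv (Qf 4) y) ^ 2) / Iq ^ 2 :=
    div_nonneg (mul_nonneg (by norm_num) (integral_nonneg fun y => sq_nonneg _)) (sq_nonneg _)
  linarith

theorem AH_sq {p q : ℝ} {f : ℝ → ℝ} (hp : 0 < p) (hq : 0 < q) (hf : Cl p q f) :
    Integrable (fun y => (f y) ^ 2) := by
  have h := Cl_int (Cl_mul hf hf) (by linarith) (by linarith)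
  refine h.congr (Eventually.of_forall fun y => ?_)
  change f y * f y = f y ^ 2
  ring

/-- the integrated inequality -/
theorem AH_int {p q s w m l κ T K : ℝ} {W et : ℝ → ℝ} (hp : 0 < p) (hq : 0 < q) (hW : Cl p q W)
    (he : Cl p q et) (hκ : κ = w / (8 * s))
    (hpt : ∀ y, w * y * deriv (Ph s) y * (deriv W y) ^ 2 - (1 + m) * (deriv (Ph s) y * (deriv W y) ^ 2)
      - 3 * (deriv (Ph s) y * (deriv (deriv W) y) ^ 2)
      + deriv (deriv (deriv (Ph s))) y * (deriv W y) ^ 2 - 2 * l * (Ph s y * (deriv (deriv W) y) ^ 2)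
      + l * (deriv (deriv (Ph s)) y * (deriv W y) ^ 2)
      + 2 * ((deriv (Ph s) y * deriv W y + Ph s y * deriv (deriv W) y) * ((W y) ^ 4 * deriv W y))
      + 2 * ((deriv (Ph s) y * deriv W y + Ph s y * deriv (deriv W) y) * deriv et y)
      - κ * (deriv (Ph s) y * (deriv W y) ^ 2) ≤
      -l * (Ph s y * (deriv (deriv W) y) ^ 2) + T * (deriv W y) ^ 2
        + 4 * K / l * (Ph s y * (deriv W y) ^ 2) + 8 / l * (deriv et y) ^ 2) :
    DNn s w W (Zz w m l W et) ≤ -2 * w * Nn s W - l * (∫ y, Ph s y * (deriv (deriv W) y) ^ 2)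
      + T * (∫ y, (deriv W y) ^ 2) + 4 * K / l * Nn s W + 8 / l * (∫ y, (deriv et y) ^ 2) := by
  have hΦ : Cl 0 0 (Ph s) := Cl_mono (P1_Cl s) le_rfl (by norm_num)
  obtain ⟨i1, i2, i3, i4⟩ := I1_int hp hq hW hΦ
  have iF := I1_int' (w := w) (m := m) (l := l) hp hq hW he hΦ
  have i5 := AH_sq hp hq (Cl_der he)
  unfold DNn
  rw [I1 hp hq hW he hΦ, ← hκ, ← integral_const_mul, ← integral_sub iF (i3.const_mul κ)]
  have j1 : Integrable (fun y => (-2 * w) * (Ph s y * (deriv W y) ^ 2) +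
      (-l) * (Ph s y * (deriv (deriv W) y) ^ 2)) := (i1.const_mul _).add (i2.const_mul _)
  have j2 : Integrable (fun y => ((-2 * w) * (Ph s y * (deriv W y) ^ 2) +
      (-l) * (Ph s y * (deriv (deriv W) y) ^ 2)) + T * (deriv W y) ^ 2) := j1.add (i4.const_mul _)
  have j3 : Integrable (fun y => (((-2 * w) * (Ph s y * (deriv W y) ^ 2) +
      (-l) * (Ph s y * (deriv (deriv W) y) ^ 2)) + T * (deriv W y) ^ 2) +
      (4 * K / l) * (Ph s y * (deriv W y) ^ 2)) := j2.add (i1.const_mul _)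
  have j4 : Integrable (fun y => ((((-2 * w) * (Ph s y * (deriv W y) ^ 2) +
      (-l) * (Ph s y * (deriv (deriv W) y) ^ 2)) + T * (deriv W y) ^ 2) +
      (4 * K / l) * (Ph s y * (deriv W y) ^ 2)) + (8 / l) * (deriv et y) ^ 2) :=
    j3.add (i5.const_mul _)
  have hR : (∫ y, (((((-2 * w) * (Ph s y * (deriv W y) ^ 2) +
      (-l) * (Ph s y * (deriv (deriv W) y) ^ 2)) + T * (deriv W y) ^ 2) +
      (4 * K / l) * (Ph s y * (deriv W y) ^ 2)) + (8 / l) * (deriv et y) ^ 2)) =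
      -2 * w * Nn s W - l * (∫ y, Ph s y * (deriv (deriv W) y) ^ 2)
      + T * (∫ y, (deriv W y) ^ 2) + 4 * K / l * Nn s W + 8 / l * (∫ y, (deriv et y) ^ 2) := by
    rw [integral_add j3 (i5.const_mul _), integral_add j2 (i1.const_mul _),
      integral_add j1 (i4.const_mul _), integral_add (i1.const_mul _) (i2.const_mul _),
      integral_const_mul, integral_const_mul, integral_const_mul, integral_const_mul,
      integral_const_mul]
    unfold Nn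
    ring
  rw [← hR]
  refine integral_mono (iF.sub (i3.const_mul κ)) j4 ?_
  intro y
  have h := hpt y
  simp only
  linarith

theorem AH_e {r : ℝ} (hr : 0 < r) {y0 : ℝ} : Real.exp ((y0 - 1 / (2 * r ^ 2)) / 4) =
    Real.exp (-(1 / (8 * r ^ 2))) * Real.exp (y0 / 4) := by
  rw [← Real.exp_add]
  congr 1
  field_simp
  ring

theorem AHt {P E : ℝ → ℝ} {γ B c : ℝ} (hc1 : c ≤ 1 / 10) (Ca : ℝ) :
    ∃ C r1 : ℝ, 0 < C ∧ 0 < r1 ∧ ∀ r w m W et, r ≤ r1 → |m| ≤ 1 / 4 →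
    Sit P E γ B c Ca r w m W et →
    DNn (r ^ 2) w W (ze w m (r ^ 8) W et) ≤
      -2 * w * Nn (r ^ 2) W - r ^ 8 * (∫ y, Ph (r ^ 2) y * (deriv (deriv W) y) ^ 2)
        + C * r ^ 40 + C / r ^ 8 * ne2 et := by
  obtain ⟨y0, hy0, hF⟩ := F1_y0
  obtain ⟨C1, hC1, hI⟩ := F1_int
  obtain ⟨C2, hC2, hexp⟩ := T1_exp
  have hc0 := AH_c0
  set D : ℝ := C2 * Real.exp (y0 / 4) with hD
  have hD0 : 0 < D := by positivity
  have hCa := abs_nonneg Ca
  refine ⟨(20 * c0 * C2 + 26285 * D) * C1 + 256 * C1 ^ 2 * |Ca| ^ 3 + 8,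
    min (1 / 2) (min (1 / (2 * y0)) (1 / (160 * c0))), by positivity,
    lt_min (by norm_num) (lt_min (by positivity) (by positivity)), ?_⟩
  intro r w m W et hr hm S
  have hr0 := S.r0
  have hr1 : r ≤ 1 / 2 := hr.trans (min_le_left _ _)
  have hr2 : r ≤ 1 / (2 * y0) := hr.trans ((min_le_right _ _).trans (min_le_left _ _))
  have hr3 : r ≤ 1 / (160 * c0) := hr.trans ((min_le_right _ _).trans (min_le_right _ _))
  have hrr : r ^ 2 ≤ r := by nlinarith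
  have hs0 : 0 < r ^ 2 := by positivity
  have hy1 : y0 ≤ 1 / (2 * r ^ 2) := by
    rw [le_div_iff₀ (by positivity)]
    have h := (le_div_iff₀ (by positivity : 0 < 2 * y0)).1 hr2
    nlinarith
  have hws : 32 * w ≤ r ^ 2 := by
    have h := (le_div_iff₀ (by positivity : 0 < 160 * c0)).1 hr3
    have h1 : 160 * c0 * r ^ 2 ≤ 1 := by nlinarith
    have h2 := S.w1
    have h3 : 32 * (5 * c0 * r ^ 4) = (160 * c0 * r ^ 2) * r ^ 2 := by ring
    have h4 : (160 * c0 * r ^ 2) * r ^ 2 ≤ 1 * r ^ 2 := mul_le_mul_of_nonneg_right h1 hs0.le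
    linarith
  obtain ⟨p, q, hp, hp2, hq, hq2, hWQ, he⟩ := S.cl
  have hW := Cl_W hp2 hq2 hWQ
  obtain ⟨hI1, hI2⟩ := hI p q W hp hp2 hq hq2 hWQ S.X1 S.L1
  rw [ze_eq hW]
  have hN0 := F2_nonneg (r ^ 2) W
  set N := Nn (r ^ 2) W with hN
  set τ : ℝ := Real.exp (-(1 / (8 * r ^ 2))) * Real.exp (y0 / 4) with hτ
  set τ' : ℝ := 4 * w * Real.exp (-(1 / (4 * r ^ 2))) with hτ'
  have hτ0 : 0 < τ := by positivity
  have hl0 : 0 < r ^ 8 := by positivity
  have hl1 : r ^ 8 ≤ 1 / 16 := by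
    have h := pow_le_pow_left₀ hr0.le hr1 8
    norm_num at h
    linarith
  have hmain := AH_int (s := r ^ 2) (w := w) (m := m) (l := r ^ 8) (κ := w / (8 * r ^ 2))
    (T := τ' + 41 * τ + 26244 * τ / r ^ 8) (K := (8 * C1 * N) ^ 2) hp hq hW he rfl (by
      intro y
      refine I2 (P1_pos _ y).le (P1_d1_nonneg _ y) (P1_d1_le _ y) (P1_lt _ y).le (P1_d2 _ y)
        (P1_d3 _ y) hl0 hl1 hm (div_nonneg S.w0 (by positivity)) hτ0.le (sq_nonneg _)
        (P1_tr hs0 S.w0 hws y) ?_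
      have hsm : ∀ y, y0 ≤ y → (W y) ^ 2 ≤ 1 / 25 := by
        intro y hy
        have h := hF c W hc1 S.sup y hy
        have h2 := sq_abs (W y)
        have h3 := abs_nonneg (W y)
        nlinarith
      rcases le_total y y0 with hy | hy
      · left
        constructor
        · have h := P1_lo (r ^ 2) y
          refine h.trans ?_
          rw [hτ, ← AH_e hr0, Real.exp_le_exp]
          linarith
        · have h := F1_W3 hc1 S.sup y
          have h2 := sq_abs (W y)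
          have h3 := abs_nonneg (W y)
          nlinarith
      · right
        rcases le_total y (1 / (2 * r ^ 2)) with hy2 | hy2
        · exact Or.inl ⟨P1_eight hy2, hsm y hy⟩
        · refine Or.inr ⟨hsm y hy, ?_⟩
          have h := F2_pt hp hq hW hy2
          have h2 : (W y) ^ 4 ≤ 8 * C1 * N := by
            refine h.trans ?_
            have h5 : 8 * (∫ z, (W z) ^ 2) ≤ 8 * C1 := by linarith
            exact mul_le_mul_of_nonneg_right h5 hN0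
          have h3 : (W y) ^ 8 = ((W y) ^ 4) ^ 2 := by ring
          rw [h3]
          exact pow_le_pow_left₀ (by positivity) h2 2)
  -- the constants
  have hr1' : r ≤ 1 := by linarith
  have hr48 : r ^ 48 ≤ r ^ 40 := pow_le_pow_of_le_one hr0.le hr1' (by norm_num)
  have hr40 : 0 < r ^ 40 := by positivity
  have hτb : τ ≤ D * r ^ 48 := by
    have h := mul_le_mul_of_nonneg_right (hexp r hr0) (Real.exp_pos (y0 / 4)).le
    rw [hτ, hD]
    linarith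
  have hτ'b : τ' ≤ 20 * c0 * C2 * r ^ 48 := by
    have h1 : Real.exp (-(1 / (4 * r ^ 2))) ≤ Real.exp (-(1 / (8 * r ^ 2))) := by
      rw [Real.exp_le_exp, neg_le_neg_iff]
      exact one_div_le_one_div_of_le (by positivity) (by linarith)
    have h2 := h1.trans (hexp r hr0)
    have h3 : w ≤ 5 * c0 := by
      have h4 : r ^ 4 ≤ 1 := pow_le_one₀ hr0.le hr1'
      have h5 := S.w1
      have h6 : 5 * c0 * r ^ 4 ≤ 5 * c0 * 1 := mul_le_mul_of_nonneg_left h4 (by linarith)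
      linarith
    have h4 : 4 * w * Real.exp (-(1 / (4 * r ^ 2))) ≤ (4 * (5 * c0)) * (C2 * r ^ 48) :=
      mul_le_mul (by linarith) h2 (Real.exp_pos _).le (by linarith)
    rw [hτ']
    linarith
  have hτl : τ / r ^ 8 ≤ D * r ^ 40 := by
    rw [div_le_iff₀ hl0]
    have : D * r ^ 40 * r ^ 8 = D * r ^ 48 := by ring
    rw [this]
    exact hτb
  have hX0 : 0 ≤ ∫ y, (deriv W y) ^ 2 := integral_nonneg fun y => sq_nonneg _
  have hT0 : 0 ≤ τ' + 41 * τ + 26244 * τ / r ^ 8 := by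
    have h1 : 0 ≤ τ' := by
      rw [hτ']
      have := S.w0
      positivity
    have h2 : 0 ≤ 26244 * τ / r ^ 8 := by positivity
    linarith
  have hT : τ' + 41 * τ + 26244 * τ / r ^ 8 ≤ (20 * c0 * C2 + 26285 * D) * r ^ 40 := by
    have h1 : 26244 * τ / r ^ 8 = 26244 * (τ / r ^ 8) := by ring
    have h2 : D * r ^ 48 ≤ D * r ^ 40 := mul_le_mul_of_nonneg_left hr48 hD0.le
    have h3 : 20 * c0 * C2 * r ^ 48 ≤ 20 * c0 * C2 * r ^ 40 :=
      mul_le_mul_of_nonneg_left hr48 (by positivity)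
    rw [h1]
    linarith
  have hTT : (τ' + 41 * τ + 26244 * τ / r ^ 8) * (∫ y, (deriv W y) ^ 2) ≤
      ((20 * c0 * C2 + 26285 * D) * r ^ 40) * C1 :=
    mul_le_mul hT hI1 hX0 (by positivity)
  have hNb : N ≤ |Ca| * r ^ 16 := by
    refine S.N1.trans ?_
    exact mul_le_mul_of_nonneg_right (le_abs_self Ca) (by positivity)
  have hK : 4 * (8 * C1 * N) ^ 2 / r ^ 8 * N ≤ 256 * C1 ^ 2 * |Ca| ^ 3 * r ^ 40 := by
    have h1 : N ^ 3 ≤ (|Ca| * r ^ 16) ^ 3 := pow_le_pow_left₀ hN0 hNb 3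
    have h2 : 4 * (8 * C1 * N) ^ 2 / r ^ 8 * N = 256 * C1 ^ 2 * N ^ 3 / r ^ 8 := by ring
    rw [h2, div_le_iff₀ hl0]
    have h3 : 256 * C1 ^ 2 * |Ca| ^ 3 * r ^ 40 * r ^ 8 = 256 * C1 ^ 2 * (|Ca| * r ^ 16) ^ 3 := by
      ring
    rw [h3]
    exact mul_le_mul_of_nonneg_left h1 (by positivity)
  have hne : (∫ y, (deriv et y) ^ 2) ≤ ne2 et := by
    unfold ne2
    refine integral_mono (AH_sq hp hq (Cl_der he)) ((AH_sq hp hq he).add (AH_sq hp hq (Cl_der he))) ?_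
    intro y
    change (deriv et y) ^ 2 ≤ (et y) ^ 2 + (deriv et y) ^ 2
    have := sq_nonneg (et y)
    linarith
  have hne0 : 0 ≤ ne2 et := integral_nonneg fun y => by positivity
  have hlast : 8 / r ^ 8 * (∫ y, (deriv et y) ^ 2) ≤
      ((20 * c0 * C2 + 26285 * D) * C1 + 256 * C1 ^ 2 * |Ca| ^ 3 + 8) / r ^ 8 * ne2 et := by
    refine mul_le_mul ?_ hne (integral_nonneg fun y => sq_nonneg _) (by positivity)
    refine div_le_div_of_nonneg_right ?_ hl0.le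
    have h1 : 0 ≤ (20 * c0 * C2 + 26285 * D) * C1 := by positivity
    have h2 : 0 ≤ 256 * C1 ^ 2 * |Ca| ^ 3 := by positivity
    linarith
  have h8 : 0 ≤ 8 * r ^ 40 := by positivity
  have hfin : ((20 * c0 * C2 + 26285 * D) * r ^ 40) * C1 + 256 * C1 ^ 2 * |Ca| ^ 3 * r ^ 40 ≤
      ((20 * c0 * C2 + 26285 * D) * C1 + 256 * C1 ^ 2 * |Ca| ^ 3 + 8) * r ^ 40 := by
    linarith
  linarith

end H37KC
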