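import Pool.Agent.H37.KC.P1

/-!
# Row Q3 of MP_95be7d_K4B (50 lines)

`∫_1^2 |f(ξ/s)| dξ ≤ (∫_1^2 f(ξ/s)² dξ)^{1/2}` (Cauchy-Schwarz with `1` on an interval of length one), and
`∫_1^2 f(ξ/s)² dξ = s ∫_{1/s}^{2/s} f²` (`intervalIntegral.integral_comp_div`) `≤ s ∫_{Ici (1/s)} f²`.
-/

open MeasureTheory Filter Topology Set
open scoped ContDiff

namespace H37KC

open H98KB H68KC

theorem Q3 {p q s : ℝ} {f : ℝ → ℝ} (hp : 0 < p) (hq : 0 < q) (hs : 0 < s) (hf : Cl p q f) :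
    ∫ ξ in (1:ℝ)..2, |f (ξ / s)| ≤ √(s * ∫ y in Ici (1 / s), (f y) ^ 2) := by
  have hfc : Continuous f := Cl_cont hf
  have hgc : Continuous fun ξ : ℝ => f (ξ / s) := hfc.comp (continuous_id.div_const s)
  have hg1 : IntervalIntegrable (fun ξ : ℝ => |f (ξ / s)|) volume 1 2 :=
    (hgc.abs).intervalIntegrable _ _
  have hg2 : IntervalIntegrable (fun ξ : ℝ => (f (ξ / s)) ^ 2) volume 1 2 :=
    (hgc.pow 2).intervalIntegrable _ _
  set c := ∫ ξ in (1:ℝ)..2, |f (ξ / s)| with hc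
  have h1 : 0 ≤ ∫ ξ in (1:ℝ)..2, (|f (ξ / s)| - c) ^ 2 :=
    intervalIntegral.integral_nonneg (by norm_num) fun ξ _ => sq_nonneg _
  have h2 : (∫ ξ in (1:ℝ)..2, (|f (ξ / s)| - c) ^ 2) =
      (∫ ξ in (1:ℝ)..2, (f (ξ / s)) ^ 2) - c ^ 2 := by
    have e1 : (fun ξ : ℝ => (|f (ξ / s)| - c) ^ 2) =
        fun ξ => (f (ξ / s)) ^ 2 - (2 * c * |f (ξ / s)| - c ^ 2) := by
      funext ξ
      have : |f (ξ / s)| ^ 2 = (f (ξ / s)) ^ 2 := sq_abs _
      nlinarith [this]
    rw [e1, intervalIntegral.integral_sub hg2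
      ((hg1.const_mul (2 * c)).sub intervalIntegrable_const),
      intervalIntegral.integral_sub (hg1.const_mul (2 * c)) intervalIntegrable_const,
      intervalIntegral.integral_const_mul, intervalIntegral.integral_const, ← hc]
    simp only [smul_eq_mul]
    ring
  have h3 : (∫ ξ in (1:ℝ)..2, (f (ξ / s)) ^ 2) = s * ∫ y in (1 / s)..(2 / s), (f y) ^ 2 := by
    have := intervalIntegral.integral_comp_div (a := (1:ℝ)) (b := 2) (fun y => (f y) ^ 2) hs.ne'
    rw [this]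
    simp only [smul_eq_mul]
  have hbf : Integrable fun y => (f y) ^ 2 := by
    have h4 := Cl_mul hf hf
    have h5 := Cl_int h4 (by linarith) (by linarith)
    refine h5.congr (Eventually.of_forall fun y => ?_)
    simp only
    ring
  have h6 : (∫ y in (1 / s)..(2 / s), (f y) ^ 2) ≤ ∫ y in Ici (1 / s), (f y) ^ 2 := by
    rw [intervalIntegral.integral_of_le (by gcongr; norm_num)]
    exact setIntegral_mono_set hbf.integrableOn (Eventually.of_forall fun y => sq_nonneg _)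
      (HasSubset.Subset.eventuallyLE fun y hy => hy.1.le)
  have h7 : c ^ 2 ≤ s * ∫ y in Ici (1 / s), (f y) ^ 2 := by
    have := mul_le_mul_of_nonneg_left h6 hs.le
    linarith
  exact Real.le_sqrt_of_sq_le h7

end H37KC
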