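import Pool.Agent.H37.KC.Q2
import Pool.Agent.H37.KC.Q3
import Pool.Agent.H37.KC.F1
import Pool.Agent.H37.KC.F2

/-!
# Row AL of MP_95be7d_K4B (80 lines)

Assembly of `GoodB.AL`.  `s = r²`, `l = r⁸`.  `ze = Zz` (`ze_eq`, `Cl_W`), `Q2`.  For `r ≤ r1` (`r1 ≤ 1`, `10 c0 r1² ≤ 1`): `w ξ/s ≤ 2 w/s ≤ 10 c0 r² ≤ 1`,
`|1+m| ≤ 2`, `W⁴ ≤ 81` (`F1_W3`), `0 ≤ pw ≤ 3`, `|pw1| ≤ 40`, `|pw2| ≤ 600`; hence
`|alm| ≤ C (∫_1^2 |W'(ξ/s)| dξ + ∫_1^2 |et(ξ/s)| dξ)` (`intervalIntegral.abs_integral_le_integral_abs`, mono).  By `Q3` and `F2_tail`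
(`1/(2s) ≤ 1/s`): first `≤ √(s * 2 N) ≤ 2 r √N`; second `≤ √(s ∫ et²) ≤ √(ne2 et)` (`s ≤ 1`, `∫_{Ici} et² ≤ ∫ et² ≤ ne2 et`).
-/

open MeasureTheory Filter Topology Set
open scoped ContDiff

namespace H37KC

open H98KB H68KC

/-- pointwise bound of the coefficient -/
theorem AL_coef {w s m l ξ V p1 p2 p3 c : ℝ} (hs : 0 < s) (hs1 : s ≤ 1) (hw : 0 ≤ w) (hws : 2 * w ≤ s)
    (hm : |m| ≤ 1 / 4) (hl : 0 ≤ l) (hl1 : l ≤ 1) (hξ1 : 1 ≤ ξ) (hξ2 : ξ ≤ 2) (hV : |V| ≤ 3)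
    (hp0 : 0 ≤ p1) (hp1 : p1 ≤ 3) (hp2 : |p2| ≤ 40) (hp3 : |p3| ≤ 600) (hc : c =
      (-(3 / 4) * w * (ξ / s) + (1 + m) - V ^ 4) * p1 - s ^ 2 * p3 - l * s * p2) : |c| ≤ 889 := by
  have h1 : 0 ≤ w * (ξ / s) := by positivity
  have h2 : w * (ξ / s) ≤ 1 := by
    rw [← mul_div_assoc, div_le_one hs]
    nlinarith
  have h3 : V ^ 4 ≤ 81 := by
    have : V ^ 4 = |V| ^ 4 := by rw [← abs_pow, abs_of_nonneg (by positivity)]
    rw [this]
    calc |V| ^ 4 ≤ 3 ^ 4 := pow_le_pow_left₀ (abs_nonneg _) hV 4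
      _ = 81 := by norm_num
  have h4 : 0 ≤ V ^ 4 := by positivity
  obtain ⟨m1, m2⟩ := abs_le.1 hm
  have hA : |-(3 / 4) * w * (ξ / s) + (1 + m) - V ^ 4| ≤ 83 := by
    rw [abs_le]
    constructor <;> nlinarith
  have hA1 : |(-(3 / 4) * w * (ξ / s) + (1 + m) - V ^ 4) * p1| ≤ 83 * 3 := by
    rw [abs_mul, abs_of_nonneg hp0]
    exact mul_le_mul hA hp1 hp0 (by norm_num)
  have hs2 : s ^ 2 ≤ 1 := pow_le_one₀ hs.le hs1
  have hB1 : |s ^ 2 * p3| ≤ 1 * 600 := by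
    rw [abs_mul, abs_of_nonneg (by positivity : 0 ≤ s ^ 2)]
    exact mul_le_mul hs2 hp3 (abs_nonneg _) (by norm_num)
  have hls : l * s ≤ 1 := by nlinarith
  have hC1 : |l * s * p2| ≤ 1 * 40 := by
    rw [abs_mul, abs_of_nonneg (by positivity : 0 ≤ l * s)]
    exact mul_le_mul hls hp2 (abs_nonneg _) (by norm_num)
  rw [hc]
  have t1 := abs_sub ((-(3 / 4) * w * (ξ / s) + (1 + m) - V ^ 4) * p1 - s ^ 2 * p3) (l * s * p2)
  have t2 := abs_sub ((-(3 / 4) * w * (ξ / s) + (1 + m) - V ^ 4) * p1) (s ^ 2 * p3)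
  linarith

theorem AL_c0 : 1 ≤ c0 := by
  unfold c0 cnu
  have h : 0 ≤ ∫ y, (deriv (Qf 4) y) ^ 2 := integral_nonneg fun y => by positivity
  have : 0 ≤ 16 * (∫ y, (deriv (Qf 4) y) ^ 2) / Iq ^ 2 := by positivity
  linarith

theorem ALt {P E : ℝ → ℝ} {γ B c : ℝ} (hc1 : c ≤ 1 / 10) :
    ∃ C r1 : ℝ, 0 < C ∧ 0 < r1 ∧ ∀ Ca r w m W et, r ≤ r1 → |m| ≤ 1 / 4 →
    Sit P E γ B c Ca r w m W et →
    |alm (r ^ 2) w W (ze w m (r ^ 8) W et)| ≤ C * (r * √(Nn (r ^ 2) W) + √(ne2 et)) := by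
  have hc0 := AL_c0
  refine ⟨2000, min 1 (1 / (10 * c0)), by norm_num, by positivity, ?_⟩
  intro Ca r w m W et hr hm hS
  have hr0 := hS.r0
  have hr1 : r ≤ 1 := hr.trans (min_le_left _ _)
  have hr2 : r ≤ 1 / (10 * c0) := hr.trans (min_le_right _ _)
  obtain ⟨p, q, hp, hp2, hq, hq2, hW', he⟩ := hS.cl
  have hW : Cl p q W := Cl_W hp2 hq2 hW'
  have hs : 0 < r ^ 2 := by positivity
  have hs1 : r ^ 2 ≤ 1 := pow_le_one₀ hr0.le hr1
  have hrc : 10 * c0 * r ≤ 1 := by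
    rw [le_div_iff₀ (by positivity)] at hr2
    linarith
  have hws : 2 * w ≤ r ^ 2 := by
    have h1 := hS.w1
    have h2 : 10 * c0 * r ^ 2 ≤ 1 := by nlinarith
    have h3 : 2 * w ≤ 10 * c0 * r ^ 2 * r ^ 2 := by nlinarith
    nlinarith
  have hl1 : r ^ 8 ≤ 1 := pow_le_one₀ hr0.le hr1
  have hl0 : 0 ≤ r ^ 8 := by positivity
  rw [ze_eq hW, Q2 hs hW he]
  obtain ⟨k1, k2, k3⟩ := Q1_cont
  have cW := Cl_cont hW
  have cW' := Cl_cont (Cl_der hW)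
  have ce := Cl_cont he
  set s := r ^ 2 with hsdef
  have hdiv : Continuous fun ξ : ℝ => ξ / s := by fun_prop
  have cW1 : Continuous fun ξ : ℝ => W (ξ / s) := cW.comp hdiv
  have cW2 : Continuous fun ξ : ℝ => deriv W (ξ / s) := cW'.comp hdiv
  have ce1 : Continuous fun ξ : ℝ => et (ξ / s) := ce.comp hdiv
  have cI : Continuous fun ξ : ℝ =>
      (((-(3 / 4) * w * (ξ / s) + (1 + m) - (W (ξ / s)) ^ 4) * pw ξ - s ^ 2 * pw2 ξ
          - r ^ 8 * s * pw1 ξ) * deriv W (ξ / s)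
        + s * pw1 ξ * et (ξ / s)) := by
    fun_prop
  have cR : Continuous fun ξ : ℝ => 889 * |deriv W (ξ / s)| + 40 * |et (ξ / s)| := by
    fun_prop
  have hI : |∫ ξ in (1:ℝ)..2,
      (((-(3 / 4) * w * (ξ / s) + (1 + m) - (W (ξ / s)) ^ 4) * pw ξ - s ^ 2 * pw2 ξ
          - r ^ 8 * s * pw1 ξ) * deriv W (ξ / s)
        + s * pw1 ξ * et (ξ / s))| ≤ ∫ ξ in (1:ℝ)..2, (889 * |deriv W (ξ / s)| + 40 * |et (ξ / s)|) := by
    refine (intervalIntegral.abs_integral_le_integral_abs (by norm_num)).trans ?_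
    refine intervalIntegral.integral_mono_on (by norm_num) (cI.abs.intervalIntegrable _ _)
      (cR.intervalIntegrable _ _) ?_
    intro ξ hξ
    obtain ⟨q0, q1, q2, q3⟩ := Q1_bd hξ.1 hξ.2
    have hco := AL_coef (c := (-(3 / 4) * w * (ξ / s) + (1 + m) - (W (ξ / s)) ^ 4) * pw ξ - s ^ 2 * pw2 ξ
          - r ^ 8 * s * pw1 ξ) hs hs1 hS.w0 hws hm hl0 hl1 hξ.1 hξ.2 (F1_W3 hc1 hS.sup (ξ / s)) q0 q1 q2 q3 rfl
    refine (abs_add_le _ _).trans ?_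
    rw [abs_mul, abs_mul (s * pw1 ξ)]
    have h2 : |s * pw1 ξ| ≤ 40 := by
      rw [abs_mul, abs_of_pos hs]
      nlinarith [abs_nonneg (pw1 ξ)]
    exact add_le_add (mul_le_mul_of_nonneg_right hco (abs_nonneg _))
      (mul_le_mul_of_nonneg_right h2 (abs_nonneg _))
  have hsplit : ∫ ξ in (1:ℝ)..2, (889 * |deriv W (ξ / s)| + 40 * |et (ξ / s)|) =
      889 * (∫ ξ in (1:ℝ)..2, |deriv W (ξ / s)|) + 40 * ∫ ξ in (1:ℝ)..2, |et (ξ / s)| := by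
    have i1 : IntervalIntegrable (fun ξ : ℝ => 889 * |deriv W (ξ / s)|) volume 1 2 :=
      (continuous_const.mul cW2.abs).intervalIntegrable _ _
    have i2 : IntervalIntegrable (fun ξ : ℝ => 40 * |et (ξ / s)|) volume 1 2 :=
      (continuous_const.mul ce1.abs).intervalIntegrable _ _
    rw [intervalIntegral.integral_add i1 i2, intervalIntegral.integral_const_mul,
      intervalIntegral.integral_const_mul]
  have hN : 0 ≤ Nn s W := F2_nonneg s W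
  have h1 : ∫ ξ in (1:ℝ)..2, |deriv W (ξ / s)| ≤ 2 * (r * √(Nn s W)) := by
    refine (Q3 hp hq hs (Cl_der hW)).trans ?_
    have ha : 1 / (2 * s) ≤ 1 / s := by
      apply one_div_le_one_div_of_le hs
      linarith
    have h2 := F2_tail hp hq (Cl_der hW) ha
    have h3 : s * ∫ y in Ici (1 / s), (deriv W y) ^ 2 ≤ (2 * (r * √(Nn s W))) ^ 2 := by
      have e : (2 * (r * √(Nn s W))) ^ 2 = 4 * (s * Nn s W) := by
        rw [mul_pow, mul_pow, Real.sq_sqrt hN]; ring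
      rw [e]
      have h4 : s * ∫ y in Ici (1 / s), (deriv W y) ^ 2 ≤ s * (2 * Nn s W) :=
        mul_le_mul_of_nonneg_left h2 hs.le
      have h5 : 0 ≤ s * Nn s W := mul_nonneg hs.le hN
      linarith
    exact (Real.sqrt_le_sqrt h3).trans (by rw [Real.sqrt_sq (by positivity)])
  have hie : Integrable fun y => (et y) ^ 2 := Cl_int (Cl_pow' he hp.le hq.le 2 (by norm_num)) hp hq
  have hie' : Integrable fun y => (deriv et y) ^ 2 :=
    Cl_int (Cl_pow' (Cl_der he) hp.le hq.le 2 (by norm_num)) hp hq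
  have h2 : ∫ ξ in (1:ℝ)..2, |et (ξ / s)| ≤ √(ne2 et) := by
    refine (Q3 hp hq hs he).trans (Real.sqrt_le_sqrt ?_)
    have h3 : ∫ y in Ici (1 / s), (et y) ^ 2 ≤ ∫ y, (et y) ^ 2 :=
      setIntegral_le_integral hie (Eventually.of_forall fun y => by positivity)
    have h4 : ∫ y, (et y) ^ 2 ≤ ne2 et := by
      unfold ne2
      exact integral_mono hie (hie.add hie') fun y => by
        show (et y) ^ 2 ≤ (et y) ^ 2 + (deriv et y) ^ 2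
        have : 0 ≤ (deriv et y) ^ 2 := by positivity
        linarith
    have h5 : 0 ≤ ∫ y in Ici (1 / s), (et y) ^ 2 :=
      setIntegral_nonneg measurableSet_Ici fun y _ => by positivity
    nlinarith
  have h0 : 0 ≤ r * √(Nn s W) := by positivity
  have h0' : 0 ≤ √(ne2 et) := Real.sqrt_nonneg _
  calc _ ≤ _ := hI
    _ = _ := hsplit
    _ ≤ 889 * (2 * (r * √(Nn s W))) + 40 * √(ne2 et) := by linarith
    _ ≤ 2000 * (r * √(Nn s W) + √(ne2 et)) := by linarith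

end H37KC
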