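import Pool.Agent.H37.KC.Base

/-!
# Row B2 of MP_95be7d_K4B (90 lines)

`ε = ep P E s W = W - Q - (b P + α E) = (W - α) - Q - b P - α (E - 1)`, `b = bq s W`, `α = alf s W` constants, `|b| ≤ 5 c0`, `|α| ≤ |f0| + 1`
(`Sit.b1, a1`, `r ≤ 1`; note `c0 > 0`).  For `y ≥ 0`: `|Q|, |Q'|, |Q''| ≤ C e^{-y} ≤ C e^{-3y/4}` (`Cl_Qf`, `Cl_bndj`, `bd_of_nonneg`),
`|P| ≤ C e^{-3y/4}` (`Prof.P0`), `|P'|, |P''| ≤ C e^{-3y/4}` (`Prof.dP`), `|E - 1|, |E'|, |E''| ≤ C e^{-3y/4}` (`Prof.E1`).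
So `|ε| ≤ |W - α| + C e^{-3y/4}`, `|ε'| ≤ |W'| + C e^{-3y/4}`, `|ε''| ≤ |W''| + C e^{-3y/4}`; square with `(x+y)² ≤ 2x² + 2y²`.
-/

open MeasureTheory Filter Topology Set
open scoped ContDiff

namespace H37KC

open H98KB H68KC

theorem B2_c0 : 0 ≤ c0 := by
  unfold c0 cnu
  have h1 : 0 ≤ ∫ y, (deriv (Qf 4) y) ^ 2 := integral_nonneg fun y => sq_nonneg _
  have h2 : 0 ≤ 16 * (∫ y, (deriv (Qf 4) y) ^ 2) / Iq ^ 2 :=
    div_nonneg (by linarith) (sq_nonneg _)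
  linarith

theorem B2_bd {Cq Cp Ce B0 A0 b al X q p e : ℝ} (hX : 0 ≤ X) (hq : |q| ≤ Cq * X)
    (hp : |p| ≤ Cp * X) (he : |e| ≤ Ce * X) (hb : |b| ≤ B0) (ha : |al| ≤ A0) (hCp : 0 ≤ Cp)
    (hCe : 0 ≤ Ce) : |q + b * p + al * e| ≤ (Cq + B0 * Cp + A0 * Ce) * X := by
  have h1 : |b * p| ≤ B0 * (Cp * X) := by
    rw [abs_mul]
    exact mul_le_mul hb hp (abs_nonneg _) ((abs_nonneg _).trans hb)
  have h2 : |al * e| ≤ A0 * (Ce * X) := by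
    rw [abs_mul]
    exact mul_le_mul ha he (abs_nonneg _) ((abs_nonneg _).trans ha)
  have h3 := abs_add_le (q + b * p) (al * e)
  have h4 := abs_add_le q (b * p)
  calc |q + b * p + al * e| ≤ Cq * X + B0 * (Cp * X) + A0 * (Ce * X) := by linarith
    _ = (Cq + B0 * Cp + A0 * Ce) * X := by ring

theorem B2_sq {a g K C y : ℝ} (hK : 0 ≤ K) (hC : 2 * K ^ 2 ≤ C)
    (hg : |g| ≤ K * Real.exp (-(3 / 4) * y)) :
    (a - g) ^ 2 ≤ 2 * a ^ 2 + C * Real.exp (-(3 / 2) * y) := by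
  have h1 : Real.exp (-(3 / 4) * y) ^ 2 = Real.exp (-(3 / 2) * y) := by
    rw [← Real.exp_nat_mul]
    congr 1
    push_cast
    ring
  have h2 : g ^ 2 ≤ K ^ 2 * Real.exp (-(3 / 2) * y) := by
    rw [← h1, ← mul_pow, ← sq_abs g]
    exact pow_le_pow_left₀ (abs_nonneg _) hg 2
  have h3 : 2 * K ^ 2 * Real.exp (-(3 / 2) * y) ≤ C * Real.exp (-(3 / 2) * y) :=
    mul_le_mul_of_nonneg_right hC (Real.exp_pos _).le
  have h4 : 0 ≤ (a + g) ^ 2 := sq_nonneg _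
  nlinarith

theorem B2 {P E : ℝ → ℝ} (hpr : Prof P E) {γ B c : ℝ} : ∃ C : ℝ, 0 < C ∧ ∀ Ca r w m W et, r ≤ 1 →
    Sit P E γ B c Ca r w m W et → ∀ y, 0 ≤ y →
    (ep P E (r ^ 2) W y) ^ 2 ≤ 2 * (W y - alf (r ^ 2) W) ^ 2 + C * Real.exp (-(3 / 2) * y) ∧
    (deriv (ep P E (r ^ 2) W) y) ^ 2 ≤ 2 * (deriv W y) ^ 2 + C * Real.exp (-(3 / 2) * y) ∧
    (deriv (deriv (ep P E (r ^ 2) W)) y) ^ 2 ≤
      2 * (deriv (deriv W) y) ^ 2 + C * Real.exp (-(3 / 2) * y) := by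
  have hQ : Cl (3 / 4) (3 / 4) (Qf 4) := Cl_mono (Cl_Qf (by norm_num)) (by norm_num) (by norm_num)
  obtain ⟨q0, hq0, Hq0⟩ := Cl_bnd hQ
  obtain ⟨q1, hq1, Hq1⟩ := Cl_bnd (Cl_der hQ)
  obtain ⟨q2, hq2, Hq2⟩ := Cl_bnd (Cl_der (Cl_der hQ))
  obtain ⟨p0, Hp0⟩ := hpr.P0
  obtain ⟨p1, hp1, Hp1⟩ := Cl_bnd hpr.dP
  obtain ⟨p2, hp2, Hp2⟩ := Cl_bnd (Cl_der hpr.dP)
  have hEd : deriv (fun y => E y - 1) = deriv E := by
    funext y
    exact deriv_sub_const _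
  obtain ⟨e0, he0, He0⟩ := Cl_bnd hpr.E1
  obtain ⟨e1, he1, He1⟩ := Cl_bnd (Cl_der hpr.E1)
  obtain ⟨e2, he2, He2⟩ := Cl_bnd (Cl_der (Cl_der hpr.E1))
  rw [hEd] at He1 He2
  have hc0 := B2_c0
  have hf0 := abs_nonneg f0
  have hbd : ∀ y : ℝ, 0 ≤ y → bd (3 / 4) (3 / 4) y = Real.exp (-(3 / 4) * y) := by
    intro y hy
    rw [bd, max_eq_left hy, max_eq_right (by linarith)]
    congr 1
    ring
  set K0 := q0 + 5 * c0 * |p0| + (|f0| + 1) * e0 with hK0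
  set K1 := q1 + 5 * c0 * p1 + (|f0| + 1) * e1 with hK1
  set K2 := q2 + 5 * c0 * p2 + (|f0| + 1) * e2 with hK2
  have k0 : 0 ≤ K0 := by positivity
  have k1 : 0 ≤ K1 := by positivity
  have k2 : 0 ≤ K2 := by positivity
  refine ⟨1 + 2 * K0 ^ 2 + 2 * K1 ^ 2 + 2 * K2 ^ 2, by positivity, ?_⟩
  intro Ca r w m W et hr hS y hy
  obtain ⟨p, q, hp0, hp1', hq0', hq1', hW, -⟩ := hS.cl
  have hWc : Cl p q W := Cl_W hp1' hq1' hW
  have r4 : r ^ 4 ≤ 1 := pow_le_one₀ hS.r0.le hr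
  have hb : |bq (r ^ 2) W| ≤ 5 * c0 := by
    refine hS.b1.trans ?_
    have := mul_le_mul_of_nonneg_left r4 (by positivity : 0 ≤ 5 * c0)
    linarith
  have ha : |alf (r ^ 2) W| ≤ |f0| + 1 := by
    refine hS.a1.trans ?_
    have := mul_le_mul_of_nonneg_left r4 (by positivity : 0 ≤ |f0| + 1)
    linarith
  have hEc : Cl 0 0 E := by
    have h := Cl_add (Cl_mono hpr.E1 (p' := 0) (q' := 0) (by norm_num) (by norm_num)) (Cl_const 1)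
    have e : (fun y => E y - 1 + 1) = E := by
      funext y; ring
    rwa [e] at h
  have hQ1 : Cl 1 1 (Qf 4) := Cl_Qf (by norm_num)
  have hX := (Real.exp_pos (-(3 / 4) * y)).le
  have d1 : deriv (ep P E (r ^ 2) W) = fun y => deriv W y - (deriv (Qf 4) y
      + bq (r ^ 2) W * deriv P y + alf (r ^ 2) W * deriv E y) := by
    funext z
    have h := ((Cl_hd hWc z).sub (Cl_hd hQ1 z)).sub (((Cl_hd hpr.cP z).const_mul (bq (r ^ 2) W)).add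
      ((Cl_hd hEc z).const_mul (alf (r ^ 2) W)))
    refine Eq.trans h.deriv ?_
    ring
  have d2 : deriv (deriv (ep P E (r ^ 2) W)) y = deriv (deriv W) y - (deriv (deriv (Qf 4)) y
      + bq (r ^ 2) W * deriv (deriv P) y + alf (r ^ 2) W * deriv (deriv E) y) := by
    rw [d1]
    have h := (Cl_hd (Cl_der hWc) y).sub (((Cl_hd (Cl_der hQ1) y).add
      ((Cl_hd (Cl_der hpr.cP) y).const_mul (bq (r ^ 2) W))).add
      ((Cl_hd (Cl_der hEc) y).const_mul (alf (r ^ 2) W)))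
    exact h.deriv
  refine ⟨?_, ?_, ?_⟩
  · have e : ep P E (r ^ 2) W y = (W y - alf (r ^ 2) W) - (Qf 4 y + bq (r ^ 2) W * P y
        + alf (r ^ 2) W * (E y - 1)) := by
      unfold ep hf
      ring
    rw [e]
    refine B2_sq k0 (by nlinarith [sq_nonneg K1, sq_nonneg K2]) ?_
    refine B2_bd hX ?_ ?_ ?_ hb ha (abs_nonneg _) he0
    · rw [← hbd y hy]; exact Hq0 y
    · exact (Hp0 y hy).trans (mul_le_mul_of_nonneg_right (le_abs_self _) hX)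
    · rw [← hbd y hy]; exact He0 y
  · rw [d1]
    refine B2_sq k1 (by nlinarith [sq_nonneg K0, sq_nonneg K2]) ?_
    refine B2_bd hX ?_ ?_ ?_ hb ha hp1 he1
    · rw [← hbd y hy]; exact Hq1 y
    · rw [← hbd y hy]; exact Hp1 y
    · rw [← hbd y hy]; exact He1 y
  · rw [d2]
    refine B2_sq k2 (by nlinarith [sq_nonneg K0, sq_nonneg K1]) ?_
    refine B2_bd hX ?_ ?_ ?_ hb ha hp2 he2
    · rw [← hbd y hy]; exact Hq2 y
    · rw [← hbd y hy]; exact Hp2 y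
    · rw [← hbd y hy]; exact He2 y

end H37KC
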