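import Pool.Agent.H37.KC.Base

/-!
# Row T1 of MP_95be7d_K4B (40 lines)

Elementary exponential bounds.  `T1_exp`: `x = 1/(8r²)`, `x^24/24! ≤ exp x` (`Real.pow_div_factorial_le_exp`), so
`exp(-x) ≤ 24! / x^24 = 24! 8^24 r^48`.   `T1_exp2`: `exp(-(3/2)(1/r²)) ≤ exp(-(1/(8r²))) ≤ C r^48 ≤ C r^16` for `r ≤ 1`.
`T1_sech`: `1/cosh x ≤ 2 exp(-|x|)` (`Tan_sech_le`); for `ξ ≥ 1`: `(ξ+2) * 2 exp(-|ξ-2|) ≤ 200 exp(-ξ/2)`:
use `|ξ-2| ≥ ξ-2`, so it is `≤ 2 e² (ξ+2) e^{-ξ}` and `(ξ+2) e^{-ξ/2} ≤ 5` etc.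
-/

open MeasureTheory Filter Topology Set
open scoped ContDiff

namespace H37KC

open H98KB H68KC

theorem T1_exp : ∃ C : ℝ, 0 < C ∧ ∀ r : ℝ, 0 < r → Real.exp (-(1 / (8 * r ^ 2))) ≤ C * r ^ 48 := by
  refine ⟨(Nat.factorial 24 : ℝ) * 8 ^ 24, by positivity, fun r hr => ?_⟩
  have hx : (0 : ℝ) ≤ 1 / (8 * r ^ 2) := by positivity
  have h := Real.pow_div_factorial_le_exp _ hx 24
  rw [Real.exp_neg, inv_le_comm₀ (Real.exp_pos _) (by positivity)]
  refine le_trans (le_of_eq ?_) h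
  have hf : (Nat.factorial 24 : ℝ) ≠ 0 := by positivity
  rw [div_pow, one_pow, mul_pow, mul_inv, mul_inv, div_eq_mul_inv, div_eq_mul_inv, mul_inv, ← pow_mul]
  ring

theorem T1_exp2 : ∃ C : ℝ, 0 < C ∧ ∀ r : ℝ, 0 < r → r ≤ 1 →
    Real.exp (-(3 / 2) * (1 / r ^ 2)) ≤ C * r ^ 16 := by
  obtain ⟨C, hC, h⟩ := T1_exp
  refine ⟨C, hC, fun r hr hr1 => ?_⟩
  have h1 : Real.exp (-(3 / 2) * (1 / r ^ 2)) ≤ Real.exp (-(1 / (8 * r ^ 2))) := by
    apply Real.exp_le_exp.mpr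
    have h2 : 1 / (8 * r ^ 2) = (1 / 8) * (1 / r ^ 2) := by
      field_simp
    have h3 : 0 ≤ 1 / r ^ 2 := by positivity
    rw [h2]
    nlinarith
  refine h1.trans ((h r hr).trans ?_)
  apply mul_le_mul_of_nonneg_left _ hC.le
  exact pow_le_pow_of_le_one hr.le hr1 (by norm_num)

theorem T1_sech {x : ℝ} (hx : 1 ≤ x) : 1 / Real.cosh (x - 2) * (x + 2) ≤ 200 * Real.exp (-(x / 2)) := by
  have h1 := Tan_sech_le (x - 2)
  have h2 : Real.exp (-|x - 2|) ≤ Real.exp (-(x - 2)) :=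
    Real.exp_le_exp.mpr (neg_le_neg (le_abs_self _))
  have h3 : Real.exp (-(x - 2)) = Real.exp 2 * Real.exp (-(x / 2)) * Real.exp (-(x / 2)) := by
    rw [← Real.exp_add, ← Real.exp_add]
    congr 1
    ring
  have h4 : (x / 2 + 1) * Real.exp (-(x / 2)) ≤ 1 := by
    have h5 := Real.add_one_le_exp (x / 2)
    calc (x / 2 + 1) * Real.exp (-(x / 2)) ≤ Real.exp (x / 2) * Real.exp (-(x / 2)) :=
          mul_le_mul_of_nonneg_right h5 (Real.exp_pos _).le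
      _ = 1 := by rw [← Real.exp_add]; simp
  have h6 : Real.exp 2 ≤ 9 := by
    have h7 : Real.exp 1 ≤ 3 := by
      have := Real.exp_one_lt_d9
      linarith
    have h8 : Real.exp 2 = Real.exp 1 * Real.exp 1 := by
      rw [← Real.exp_add]
      norm_num
    rw [h8]
    nlinarith [Real.exp_pos 1]
  have h9 : 0 < Real.exp (-(x / 2)) := Real.exp_pos _
  calc 1 / Real.cosh (x - 2) * (x + 2) ≤ (2 * Real.exp (-(x - 2))) * (x + 2) :=
        mul_le_mul_of_nonneg_right (h1.trans (by linarith)) (by linarith)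
    _ = 4 * Real.exp 2 * ((x / 2 + 1) * Real.exp (-(x / 2))) * Real.exp (-(x / 2)) := by
        rw [h3]
        ring
    _ ≤ 4 * 9 * 1 * Real.exp (-(x / 2)) := by
        apply mul_le_mul_of_nonneg_right _ h9.le
        have h10 : 0 ≤ (x / 2 + 1) * Real.exp (-(x / 2)) := by
          apply mul_nonneg _ h9.le
          linarith
        have h11 : 4 * Real.exp 2 * ((x / 2 + 1) * Real.exp (-(x / 2)))
            ≤ 4 * 9 * ((x / 2 + 1) * Real.exp (-(x / 2))) :=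
          mul_le_mul_of_nonneg_right (by linarith) h10
        linarith
    _ ≤ 200 * Real.exp (-(x / 2)) := by nlinarith

end H37KC
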