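import Pool.Agent.H37.KC.B1
import Pool.Agent.H37.KC.B2
import Pool.Agent.H37.KC.T1

/-!
# Row BA of MP_95be7d_K4B (110 lines)

Assembly of `GoodB.BA`.  `s = r²`, `Y = 1/s`, `N = Nn s W`.  On `y ≥ Y`, with `B1`, `B2` (constant `C0`) and `sech ≤ 1`,
`sech(sy-2) (ε² + ε'² + ε''²) ≤ 4 N sech(sy-2) (y + 2/s) + 2 W'² + 2 W''² + 3 C0 e^{-3y/2}`, and
`sech(sy-2)(y + 2/s) = (1/s) sech(sy-2)(sy+2) ≤ (200/s) e^{-sy/2}` (`T1_sech`, `sy ≥ 1`).  Integrate over `Ici Y`:
`∫_{Ici Y} e^{-sy/2} ≤ 2/s` , `∫_{Ici Y} W'² ≤ 2N`, `∫_{Ici Y} W''² ≤ 2 ∫ Φ W''²` (`F2_tail`), `∫_{Ici Y} e^{-3y/2} ≤ e^{-(3/2) Y}`.  Multiply by `s`: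
`Bad ≤ s (4N * 200/s * 2/s + 4N + 4 ∫ΦW''² + 3 C0 e^{-(3/2)/s}) ≤ C (s ∫ΦW''² + N/s + r^16)` using `s ≤ 1` and `T1_exp2`.
Integrability on `Ici Y`: continuous and dominated by the integrable right side (`ep_Cl` for continuity), or `integral_mono_of_nonneg`.
-/

open MeasureTheory Filter Topology Set
open scoped ContDiff

namespace H37KC

open H98KB H68KC

theorem BAt_exp {a : ℝ} (ha : a < 0) (c : ℝ) :
    IntegrableOn (fun x => Real.exp (a * x)) (Ici c) ∧
      ∫ x in Ici c, Real.exp (a * x) = -Real.exp (a * c) / a := by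
  refine ⟨?_, ?_⟩
  · rw [integrableOn_Ici_iff_integrableOn_Ioi]
    exact integrableOn_exp_mul_Ioi ha c
  · rw [integral_Ici_eq_integral_Ioi]
    exact integral_exp_mul_Ioi ha c

theorem BAt_sq {p q : ℝ} {f : ℝ → ℝ} (hp : 0 < p) (hq : 0 < q) (hf : Cl p q f) :
    Integrable (fun y => (f y) ^ 2) := by
  have h := Cl_int (Cl_mul hf hf) (add_pos hp hp) (add_pos hq hq)
  refine h.congr (Eventually.of_forall fun y => ?_)
  simp only
  ring

theorem BAt_add4 {μ : Measure ℝ} {f g h k : ℝ → ℝ} (hf : Integrable f μ) (hg : Integrable g μ)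
    (hh : Integrable h μ) (hk : Integrable k μ) :
    ∫ y, (f y + g y + h y + k y) ∂μ = (∫ y, f y ∂μ) + (∫ y, g y ∂μ) + (∫ y, h y ∂μ) + ∫ y, k y ∂μ := by
  have h1 : Integrable (fun y => f y + g y) μ := hf.add hg
  have h2 : Integrable (fun y => f y + g y + h y) μ := h1.add hh
  rw [integral_add h2 hk, integral_add h1 hh, integral_add hf hg]

theorem BAt {P E : ℝ → ℝ} (hpr : Prof P E) {γ B c : ℝ} :
    ∃ C r1 : ℝ, 0 < C ∧ 0 < r1 ∧ ∀ Ca r w m W et, r ≤ r1 →
    Sit P E γ B c Ca r w m W et →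
    Bad (r ^ 2) (ep P E (r ^ 2) W) ≤
      C * (r ^ 2 * (∫ y, Ph (r ^ 2) y * (deriv (deriv W) y) ^ 2) + Nn (r ^ 2) W / r ^ 2 + r ^ 16) := by
  obtain ⟨C0, hC0, h2⟩ := B2 (γ := γ) (B := B) (c := c) hpr
  obtain ⟨C2, hC2, h3⟩ := T1_exp2
  refine ⟨1604 + 2 * C0 * C2, 1, by positivity, one_pos, ?_⟩
  intro Ca r w m W et hr S
  have hr0 := S.r0
  obtain ⟨p, q, hp, hp2, hq, hq2, hcl, _⟩ := S.cl
  have hW : Cl p q W := Cl_W hp2 hq2 hcl
  have hb2 := h2 Ca r w m W et hr S
  have hex := h3 r hr0 hr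
  set s : ℝ := r ^ 2 with hs
  have hs0 : 0 < s := by positivity
  have hs1 : s ≤ 1 := by
    rw [hs]; nlinarith
  have hN : 0 ≤ Nn s W := F2_nonneg s W
  set N := Nn s W with hNd
  have hY : 1 / (2 * s) ≤ 1 / s := by
    apply one_div_le_one_div_of_le hs0
    linarith
  have hD1 : Cl p q (deriv W) := Cl_der hW
  have hD2 : Cl p q (deriv (deriv W)) := Cl_der hD1
  have hT1 : ∫ y in Ici (1 / s), (deriv W y) ^ 2 ≤ 2 * N := F2_tail hp hq hD1 hY
  have hT2 : ∫ y in Ici (1 / s), (deriv (deriv W) y) ^ 2 ≤ 2 * ∫ y, Ph s y * (deriv (deriv W) y) ^ 2 :=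
    F2_tail hp hq hD2 hY
  set K := ∫ y, Ph s y * (deriv (deriv W) y) ^ 2 with hK
  have hI1 : IntegrableOn (fun y => (deriv W y) ^ 2) (Ici (1 / s)) := (BAt_sq hp hq hD1).integrableOn
  have hI2 : IntegrableOn (fun y => (deriv (deriv W) y) ^ 2) (Ici (1 / s)) := (BAt_sq hp hq hD2).integrableOn
  have hE1 := BAt_exp (a := -(s / 2)) (by linarith) (1 / s)
  have hE2 := BAt_exp (a := -(3 / 2)) (by norm_num) (1 / s)
  have hmain : ∫ y in Ici (1 / s), 1 / Real.cosh (s * y - 2) *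
      ((ep P E s W y) ^ 2 + (deriv (ep P E s W) y) ^ 2 + (deriv (deriv (ep P E s W)) y) ^ 2) ≤
      ∫ y in Ici (1 / s), (800 * N / s * Real.exp (-(s / 2) * y) + 2 * (deriv W y) ^ 2
        + 2 * (deriv (deriv W) y) ^ 2 + 3 * C0 * Real.exp (-(3 / 2) * y)) := by
    refine integral_mono_of_nonneg (Eventually.of_forall fun y => ?_) ?_
      (ae_restrict_of_forall_mem measurableSet_Ici fun y hy => ?_)
    · have := Real.cosh_pos (s * y - 2)
      simp only [Pi.zero_apply]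
      positivity
    · exact (((hE1.1.const_mul _).add (hI1.const_mul 2)).add (hI2.const_mul 2)).add (hE2.1.const_mul _)
    · have hy1 : 1 / s ≤ y := hy
      have hsy : 1 ≤ s * y := by
        rw [div_le_iff₀ hs0] at hy1
        linarith
      have hy0 : 0 ≤ y := le_trans (by positivity) hy1
      obtain ⟨a1, a2, a3⟩ := hb2 y hy0
      have b1 := B1 hp hq hs0 hW hy1
      have t1 := T1_sech hsy
      have hc0 : 0 < 1 / Real.cosh (s * y - 2) := by
        have := Real.cosh_pos (s * y - 2)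
        positivity
      have hc1 : 1 / Real.cosh (s * y - 2) ≤ 1 := by
        rw [div_le_one (Real.cosh_pos _)]
        exact Real.one_le_cosh _
      set h := 1 / Real.cosh (s * y - 2) with hh
      have e1 : h * (y + 2 / s) = (1 / s) * (h * (s * y + 2)) := by
        field_simp
      have e2 : h * (y + 2 / s) ≤ (1 / s) * (200 * Real.exp (-(s / 2) * y)) := by
        rw [e1]
        apply mul_le_mul_of_nonneg_left _ (by positivity)
        have : -(s / 2) * y = -(s * y / 2) := by ring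
        rw [this]
        exact t1
      have e3 : h * (2 * (W y - alf s W) ^ 2) ≤ 800 * N / s * Real.exp (-(s / 2) * y) := by
        calc h * (2 * (W y - alf s W) ^ 2) ≤ h * (2 * ((y + 2 / s) * (2 * N))) := by
              apply mul_le_mul_of_nonneg_left _ hc0.le
              linarith
          _ = (4 * N) * (h * (y + 2 / s)) := by ring
          _ ≤ (4 * N) * ((1 / s) * (200 * Real.exp (-(s / 2) * y))) :=
              mul_le_mul_of_nonneg_left e2 (by positivity)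
          _ = 800 * N / s * Real.exp (-(s / 2) * y) := by ring
      have hexp : 0 < Real.exp (-(3 / 2) * y) := Real.exp_pos _
      have e4 : h * ((ep P E s W y) ^ 2 + (deriv (ep P E s W) y) ^ 2 + (deriv (deriv (ep P E s W)) y) ^ 2)
          ≤ h * (2 * (W y - alf s W) ^ 2 + (2 * (deriv W y) ^ 2 + 2 * (deriv (deriv W) y) ^ 2
            + 3 * C0 * Real.exp (-(3 / 2) * y))) := by
        apply mul_le_mul_of_nonneg_left _ hc0.le
        linarith
      have e5 : h * (2 * (deriv W y) ^ 2 + 2 * (deriv (deriv W) y) ^ 2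
            + 3 * C0 * Real.exp (-(3 / 2) * y)) ≤ 1 * (2 * (deriv W y) ^ 2 + 2 * (deriv (deriv W) y) ^ 2
            + 3 * C0 * Real.exp (-(3 / 2) * y)) :=
        mul_le_mul_of_nonneg_right hc1 (by positivity)
      rw [mul_add] at e4
      linarith
  have hsplit : ∫ y in Ici (1 / s), (800 * N / s * Real.exp (-(s / 2) * y) + 2 * (deriv W y) ^ 2
        + 2 * (deriv (deriv W) y) ^ 2 + 3 * C0 * Real.exp (-(3 / 2) * y)) =
      800 * N / s * (-Real.exp (-(s / 2) * (1 / s)) / -(s / 2)) + 2 * (∫ y in Ici (1 / s), (deriv W y) ^ 2)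
        + 2 * (∫ y in Ici (1 / s), (deriv (deriv W) y) ^ 2)
        + 3 * C0 * (-Real.exp (-(3 / 2) * (1 / s)) / -(3 / 2)) := by
    rw [BAt_add4 (f := fun y => 800 * N / s * Real.exp (-(s / 2) * y)) (g := fun y => 2 * (deriv W y) ^ 2)
      (h := fun y => 2 * (deriv (deriv W) y) ^ 2) (k := fun y => 3 * C0 * Real.exp (-(3 / 2) * y))
      (hE1.1.const_mul _) (hI1.const_mul 2) (hI2.const_mul 2) (hE2.1.const_mul _),
      integral_const_mul, integral_const_mul,
      integral_const_mul, integral_const_mul, hE1.2, hE2.2]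
  have hBad : Bad s (ep P E s W) ≤ s * (800 * N / s * (-Real.exp (-(s / 2) * (1 / s)) / -(s / 2))
        + 2 * (∫ y in Ici (1 / s), (deriv W y) ^ 2)
        + 2 * (∫ y in Ici (1 / s), (deriv (deriv W) y) ^ 2)
        + 3 * C0 * (-Real.exp (-(3 / 2) * (1 / s)) / -(3 / 2))) := by
    unfold Bad
    rw [← hsplit]
    exact mul_le_mul_of_nonneg_left hmain hs0.le
  have hx1 : Real.exp (-(s / 2) * (1 / s)) ≤ 1 := by
    rw [Real.exp_le_one_iff]
    have : 0 < (s / 2) * (1 / s) := by positivity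
    linarith
  have hx2 : 800 * N / s * (-Real.exp (-(s / 2) * (1 / s)) / -(s / 2)) ≤ 1600 * N / s ^ 2 := by
    have e : 800 * N / s * (-Real.exp (-(s / 2) * (1 / s)) / -(s / 2))
        = 1600 * N / s ^ 2 * Real.exp (-(s / 2) * (1 / s)) := by
      rw [neg_div_neg_eq]
      field_simp
      ring
    rw [e]
    have : 0 ≤ 1600 * N / s ^ 2 := by positivity
    nlinarith
  have hx3 : 3 * C0 * (-Real.exp (-(3 / 2) * (1 / s)) / -(3 / 2)) ≤ 2 * C0 * (C2 * r ^ 16) := by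
    have e : 3 * C0 * (-Real.exp (-(3 / 2) * (1 / s)) / -(3 / 2)) = 2 * C0 * Real.exp (-(3 / 2) * (1 / s)) := by
      rw [neg_div_neg_eq]
      ring
    rw [e]
    exact mul_le_mul_of_nonneg_left hex (by positivity)
  have hK0 : 0 ≤ K := by
    rw [hK]
    apply integral_nonneg
    intro y
    have := P1_pos s y
    simp only [Pi.zero_apply]
    positivity
  have hfin : Bad s (ep P E s W) ≤ s * (1600 * N / s ^ 2 + 2 * (2 * N) + 2 * (2 * K) + 2 * C0 * (C2 * r ^ 16)) := by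
    refine hBad.trans (mul_le_mul_of_nonneg_left ?_ hs0.le)
    linarith
  have hNs : N ≤ N / s ^ 2 := by
    rw [le_div_iff₀ (by positivity)]
    have : s ^ 2 ≤ 1 := by nlinarith
    nlinarith
  have hr16 : 0 ≤ r ^ 16 := by positivity
  have y1 : s * (1600 * N / s ^ 2) = 1600 * (N / s) := by
    field_simp
  have y2 : s * (2 * (2 * N)) ≤ 4 * (N / s) := by
    have h1 : s * N ≤ N / s := by
      rw [le_div_iff₀ hs0]
      have : s * s ≤ 1 := by nlinarith
      nlinarith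
    linarith
  have y3 : s * (2 * C0 * (C2 * r ^ 16)) ≤ 2 * C0 * C2 * r ^ 16 := by
    have : 0 ≤ 2 * C0 * C2 * r ^ 16 := by positivity
    nlinarith
  have hCC : 0 ≤ 2 * C0 * C2 := by positivity
  have hsK : 0 ≤ s * K := by positivity
  have hNs0 : 0 ≤ N / s := by positivity
  have z : s * (1600 * N / s ^ 2 + 2 * (2 * N) + 2 * (2 * K) + 2 * C0 * (C2 * r ^ 16)) =
      s * (1600 * N / s ^ 2) + s * (2 * (2 * N)) + 4 * (s * K) + s * (2 * C0 * (C2 * r ^ 16)) := by ring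
  rw [z] at hfin
  have w1 : 0 ≤ 2 * C0 * C2 * (s * K) := mul_nonneg hCC hsK
  have w2 : 0 ≤ 2 * C0 * C2 * (N / s) := mul_nonneg hCC hNs0
  nlinarith

end H37KC
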