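import Pool.Agent.H37.KC.E1
import Pool.Agent.H37.KC.F1

/-!
# Row EN of MP_95be7d_K4B (70 lines)

`ze = Zz` (`ze_eq`, `Cl_W`), `l = r⁸ ≤ 1`, `E1`.  Bounds: `|W| ≤ 3` (`F1_W3`) so `l ∫ W⁴W'² ≤ 81 l C1` (`F1_int`);
`∫ W'' et' ≤ (l/2) ∫ W''² + (1/(2l)) ∫ et'²`;  `|∫ W⁴ W' et| ≤ (81/2)(l ∫ W'² + (1/l) ∫ et²)`;  `∫ et² + ∫ et'² = ne2 et`.
-/

open MeasureTheory Filter Topology Set
open scoped ContDiff

namespace H37KC

open H98KB H68KC

theorem EN_a1 {l : ℝ} (hl : 0 < l) (a b : ℝ) : a * b ≤ l * a ^ 2 + 1 / (4 * l) * b ^ 2 := by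
  have h : l * a ^ 2 + 1 / (4 * l) * b ^ 2 - a * b = l * (a - 1 / (2 * l) * b) ^ 2 := by
    field_simp
    ring
  have h0 : 0 ≤ l * (a - 1 / (2 * l) * b) ^ 2 := by positivity
  linarith

theorem EN_a2 {l : ℝ} (hl : 0 < l) (a b u : ℝ) (hu0 : 0 ≤ u) (hu : u ≤ 81) :
    -(u * (a * b)) ≤ 81 / 2 * l * a ^ 2 + 81 / 2 / l * b ^ 2 := by
  have h : 81 / 2 * l * a ^ 2 + 81 / 2 / l * b ^ 2 + u * (a * b) =
      (81 - u) * (1 / 2 * l * a ^ 2 + 1 / 2 / l * b ^ 2) + u * (1 / 2 * l * (a + 1 / l * b) ^ 2) := by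
    field_simp
    ring
  have h0 : 0 ≤ (81 - u) * (1 / 2 * l * a ^ 2 + 1 / 2 / l * b ^ 2) :=
    mul_nonneg (by linarith) (by positivity)
  have h2 : 0 ≤ u * (1 / 2 * l * (a + 1 / l * b) ^ 2) := by positivity
  linarith

theorem ENt : ∃ C : ℝ, 0 < C ∧ ∀ (P E : ℝ → ℝ) (γ B c Ca r w m : ℝ) (W et : ℝ → ℝ), c ≤ 1 / 10 → r ≤ 1 →
    Sit P E γ B c Ca r w m W et →
    DEW W (ze w m (r ^ 8) W et) ≤ -2 * w * EW W + C * r ^ 8 + C / r ^ 8 * ne2 et := by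
  obtain ⟨C1, hC1, hint⟩ := F1_int
  refine ⟨122 * C1, by linarith, ?_⟩
  intro P E γ B c Ca r w m W et hc hr1 hS
  obtain ⟨p, q, hp, hp', hq, hq', hcl, he⟩ := hS.cl
  have hW : Cl p q W := Cl_W hp' hq' hcl
  have hW1 : Cl p q (deriv W) := Cl_der hW
  have hW2 : Cl p q (deriv (deriv W)) := Cl_der hW1
  have he1 : Cl p q (deriv et) := Cl_der he
  obtain ⟨hI1, -⟩ := hint p q W hp hp' hq hq' hcl hS.X1 hS.L1
  have hW3 : ∀ y, |W y| ≤ 3 := fun y => F1_W3 hc hS.sup y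
  have hW4 : ∀ y, (W y) ^ 4 ≤ 81 := by
    intro y
    have h1 : (W y) ^ 4 = |W y| ^ 4 := by
      rw [← abs_pow, abs_of_nonneg (by positivity)]
    rw [h1]
    calc |W y| ^ 4 ≤ 3 ^ 4 := pow_le_pow_left₀ (abs_nonneg _) (hW3 y) 4
      _ = 81 := by norm_num
  have hl : 0 < r ^ 8 := pow_pos hS.r0 8
  have hA : Integrable (fun y => (deriv W y) ^ 2) := Cl_int (Cl_pow' hW1 hp.le hq.le 2 (by norm_num)) hp hq
  have hB : Integrable (fun y => (deriv (deriv W) y) ^ 2) :=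
    Cl_int (Cl_pow' hW2 hp.le hq.le 2 (by norm_num)) hp hq
  have hE : Integrable (fun y => (et y) ^ 2) := Cl_int (Cl_pow' he hp.le hq.le 2 (by norm_num)) hp hq
  have hE1 : Integrable (fun y => (deriv et y) ^ 2) := Cl_int (Cl_pow' he1 hp.le hq.le 2 (by norm_num)) hp hq
  have hD : Integrable (fun y => (W y) ^ 4 * (deriv W y) ^ 2) :=
    Cl_int (Cl_mul (Cl_pow' hW hp.le hq.le 4 (by norm_num)) (Cl_pow' hW1 hp.le hq.le 2 (by norm_num)))
      (by linarith) (by linarith)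
  have hF : Integrable (fun y => deriv (deriv W) y * deriv et y) :=
    Cl_int (Cl_mul hW2 he1) (by linarith) (by linarith)
  have hG : Integrable (fun y => (W y) ^ 4 * (deriv W y * et y)) :=
    Cl_int (Cl_mul (Cl_pow' hW hp.le hq.le 4 (by norm_num)) (Cl_mul hW1 he))
      (by linarith) (by linarith)
  have k1 : (∫ y, (W y) ^ 4 * (deriv W y) ^ 2) ≤ 81 * ∫ y, (deriv W y) ^ 2 := by
    rw [← integral_const_mul]
    refine integral_mono hD (hA.const_mul 81) ?_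
    intro y
    exact mul_le_mul_of_nonneg_right (hW4 y) (sq_nonneg _)
  have k2 : (∫ y, deriv (deriv W) y * deriv et y) ≤
      r ^ 8 * (∫ y, (deriv (deriv W) y) ^ 2) + 1 / (4 * r ^ 8) * ∫ y, (deriv et y) ^ 2 := by
    rw [← integral_const_mul, ← integral_const_mul, ← integral_add (hB.const_mul _) (hE1.const_mul _)]
    refine integral_mono hF ((hB.const_mul _).add (hE1.const_mul _)) ?_
    intro y
    exact EN_a1 hl (deriv (deriv W) y) (deriv et y)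
  have k3 : -(∫ y, (W y) ^ 4 * (deriv W y * et y)) ≤
      81 / 2 * r ^ 8 * (∫ y, (deriv W y) ^ 2) + 81 / 2 / r ^ 8 * ∫ y, (et y) ^ 2 := by
    rw [← integral_const_mul, ← integral_const_mul, ← integral_add (hA.const_mul _) (hE.const_mul _),
      ← integral_neg]
    refine integral_mono hG.neg ((hA.const_mul _).add (hE.const_mul _)) ?_
    intro y
    exact EN_a2 hl (deriv W y) (et y) ((W y) ^ 4) (by positivity) (hW4 y)
  have k4 : ne2 et = (∫ y, (et y) ^ 2) + ∫ y, (deriv et y) ^ 2 := by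
    unfold ne2
    exact integral_add hE hE1
  have hE0 : 0 ≤ ∫ y, (et y) ^ 2 := integral_nonneg fun y => sq_nonneg _
  have hE10 : 0 ≤ ∫ y, (deriv et y) ^ 2 := integral_nonneg fun y => sq_nonneg _
  have hl' : 0 < 1 / r ^ 8 := by positivity
  rw [ze_eq hW, E1 hp hq hW he, k4]
  have m1 : r ^ 8 * (∫ y, (W y) ^ 4 * (deriv W y) ^ 2) ≤ r ^ 8 * (81 * C1) :=
    mul_le_mul_of_nonneg_left (k1.trans (by linarith)) hl.le
  have m2 : 81 / 2 * r ^ 8 * (∫ y, (deriv W y) ^ 2) ≤ 81 / 2 * r ^ 8 * C1 :=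
    mul_le_mul_of_nonneg_left hI1 (by positivity)
  have m3 : 81 / 2 / r ^ 8 * (∫ y, (et y) ^ 2) ≤ 122 * C1 / r ^ 8 * ∫ y, (et y) ^ 2 := by
    refine mul_le_mul_of_nonneg_right ?_ hE0
    rw [div_le_div_iff_of_pos_right hl]
    linarith
  have m4 : 1 / (4 * r ^ 8) * (∫ y, (deriv et y) ^ 2) ≤ 122 * C1 / r ^ 8 * ∫ y, (deriv et y) ^ 2 := by
    refine mul_le_mul_of_nonneg_right ?_ hE10
    have h : 1 / (4 * r ^ 8) = 1 / 4 / r ^ 8 := by field_simp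
    rw [h, div_le_div_iff_of_pos_right hl]
    linarith
  have m5 : 0 ≤ r ^ 8 * C1 := by positivity
  have m6 : 122 * C1 / r ^ 8 * ((∫ y, (et y) ^ 2) + ∫ y, (deriv et y) ^ 2) =
      122 * C1 / r ^ 8 * (∫ y, (et y) ^ 2) + 122 * C1 / r ^ 8 * ∫ y, (deriv et y) ^ 2 := by ring
  rw [m6]
  nlinarith [k2, k3, m1, m2, m3, m4, m5]

end H37KC
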