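import Pool.Agent.H37.KC.F1

/-!
# Row X2 of MP_95be7d_K4B (60 lines)

`bF 4 e y = (1/2) Q⁴e² + (2/3) Q³e³ + (1/2) Q²e⁴ + (1/5) Q e⁵ + e⁶/30` (unfold `bF, Fl, fl`, `ring`); `0 < Q ≤ 2`, `|e| ≤ 1/10`:
`|bF - e⁶/30| ≤ Q e² (4 + 8/30 + 1/100 + 1/5000) ≤ 5 Q e²`.
`X2_6`: `e(y)² ≤ 2 √(∫e²) √(∫e'²)` (`sup_le`), so `e⁴ ≤ 4 (∫ e²)(∫ e'²) ≤ 4 Xn e` and `∫ e⁶ ≤ 4 Xn e ∫ e² ≤ 4 Xn e`.
`X2_bF`: integrate.
-/

open MeasureTheory Filter Topology Set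
open scoped ContDiff

namespace H37KC

open H98KB H68KC

theorem X2_pt {e : ℝ → ℝ} {y : ℝ} (h : |e y| ≤ 1 / 10) :
    |bF 4 e y - (e y) ^ 6 / 30| ≤ 5 * (Qf 4 y * (e y) ^ 2) := by
  have hQ0 : 0 < Qf 4 y := Qf_pos 4 y
  have hQ2 : Qf 4 y ≤ 2 := F1_Q2 y
  set Q := Qf 4 y with hQ
  set x := e y with hx
  have e1 : bF 4 e y - x ^ 6 / 30 =
      Q * x ^ 2 * (Q ^ 3 / 2 + 2 / 3 * Q ^ 2 * x + 1 / 2 * Q * x ^ 2 + x ^ 3 / 5) := by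
    simp only [bF, Fl, fl, ← hQ, ← hx]
    push_cast
    ring
  have hx2 := abs_le.mp h
  have hxx : x ^ 2 ≤ 1 / 100 := by nlinarith
  have hx3 : |x ^ 3| ≤ 1 / 1000 := by
    rw [abs_pow]
    calc |x| ^ 3 ≤ (1 / 10) ^ 3 := pow_le_pow_left₀ (abs_nonneg x) h 3
      _ = 1 / 1000 := by norm_num
  have hx3' := abs_le.mp hx3
  have hQ22 : Q ^ 2 ≤ 4 := by nlinarith
  have hQ3 : Q ^ 3 ≤ 8 := by
    have : Q ^ 3 = Q ^ 2 * Q := by ring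
    rw [this]
    nlinarith [sq_nonneg Q]
  have hb : |Q ^ 3 / 2 + 2 / 3 * Q ^ 2 * x + 1 / 2 * Q * x ^ 2 + x ^ 3 / 5| ≤ 5 := by
    have t1 : |Q ^ 2 * x| ≤ 4 / 10 := by
      rw [abs_mul, abs_of_nonneg (sq_nonneg Q)]
      calc Q ^ 2 * |x| ≤ 4 * (1 / 10) := mul_le_mul hQ22 h (abs_nonneg x) (by norm_num)
        _ = 4 / 10 := by norm_num
    have t1' := abs_le.mp t1
    have t2 : 0 ≤ Q * x ^ 2 := by positivity
    have t3 : Q * x ^ 2 ≤ 2 / 100 := by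
      calc Q * x ^ 2 ≤ 2 * (1 / 100) := mul_le_mul hQ2 hxx (sq_nonneg x) (by norm_num)
        _ = 2 / 100 := by norm_num
    have t4 : 0 < Q ^ 3 := by positivity
    rw [abs_le]
    constructor <;> linarith [t1'.1, t1'.2, hx3'.1, hx3'.2]
  rw [e1, abs_mul, abs_of_nonneg (by positivity : 0 ≤ Q * x ^ 2)]
  have hn : 0 ≤ Q * x ^ 2 := by positivity
  nlinarith [mul_le_mul_of_nonneg_left hb hn]

theorem X2_6 {p q : ℝ} {e : ℝ → ℝ} (hp : 0 < p) (hq : 0 < q) (he : Cl p q e)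
    (h1 : (∫ y, (e y) ^ 2) ≤ 1) : (∫ y, (e y) ^ 6) ≤ 4 * Xn e := by
  have hX0 : 0 ≤ Xn e := integral_nonneg fun y => sq_nonneg _
  have hM0 : 0 ≤ ∫ y, (e y) ^ 2 := integral_nonneg fun y => sq_nonneg _
  have hi2 : Integrable (fun y => e y ^ 2) :=
    Cl_int (Cl_pow' he hp.le hq.le 2 (by norm_num)) hp hq
  have hi6 : Integrable (fun y => e y ^ 6) :=
    Cl_int (Cl_pow' he hp.le hq.le 6 (by norm_num)) hp hq
  have h4 : ∀ y, (e y) ^ 4 ≤ 4 * Xn e := by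
    intro y
    have hs := sup_le he hp hq y
    have hs0 : 0 ≤ (e y) ^ 2 := sq_nonneg _
    have a1 : Real.sqrt (∫ y, (e y) ^ 2) ^ 2 = ∫ y, (e y) ^ 2 := Real.sq_sqrt hM0
    have a2 : Real.sqrt (∫ y, (deriv e y) ^ 2) ^ 2 = ∫ y, (deriv e y) ^ 2 := Real.sq_sqrt hX0
    have a3 : (e y) ^ 4 = ((e y) ^ 2) ^ 2 := by ring
    rw [a3]
    refine (pow_le_pow_left₀ hs0 hs 2).trans ?_
    have a4 : (2 * Real.sqrt (∫ y, (e y) ^ 2) * Real.sqrt (∫ y, (deriv e y) ^ 2)) ^ 2 =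
        4 * (∫ y, (e y) ^ 2) * Xn e := by
      rw [mul_pow, mul_pow, a1, a2]
      unfold Xn
      ring
    rw [a4]
    nlinarith
  calc (∫ y, (e y) ^ 6) ≤ ∫ y, (4 * Xn e) * (e y) ^ 2 := by
        apply integral_mono hi6 (hi2.const_mul _)
        intro y
        have : (e y) ^ 6 = (e y) ^ 4 * (e y) ^ 2 := by ring
        show (e y) ^ 6 ≤ (4 * Xn e) * (e y) ^ 2
        rw [this]
        exact mul_le_mul_of_nonneg_right (h4 y) (sq_nonneg _)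
    _ = (4 * Xn e) * ∫ y, (e y) ^ 2 := integral_const_mul _ _
    _ ≤ 4 * Xn e := by nlinarith

theorem X2_bF {p q : ℝ} {e : ℝ → ℝ} (hp : 0 < p) (hq : 0 < q) (he : Cl p q e)
    (hs : ∀ y, |e y| ≤ 1 / 10) (h1 : (∫ y, (e y) ^ 2) ≤ 1) :
    |∫ y, bF 4 e y| ≤ 5 * (∫ y, Qf 4 y * (e y) ^ 2) + 4 / 30 * Xn e := by
  have hi6 : Integrable (fun y => e y ^ 6) :=
    Cl_int (Cl_pow' he hp.le hq.le 6 (by norm_num)) hp hq
  have hQe : Integrable (fun y => Qf 4 y * e y ^ 2) :=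
    Cl_int (Cl_mul0 (Cl_mono (Cl_Qf (by norm_num)) (by norm_num) (by norm_num))
      (Cl_pow' he hp.le hq.le 2 (by norm_num))) hp hq
  have h6 := X2_6 hp hq he h1
  have hb : ∀ y, |bF 4 e y| ≤ 5 * (Qf 4 y * (e y) ^ 2) + (e y) ^ 6 / 30 := by
    intro y
    have h := X2_pt (hs y)
    have h0 : 0 ≤ (e y) ^ 6 / 30 := by positivity
    have h2 := abs_le.mp h
    rw [abs_le]
    constructor <;> linarith [h2.1, h2.2]
  have hg : Integrable (fun y => 5 * (Qf 4 y * (e y) ^ 2) + (e y) ^ 6 / 30) :=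
    (hQe.const_mul 5).add (hi6.div_const 30)
  calc |∫ y, bF 4 e y| ≤ ∫ y, (5 * (Qf 4 y * (e y) ^ 2) + (e y) ^ 6 / 30) := by
        rw [← Real.norm_eq_abs]
        exact norm_integral_le_of_norm_le hg (Eventually.of_forall fun y => by
          rw [Real.norm_eq_abs]; exact hb y)
    _ = 5 * (∫ y, Qf 4 y * (e y) ^ 2) + (∫ y, (e y) ^ 6) / 30 := by
        rw [integral_add (hQe.const_mul 5) (hi6.div_const 30), integral_const_mul, integral_div]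
    _ ≤ _ := by linarith

end H37KC
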