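import Pool.Agent.H37.KC.Base

/-!
# Row X3 of MP_95be7d_K4B (100 lines)

`e = W - Q = ε + h`, `h = b P + α E`, `|h| ≤ C r⁴` (`Sit.b1, a1`; `P`, `E` bounded: `Prof.cP`, `Prof.E1`).
* `X3_Qe`: `Q e² ≤ 2 Q ε² + 2 Q h²`; `Q ≤ C e^{-|y|} ≤ C e^{-|y|/2} ≤ C loc γ B y` (`Qf_hi`, `ex_le_loc`, needs `γ ≤ 1/8`), so
  `∫ Q ε² ≤ C ∫ loc ε² ≤ C ln γ B ε`;  `∫ Q h² ≤ C r⁸ ∫ Q`.  (`ε` is in `Cl 0 0` by `ep_Cl`, `loc` is `≤ ch B`, so `loc (ε²+ε'²)` is integrable.)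
* `X3_ip`: `bq s W = (ip e Q - α Iq/4) * 16/Iq²`, so `ip e Q = b Iq²/16 + α Iq/4` (`Iq > 0`), `|b| ≤ 5 c0 r⁴`, `|α| ≤ (|f0|+1) r⁴`.
-/

open MeasureTheory Filter Topology Set
open scoped ContDiff

namespace H37KC

open H98KB H68KC

theorem X3_I : 0 < Iq := by
  unfold Iq
  have hi : Integrable (Qf 4) := Cl_int (Cl_Qf (by norm_num)) one_pos one_pos
  rw [integral_pos_iff_support_of_nonneg (fun y => (Qf_pos 4 y).le) hi]
  have : Function.support (Qf 4) = univ := by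
    ext y
    simp [(Qf_pos 4 y).ne']
  rw [this]
  simp

theorem X3_ln {γ B : ℝ} (ε : ℝ → ℝ) : 0 ≤ ln γ B ε := by
  unfold ln
  exact integral_nonneg fun y => mul_nonneg (loc_pos γ B y).le (by positivity)

theorem X3_Qe {P E : ℝ → ℝ} (hpr : Prof P E) {γ B c : ℝ} (hγ : 0 < γ) (hγ' : γ ≤ 1 / 8) (hB : 16 ≤ B) :
    ∃ C : ℝ, 0 < C ∧ ∀ Ca r w m W et, r ≤ 1 → Sit P E γ B c Ca r w m W et →
    (∫ y, Qf 4 y * (W y - Qf 4 y) ^ 2) ≤ C * (r ^ 8 + ln γ B (ep P E (r ^ 2) W)) := by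
  obtain ⟨C1, hC1, hQ1⟩ := Qf_hi (k := 4) (by norm_num)
  obtain ⟨CP, hCP, hP⟩ := Cl_bnd hpr.cP
  obtain ⟨CE, hCE, hE⟩ := Cl_bnd hpr.E1
  have hB0 : 0 < B := by linarith
  have hI := X3_I
  have hQi : Integrable (Qf 4) := Cl_int (Cl_Qf (by norm_num)) one_pos one_pos
  have hP' : ∀ y, |P y| ≤ CP := fun y => by
    have := hP y
    rw [bd_zero, mul_one] at this
    exact this
  have hE' : ∀ y, |E y| ≤ CE + 1 := fun y => by
    have h1 := hE y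
    have h2 : bd (3 / 4) (3 / 4) y ≤ 1 := by
      rw [← bd_zero y]
      exact bd_mono (by norm_num) (by norm_num) y
    have h3 : CE * bd (3 / 4) (3 / 4) y ≤ CE * 1 := mul_le_mul_of_nonneg_left h2 hCE
    have h4 : |E y| ≤ |E y - 1| + |(1 : ℝ)| := by
      have := abs_add_le (E y - 1) 1
      rw [sub_add_cancel] at this
      exact this
    rw [abs_one] at h4
    linarith
  set K : ℝ := 5 * |c0| * CP + (|f0| + 1) * (CE + 1) with hK
  have hK0 : 0 ≤ K := by positivity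
  refine ⟨2 * C1 + 2 * K ^ 2 * Iq, by positivity, ?_⟩
  intro Ca r w m W et hr hS
  obtain ⟨p, q, hp, hp2, hq, hq2, hcl, -⟩ := hS.cl
  have hW : Cl p q W := Cl_W hp2 hq2 hcl
  have hep := ep_Cl (s := r ^ 2) hpr hp hq hW
  have hr0 := hS.r0
  have hr4 : 0 < r ^ 4 := by positivity
  -- the function h
  have hh : ∀ y, |hf P E (bq (r ^ 2) W) (alf (r ^ 2) W) y| ≤ K * r ^ 4 := fun y => by
    unfold hf
    have h1 : |bq (r ^ 2) W * P y| ≤ (5 * |c0| * r ^ 4) * CP := by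
      rw [abs_mul]
      refine mul_le_mul ?_ (hP' y) (abs_nonneg _) (by positivity)
      refine hS.b1.trans ?_
      have := le_abs_self c0
      have := mul_le_mul_of_nonneg_right this hr4.le
      linarith
    have h2 : |alf (r ^ 2) W * E y| ≤ ((|f0| + 1) * r ^ 4) * (CE + 1) := by
      rw [abs_mul]
      exact mul_le_mul hS.a1 (hE' y) (abs_nonneg _) (by positivity)
    have h3 := abs_add_le (bq (r ^ 2) W * P y) (alf (r ^ 2) W * E y)
    rw [hK]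
    linarith
  have hloc : Cl (2 * γ + 2 / B) (2 * γ + 2 / B) (loc γ B) := Cl_mul (Cl_se2 hγ) (Cl_ch hB0)
  have h2B : 0 < 2 / B := by positivity
  have hg1 : Integrable (fun y => loc γ B y * ((ep P E (r ^ 2) W y) ^ 2 + (deriv (ep P E (r ^ 2) W) y) ^ 2)) := by
    have h := Cl_mul hloc (Cl_add (Cl_pow0 hep 2) (Cl_pow0 (Cl_der hep) 2))
    exact Cl_int h (by linarith) (by linarith)
  have hmain : (∫ y, Qf 4 y * (W y - Qf 4 y) ^ 2) ≤
      ∫ y, (2 * C1 * (loc γ B y * ((ep P E (r ^ 2) W y) ^ 2 + (deriv (ep P E (r ^ 2) W) y) ^ 2)) +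
        2 * K ^ 2 * r ^ 8 * Qf 4 y) := by
    refine integral_mono_of_nonneg ?_ ((hg1.const_mul _).add (hQi.const_mul _)) ?_
    · exact ae_of_all _ fun y => mul_nonneg (Qf_pos 4 y).le (sq_nonneg _)
    · refine ae_of_all _ fun y => ?_
      show Qf 4 y * (W y - Qf 4 y) ^ 2 ≤ 2 * C1 * (loc γ B y * ((ep P E (r ^ 2) W y) ^ 2 +
        (deriv (ep P E (r ^ 2) W) y) ^ 2)) + 2 * K ^ 2 * r ^ 8 * Qf 4 y
      have e1 : W y - Qf 4 y = ep P E (r ^ 2) W y + hf P E (bq (r ^ 2) W) (alf (r ^ 2) W) y := by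
        unfold ep; ring
      have hQ0 := (Qf_pos 4 y).le
      have hQl : Qf 4 y ≤ C1 * loc γ B y := by
        have h1 : Real.exp (-|y|) ≤ Real.exp (-(|y| / 2)) := by
          rw [Real.exp_le_exp]
          have := abs_nonneg y
          linarith
        have h2 := h1.trans (ex_le_loc hγ hγ' hB y)
        exact (hQ1 y).trans (mul_le_mul_of_nonneg_left h2 hC1.le)
      have hh2 : (hf P E (bq (r ^ 2) W) (alf (r ^ 2) W) y) ^ 2 ≤ (K * r ^ 4) ^ 2 := by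
        rw [← sq_abs]
        exact pow_le_pow_left₀ (abs_nonneg _) (hh y) 2
      rw [e1]
      generalize ep P E (r ^ 2) W y = a at *
      generalize hf P E (bq (r ^ 2) W) (alf (r ^ 2) W) y = b at *
      generalize (deriv (ep P E (r ^ 2) W) y) = a' at *
      have k1 : (a + b) ^ 2 ≤ 2 * a ^ 2 + 2 * b ^ 2 := by nlinarith [sq_nonneg (a - b)]
      have k2 : Qf 4 y * (a + b) ^ 2 ≤ Qf 4 y * (2 * a ^ 2 + 2 * b ^ 2) := mul_le_mul_of_nonneg_left k1 hQ0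
      have k3 : Qf 4 y * a ^ 2 ≤ C1 * loc γ B y * a ^ 2 := mul_le_mul_of_nonneg_right hQl (sq_nonneg _)
      have k4 : Qf 4 y * b ^ 2 ≤ Qf 4 y * (K * r ^ 4) ^ 2 := mul_le_mul_of_nonneg_left hh2 hQ0
      have k5 : 0 ≤ C1 * loc γ B y * a' ^ 2 := by
        have := (loc_pos γ B y).le
        positivity
      have e2 : (K * r ^ 4) ^ 2 = K ^ 2 * r ^ 8 := by ring
      rw [e2] at k4
      nlinarith
  refine hmain.trans ?_
  rw [integral_add (hg1.const_mul _) (hQi.const_mul _), integral_const_mul, integral_const_mul]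
  have e3 : (∫ y, Qf 4 y) = Iq := rfl
  have e4 : (∫ y, loc γ B y * ((ep P E (r ^ 2) W y) ^ 2 + (deriv (ep P E (r ^ 2) W) y) ^ 2)) =
      ln γ B (ep P E (r ^ 2) W) := rfl
  rw [e3, e4]
  have hl := X3_ln (γ := γ) (B := B) (ep P E (r ^ 2) W)
  have hr8 : 0 < r ^ 8 := by positivity
  have m1 : 0 ≤ C1 * r ^ 8 := by positivity
  have m2 : 0 ≤ K ^ 2 * Iq * ln γ B (ep P E (r ^ 2) W) := by positivity
  nlinarith

theorem X3_ip {P E : ℝ → ℝ} {γ B c : ℝ} :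
    ∃ C : ℝ, 0 < C ∧ ∀ Ca r w m W et, r ≤ 1 → Sit P E γ B c Ca r w m W et →
    |ip (fun y => W y - Qf 4 y) (Qf 4)| ≤ C * r ^ 4 := by
  have hI := X3_I
  refine ⟨5 * |c0| * (Iq ^ 2 / 16) + (|f0| + 1) * (Iq / 4) + 1, by positivity, ?_⟩
  intro Ca r w m W et hr hS
  have hr0 := hS.r0
  have hr4 : 0 < r ^ 4 := by positivity
  have e1 : ip (fun y => W y - Qf 4 y) (Qf 4) = bq (r ^ 2) W * (Iq ^ 2 / 16) + alf (r ^ 2) W * (Iq / 4) := by
    unfold bq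
    field_simp
    ring
  rw [e1]
  have h1 : |bq (r ^ 2) W * (Iq ^ 2 / 16)| ≤ (5 * |c0| * r ^ 4) * (Iq ^ 2 / 16) := by
    rw [abs_mul, abs_of_pos (by positivity : 0 < Iq ^ 2 / 16)]
    refine mul_le_mul_of_nonneg_right ?_ (by positivity)
    refine hS.b1.trans ?_
    have := mul_le_mul_of_nonneg_right (le_abs_self c0) hr4.le
    linarith
  have h2 : |alf (r ^ 2) W * (Iq / 4)| ≤ ((|f0| + 1) * r ^ 4) * (Iq / 4) := by
    rw [abs_mul, abs_of_pos (by positivity : 0 < Iq / 4)]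
    exact mul_le_mul_of_nonneg_right hS.a1 (by positivity)
  have h3 := abs_add_le (bq (r ^ 2) W * (Iq ^ 2 / 16)) (alf (r ^ 2) W * (Iq / 4))
  nlinarith

end H37KC
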