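import Pool.Agent.H37.KC.X1
import Pool.Agent.H37.KC.X2
import Pool.Agent.H37.KC.X3

/-!
# Row XE of MP_95be7d_K4B (50 lines)

`EW = X/2 - (e,Q) - ∫ bF` (`X1_exp`), `|∫ bF| ≤ 5 ∫Qe² + (4/30) X` (`X2_bF`), `∫ Qe² ≤ C (r⁸ + ln) ≤ C (r⁴ + ln)`, `|(e,Q)| ≤ C r⁴`.  Hence
`EW ≥ (1/2 - 4/30) X - C (r⁴ + ln)`, `X ≥ 0`: so `-C(r⁴+ln) ≤ EW` and `4 EW ≥ (22/15) X - 4C(r⁴+ln) ≥ X - 4C(r⁴+ln)`.
-/

open MeasureTheory Filter Topology Set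
open scoped ContDiff

namespace H37KC

open H98KB H68KC

theorem XEt {P E : ℝ → ℝ} (hpr : Prof P E) {γ B c : ℝ} (hγ : 0 < γ) (hγ' : γ ≤ 1 / 8) (hB : 16 ≤ B)
    (hc1 : c ≤ 1 / 10) : ∃ C : ℝ, 0 < C ∧ ∀ Ca r w m W et, r ≤ 1 → Sit P E γ B c Ca r w m W et →
    Xn (fun y => W y - Qf 4 y) ≤ 4 * EW W + C * (r ^ 4 + ln γ B (ep P E (r ^ 2) W)) ∧
    -C * (r ^ 4 + ln γ B (ep P E (r ^ 2) W)) ≤ EW W := by
  obtain ⟨C1, hC1, h1⟩ := X3_Qe hpr (c := c) hγ hγ' hB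
  obtain ⟨C2, hC2, h2⟩ := X3_ip (P := P) (E := E) (γ := γ) (B := B) (c := c)
  refine ⟨4 * (5 * C1 + C2), by positivity, ?_⟩
  intro Ca r w m W et hr S
  obtain ⟨p, q, hp, hp', hq, hq', hcl, hce⟩ := S.cl
  have e1 := X1_exp hp hq hp' hq' hcl
  have e2 := X2_bF hp hq hcl (fun y => (S.sup y).trans hc1) S.L1
  have e3 := h1 Ca r w m W et hr S
  have e4 := h2 Ca r w m W et hr S
  have hX : 0 ≤ Xn (fun y => W y - Qf 4 y) := integral_nonneg fun y => sq_nonneg _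
  have hln := X3_ln (γ := γ) (B := B) (ep P E (r ^ 2) W)
  have hr8 : r ^ 8 ≤ r ^ 4 := pow_le_pow_of_le_one S.r0.le hr (by norm_num)
  have hr4 : 0 ≤ r ^ 4 := pow_nonneg S.r0.le 4
  have e5 : C1 * (r ^ 8 + ln γ B (ep P E (r ^ 2) W)) ≤ C1 * (r ^ 4 + ln γ B (ep P E (r ^ 2) W)) :=
    mul_le_mul_of_nonneg_left (by linarith) hC1.le
  have e6 : C2 * r ^ 4 ≤ C2 * (r ^ 4 + ln γ B (ep P E (r ^ 2) W)) :=
    mul_le_mul_of_nonneg_left (by linarith) hC2.le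
  have e7 : 0 ≤ C1 * (r ^ 4 + ln γ B (ep P E (r ^ 2) W)) := by positivity
  have e8 : 0 ≤ C2 * (r ^ 4 + ln γ B (ep P E (r ^ 2) W)) := by positivity
  rw [abs_le] at e2 e4
  obtain ⟨_, e2b⟩ := e2
  obtain ⟨_, e4b⟩ := e4
  generalize Xn (fun y => W y - Qf 4 y) = X at *
  generalize ln γ B (ep P E (r ^ 2) W) = L at *
  constructor
  · nlinarith
  · nlinarith

end H37KC
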