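import Pool.Agent.H37.KC.AH
import Pool.Agent.H37.KC.AL
import Pool.Agent.H37.KC.BA
import Pool.Agent.H37.KC.EN
import Pool.Agent.H37.KC.XE

/-!
# Block GoodB of MP_95be7d (k = 4)
-/

open MeasureTheory Filter Topology Set
open scoped ContDiff

namespace H37KC

open H98KB H68KC

theorem goodB {P E : ℝ → ℝ} (hpr : Prof P E) {γ B c : ℝ} (_hγ : 0 < γ) (_hB : 16 ≤ B) (_hc : 0 < c)
    (hc1 : c ≤ 1 / 10) : GoodB P E γ B c where
  AH := fun Ca => AHt hc1 Ca
  AL := ALt hc1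
  BA := BAt hpr

end H37KC
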