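import Pool.Agent.H37.KC.Q1
import Pool.Agent.H37.KC.F2

/-!
# Row B1 of MP_95be7d_K4B (60 lines)

`W y - alf s W = ∫_1^2 (W y - W(ξ/s)) pw ξ dξ` (`Q1_int`).  For `ξ ∈ [1,2]`: `ξ/s ≥ 1/s ≥ 1/(2s)`, `|y - ξ/s| ≤ y + 2/s`, so by `F2_dif`
`|W y - W(ξ/s)| ≤ R := √((y + 2/s) (2 N))`, hence `|W y - alf s W| ≤ R ∫ pw = R` (`pw ≥ 0`), and square.
-/

open MeasureTheory Filter Topology Set
open scoped ContDiff

namespace H37KC

open H98KB H68KC

theorem B1 {p q s y : ℝ} {W : ℝ → ℝ} (hp : 0 < p) (hq : 0 < q) (hs : 0 < s) (hW : Cl p q W)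
    (hy : 1 / s ≤ y) : (W y - alf s W) ^ 2 ≤ (y + 2 / s) * (2 * Nn s W) := by
  have hN := F2_nonneg s W
  have hs' : 0 < 1 / s := by positivity
  have hy0 : 0 < y := lt_of_lt_of_le hs' hy
  have hhalf : 1 / (2 * s) ≤ 1 / s := by
    apply one_div_le_one_div_of_le hs
    linarith
  set R : ℝ := Real.sqrt ((y + 2 / s) * (2 * Nn s W)) with hR
  have hRR : 0 ≤ (y + 2 / s) * (2 * Nn s W) := by positivity
  have hR0 : 0 ≤ R := Real.sqrt_nonneg _
  have hWc : Continuous W := hW.1.continuous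
  have hpc : Continuous pw := Q1_cont.1
  have hd : Continuous (fun ξ : ℝ => ξ / s) := continuous_id.div_const s
  have c1 : Continuous (fun ξ : ℝ => W (ξ / s) * pw ξ) := (hWc.comp hd).mul hpc
  have c2 : Continuous (fun ξ : ℝ => W y * pw ξ) := continuous_const.mul hpc
  have key : W y - alf s W = ∫ ξ in (1:ℝ)..2, (W y - W (ξ / s)) * pw ξ := by
    have e1 : W y = ∫ ξ in (1:ℝ)..2, W y * pw ξ := by
      rw [intervalIntegral.integral_const_mul, Q1_int, mul_one]
    have e2 : ∫ ξ in (1:ℝ)..2, (W y - W (ξ / s)) * pw ξ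
        = (∫ ξ in (1:ℝ)..2, W y * pw ξ) - ∫ ξ in (1:ℝ)..2, W (ξ / s) * pw ξ := by
      rw [← intervalIntegral.integral_sub (c2.intervalIntegrable _ _) (c1.intervalIntegrable _ _)]
      congr 1
      funext ξ
      ring
    rw [e2, ← e1]
    rfl
  have c3 : Continuous (fun ξ : ℝ => |(W y - W (ξ / s)) * pw ξ|) :=
    ((continuous_const.sub (hWc.comp hd)).mul hpc).abs
  have c4 : Continuous (fun ξ : ℝ => R * pw ξ) := continuous_const.mul hpc
  have hb : |W y - alf s W| ≤ R := by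
    rw [key]
    refine le_trans (intervalIntegral.abs_integral_le_integral_abs (by norm_num)) ?_
    have hmono : ∫ ξ in (1:ℝ)..2, |(W y - W (ξ / s)) * pw ξ| ≤ ∫ ξ in (1:ℝ)..2, R * pw ξ := by
      refine intervalIntegral.integral_mono_on (by norm_num) (c3.intervalIntegrable _ _)
        (c4.intervalIntegrable _ _) ?_
      intro ξ hξ
      obtain ⟨h1, h2⟩ := hξ
      have hpw : 0 ≤ pw ξ := (Q1_bd h1 h2).1
      rw [abs_mul, abs_of_nonneg hpw]
      apply mul_le_mul_of_nonneg_right _ hpw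
      have g1 : 1 / s ≤ ξ / s := div_le_div_of_nonneg_right h1 hs.le
      have g2 : ξ / s ≤ 2 / s := div_le_div_of_nonneg_right h2 hs.le
      have g3 := F2_dif hp hq hW (le_trans hhalf g1) (le_trans hhalf hy)
      have g4 : |y - ξ / s| ≤ y + 2 / s := by
        rw [abs_le]
        constructor <;> linarith
      have g5 : (W y - W (ξ / s)) ^ 2 ≤ (y + 2 / s) * (2 * Nn s W) :=
        le_trans g3 (mul_le_mul_of_nonneg_right g4 (by positivity))
      exact Real.abs_le_sqrt g5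
    rw [intervalIntegral.integral_const_mul, Q1_int, mul_one] at hmono
    exact hmono
  calc (W y - alf s W) ^ 2 = |W y - alf s W| ^ 2 := (sq_abs _).symm
    _ ≤ R ^ 2 := pow_le_pow_left₀ (abs_nonneg _) hb 2
    _ = (y + 2 / s) * (2 * Nn s W) := Real.sq_sqrt hRR

end H37KC
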