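import Pool.Agent.H68.KC.If4
import Pool.Agent.H98.KB.Clb
import Pool.Agent.H98.KB.Tbn
import Pool.Agent.H98.KB.Wts
import Pool.Agent.H98.KB.Sol2
import Pool.Agent.H98.KB.Som

/-!
# Block GoodB / EN / XE of MP_95be7d (k = 4): base file
-/

open MeasureTheory Filter Topology Set
open scoped ContDiff

namespace H37KC

open H98KB H68KC

/-- the explicit form of `ze` -/
noncomputable def Zz (w m l : ℝ) (W et : ℝ → ℝ) (y : ℝ) : ℝ :=
  -w * (1 / 2 * W y + y * deriv W y) + (1 + m) * deriv W y - deriv (deriv (deriv W)) y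
    - (W y) ^ 4 * deriv W y + l * deriv (deriv W) y - deriv et y

theorem Cl_W {p q : ℝ} {W : ℝ → ℝ} (hp : p ≤ 1 / 2) (hq : q ≤ 1 / 2)
    (h : Cl p q (fun y => W y - Qf 4 y)) : Cl p q W := by
  have h2 : Cl p q (Qf 4) := Cl_mono (Cl_Qf (by norm_num)) (by linarith) (by linarith)
  have h3 := Cl_add h h2
  have e : (fun y => W y - Qf 4 y + Qf 4 y) = W := by
    funext y; ring
  rwa [e] at h3

theorem ze_eq {p q w m l : ℝ} {W et : ℝ → ℝ} (hW : Cl p q W) :
    ze w m l W et = Zz w m l W et := by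
  have hQ : Cl 1 1 (Qf 4) := Cl_Qf (by norm_num)
  have d1 : deriv (fun y => W y - Qf 4 y) = fun y => deriv W y - deriv (Qf 4) y := by
    funext y
    exact ((Cl_hd hW y).sub (Cl_hd hQ y)).deriv
  have d2 : deriv (deriv (fun y => W y - Qf 4 y)) = fun y => deriv (deriv W) y - deriv (deriv (Qf 4)) y := by
    rw [d1]
    funext y
    exact ((Cl_hd (Cl_der hW) y).sub (Cl_hd (Cl_der hQ) y)).deriv
  have hg : gf 4 (fun y => W y - Qf 4 y) = fun y => -deriv (deriv W) y + W y - (W y) ^ 5 / 5 := by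
    funext y
    have h := Qf_eq (k := 4) (by norm_num) y
    simp only [gf, Df, d2, fl] at h ⊢
    push_cast at h ⊢
    rw [h]
    ring_nf
  have d3 : deriv (fun y => deriv W y - deriv (Qf 4) y) = fun y => deriv (deriv W) y - deriv (deriv (Qf 4)) y := by
    rw [← d1]; exact d2
  funext y
  have hd : deriv (fun y => -deriv (deriv W) y + W y - (W y) ^ 5 / 5) y =
      -deriv (deriv (deriv W)) y + deriv W y - (W y) ^ 4 * deriv W y := by
    have h1 := (((Cl_hd (Cl_der (Cl_der hW)) y).neg.add (Cl_hd hW y)).sub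
      (((Cl_hd hW y).pow 5).div_const 5)).deriv
    refine Eq.trans h1 ?_
    norm_num
    ring
  simp only [ze, zeta, Nf, Zz, hg, hd, Lam, d1, d3]
  push_cast
  ring

/-- `ε` is bounded with all derivatives -/
theorem ep_Cl {p q s : ℝ} {P E W : ℝ → ℝ} (hpr : Prof P E) (hp : 0 < p) (hq : 0 < q)
    (hW : Cl p q W) : Cl 0 0 (ep P E s W) := by
  have h1 : Cl 0 0 W := Cl_mono hW hp.le hq.le
  have h2 : Cl 0 0 (Qf 4) := Cl_mono (Cl_Qf (by norm_num)) (by norm_num) (by norm_num)
  have h3 : Cl 0 0 E := by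
    have h := Cl_add (Cl_mono hpr.E1 (by norm_num) (by norm_num)) (Cl_const 1)
    have e : (fun y => E y - 1 + 1) = E := by
      funext y; ring
    rwa [e] at h
  have h4 := Cl_sub (Cl_sub h1 h2) (Cl_add (Cl_smul (bq s W) hpr.cP) (Cl_smul (alf s W) h3))
  exact h4

end H37KC
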