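import Pool.Agent.H37.KC.Base

/-!
# Row E1 of MP_95be7d_K4B (90 lines)

Energy identity.  The left integrand `F = W' Z' - f(W) Z` (`f(W) = W⁵/5`, `Z = Zz w m l W et`) minus the integrand
`G = -2w (1/2 W'² - W⁶/30) - l W''² + l W⁴ W'² + W'' et' - W⁴ W' et` is `deriv H`, `g = -W'' - W⁵/5`:

`H = W' Z + w (W W'/2 + y W'²/2 + y W⁶/30) + (1+m) (-W'²/2 - W⁶/30) + g²/2 - l W⁵ W'/5 + W⁵ et/5`.

(`W' Z' - f(W) Z = (W' Z)' + g Z`, `Z = -wΛW + (1+m)W' + g' + l W'' - et'`.)  `Cl_int_eq`; the integral of `G` splits (`Cl_int`).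
-/

open MeasureTheory Filter Topology Set
open scoped ContDiff

namespace H37KC

open H98KB H68KC

theorem Zz_Cl {p q w m l : ℝ} {W et : ℝ → ℝ} (hp : 0 < p) (hq : 0 < q) (hW : Cl p q W)
    (he : Cl p q et) : Cl 0 0 (Zz w m l W et) := by
  have hc : 0 < min p q := lt_min hp hq
  have hcp : min p q ≤ p := min_le_left _ _
  have hcq : min p q ≤ q := min_le_right _ _
  have m0 : ∀ {f : ℝ → ℝ}, Cl p q f → Cl 0 0 f := fun h => Cl_mono h hp.le hq.le
  have d1 := Cl_der hW
  have d2 := Cl_der d1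
  have d3 := Cl_der d2
  have e1 := Cl_der he
  have hy : Cl 0 0 (fun y => y * deriv W y) :=
    Cl_mono (Cl_mul (Cl_id hc) d1) (by linarith) (by linarith)
  have h4 : Cl 0 0 (fun y => (W y) ^ 4 * deriv W y) := Cl_mul0 (Cl_pow0 (m0 hW) 4) (m0 d1)
  have h := Cl_sub (Cl_add (Cl_sub (Cl_sub (Cl_add (Cl_smul (-w) (Cl_add (Cl_smul (1 / 2) (m0 hW)) hy))
    (Cl_smul (1 + m) (m0 d1))) (m0 d3)) h4) (Cl_smul l (m0 d2))) (m0 e1)
  exact h

theorem E1 {p q w m l : ℝ} {W et : ℝ → ℝ} (hp : 0 < p) (hq : 0 < q) (hW : Cl p q W)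
    (he : Cl p q et) :
    DEW W (Zz w m l W et) = -2 * w * EW W - l * (∫ y, (deriv (deriv W) y) ^ 2)
      + l * (∫ y, (W y) ^ 4 * (deriv W y) ^ 2) + (∫ y, deriv (deriv W) y * deriv et y)
      - ∫ y, (W y) ^ 4 * (deriv W y * et y) := by
  have hc : 0 < min p q := lt_min hp hq
  have hcp : min p q ≤ p := min_le_left _ _
  have hcq : min p q ≤ q := min_le_right _ _
  have m0 : ∀ {f : ℝ → ℝ}, Cl p q f → Cl 0 0 f := fun h => Cl_mono h hp.le hq.le
  have hZ : Cl 0 0 (Zz w m l W et) := Zz_Cl hp hq hW he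
  have d1 := Cl_der hW
  have d2 := Cl_der d1
  have d3 := Cl_der d2
  have e1 := Cl_der he
  -- generic product
  have mp : ∀ {f g : ℝ → ℝ}, Cl p q f → Cl p q g → Cl p q (fun y => f y * g y) :=
    fun hf hg => Cl_mul0 (m0 hf) hg
  have mid : ∀ {f g : ℝ → ℝ}, Cl p q f → Cl p q g → Cl p q (fun y => y * (f y * g y)) := by
    intro f g hf hg
    have h := Cl_mul (Cl_id hc) (Cl_mul hf hg)
    exact Cl_mono h (by linarith) (by linarith)
  -- integrands
  have i1 : Cl p q (fun y => deriv W y * deriv W y) := mp d1 d1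
  have i2 : Cl p q (fun y => (W y) ^ 6) := Cl_pow' hW hp.le hq.le 6 (by norm_num)
  have i3 : Cl p q (fun y => deriv (deriv W) y * deriv (deriv W) y) := mp d2 d2
  have i4 : Cl p q (fun y => (W y) ^ 4 * (deriv W y * deriv W y)) :=
    Cl_mul0 (Cl_pow0 (m0 hW) 4) i1
  have i5 : Cl p q (fun y => deriv (deriv W) y * deriv et y) := mp d2 e1
  have i6 : Cl p q (fun y => (W y) ^ 4 * (deriv W y * et y)) :=
    Cl_mul0 (Cl_pow0 (m0 hW) 4) (mp d1 he)
  have I1 : Integrable (fun y => (deriv W y) ^ 2) := by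
    have h := Cl_int i1 hp hq
    simpa only [pow_two] using h
  have I2 : Integrable (fun y => (W y) ^ 6) := Cl_int i2 hp hq
  have I3 : Integrable (fun y => (deriv (deriv W) y) ^ 2) := by
    have h := Cl_int i3 hp hq
    simpa only [pow_two] using h
  have I4 : Integrable (fun y => (W y) ^ 4 * (deriv W y) ^ 2) := by
    have h := Cl_int i4 hp hq
    simpa only [pow_two] using h
  have I5 := Cl_int i5 hp hq
  have I6 := Cl_int i6 hp hq
  -- left integrand
  have hF : Integrable (fun y => deriv W y * deriv (Zz w m l W et) y - fl 4 (W y) * Zz w m l W et y) := by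
    have a1 : Cl p q (fun y => deriv (Zz w m l W et) y * deriv W y) := Cl_mul0 (Cl_der hZ) d1
    have a2 : Cl p q (fun y => Zz w m l W et y * (1 / 5 * (W y) ^ 5)) :=
      Cl_mul0 hZ (Cl_smul (1 / 5) (Cl_pow' hW hp.le hq.le 5 (by norm_num)))
    have h := Cl_int (Cl_sub a1 a2) hp hq
    have e : (fun y => deriv (Zz w m l W et) y * deriv W y - Zz w m l W et y * (1 / 5 * (W y) ^ 5)) =
        (fun y => deriv W y * deriv (Zz w m l W et) y - fl 4 (W y) * Zz w m l W et y) := by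
      funext y
      simp only [fl]
      norm_num
      ring
    rwa [e] at h
  have hG : Integrable (fun y => -2 * w * (1 / 2 * (deriv W y) ^ 2 - 1 / 30 * (W y) ^ 6)
      - l * (deriv (deriv W) y) ^ 2 + l * ((W y) ^ 4 * (deriv W y) ^ 2)
      + deriv (deriv W) y * deriv et y - (W y) ^ 4 * (deriv W y * et y)) :=
    (((((I1.const_mul (1 / 2)).sub (I2.const_mul (1 / 30))).const_mul (-2 * w)).sub
      (I3.const_mul l)).add (I4.const_mul l)).add I5 |>.sub I6
  have hH : Cl p q (fun y => Zz w m l W et y * deriv W y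
      + w * (1 / 2 * (W y * deriv W y) + 1 / 2 * (y * (deriv W y * deriv W y))
        + 1 / 30 * (y * ((W y) ^ 3 * (W y) ^ 3)))
      + (1 + m) * (-(1 / 2) * (deriv W y * deriv W y) + -(1 / 30) * (W y) ^ 6)
      + 1 / 2 * ((-deriv (deriv W) y - 1 / 5 * (W y) ^ 5) * (-deriv (deriv W) y - 1 / 5 * (W y) ^ 5))
      + -(l / 5) * ((W y) ^ 5 * deriv W y) + 1 / 5 * ((W y) ^ 5 * et y)) := by
    have b1 : Cl p q (fun y => Zz w m l W et y * deriv W y) := Cl_mul0 hZ d1
    have b2 : Cl p q (fun y => W y * deriv W y) := mp hW d1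
    have b3 : Cl p q (fun y => y * (deriv W y * deriv W y)) := mid d1 d1
    have c3 : Cl p q (fun y => (W y) ^ 3) := Cl_pow' hW hp.le hq.le 3 (by norm_num)
    have b4 : Cl p q (fun y => y * ((W y) ^ 3 * (W y) ^ 3)) := mid c3 c3
    have c5 : Cl p q (fun y => (W y) ^ 5) := Cl_pow' hW hp.le hq.le 5 (by norm_num)
    have c6 : Cl p q (fun y => -deriv (deriv W) y - 1 / 5 * (W y) ^ 5) :=
      Cl_sub (Cl_neg d2) (Cl_smul (1 / 5) c5)
    have b5 := mp c6 c6
    have b6 := mp c5 d1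
    have b7 := mp c5 he
    exact Cl_add (Cl_add (Cl_add (Cl_add (Cl_add b1
      (Cl_smul w (Cl_add (Cl_add (Cl_smul (1 / 2) b2) (Cl_smul (1 / 2) b3)) (Cl_smul (1 / 30) b4))))
      (Cl_smul (1 + m) (Cl_add (Cl_smul (-(1 / 2)) i1) (Cl_smul (-(1 / 30)) i2))))
      (Cl_smul (1 / 2) b5)) (Cl_smul (-(l / 5)) b6)) (Cl_smul (1 / 5) b7)
  have key := Cl_int_eq hF hG hH hp hq (by
    intro y
    have a0 := Cl_hd hW y
    have a1 := Cl_hd d1 y
    have a2 := Cl_hd d2 y
    have az := Cl_hd hZ y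
    have ae := Cl_hd he y
    have ai := hasDerivAt_id y
    have g0 := (a2.neg.sub ((a0.pow 5).const_mul (1 / 5)))
    have h := ((((((az.mul a1).add
      (((((a0.mul a1).const_mul (1 / 2)).add ((ai.mul (a1.mul a1)).const_mul (1 / 2))).add
        ((ai.mul ((a0.pow 3).mul (a0.pow 3))).const_mul (1 / 30))).const_mul w)).add
      ((((a1.mul a1).const_mul (-(1 / 2))).add ((a0.pow 6).const_mul (-(1 / 30)))).const_mul (1 + m))).add
      ((g0.mul g0).const_mul (1 / 2))).add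
      (((a0.pow 5).mul a1).const_mul (-(l / 5)))).add (((a0.pow 5).mul ae).const_mul (1 / 5))).deriv
    refine Eq.trans ?_ h.symm
    have hz : Zz w m l W et y = -w * (1 / 2 * W y + y * deriv W y) + (1 + m) * deriv W y
      - deriv (deriv (deriv W)) y - (W y) ^ 4 * deriv W y + l * deriv (deriv W) y - deriv et y := rfl
    simp only [fl, Pi.mul_apply, Pi.pow_apply, Pi.neg_apply, Pi.sub_apply, id]
    generalize hD : deriv (Zz w m l W et) y = D
    rw [hz]
    norm_num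
    ring)
  have hsplit : ∫ y, (-2 * w * (1 / 2 * (deriv W y) ^ 2 - 1 / 30 * (W y) ^ 6)
      - l * (deriv (deriv W) y) ^ 2 + l * ((W y) ^ 4 * (deriv W y) ^ 2)
      + deriv (deriv W) y * deriv et y - (W y) ^ 4 * (deriv W y * et y)) =
      -2 * w * (1 / 2 * (∫ y, (deriv W y) ^ 2) - 1 / 30 * ∫ y, (W y) ^ 6)
        - l * (∫ y, (deriv (deriv W) y) ^ 2) + l * (∫ y, (W y) ^ 4 * (deriv W y) ^ 2)
        + (∫ y, deriv (deriv W) y * deriv et y) - ∫ y, (W y) ^ 4 * (deriv W y * et y) := by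
    have J1 : Integrable (fun y => 1 / 2 * (deriv W y) ^ 2 - 1 / 30 * (W y) ^ 6) :=
      (I1.const_mul (1 / 2)).sub (I2.const_mul (1 / 30))
    have J2 : Integrable (fun y => -2 * w * (1 / 2 * (deriv W y) ^ 2 - 1 / 30 * (W y) ^ 6)) :=
      J1.const_mul (-2 * w)
    have J3 : Integrable (fun y => -2 * w * (1 / 2 * (deriv W y) ^ 2 - 1 / 30 * (W y) ^ 6)
        - l * (deriv (deriv W) y) ^ 2) := J2.sub (I3.const_mul l)
    have J4 : Integrable (fun y => -2 * w * (1 / 2 * (deriv W y) ^ 2 - 1 / 30 * (W y) ^ 6)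
        - l * (deriv (deriv W) y) ^ 2 + l * ((W y) ^ 4 * (deriv W y) ^ 2)) := J3.add (I4.const_mul l)
    have J5 : Integrable (fun y => -2 * w * (1 / 2 * (deriv W y) ^ 2 - 1 / 30 * (W y) ^ 6)
        - l * (deriv (deriv W) y) ^ 2 + l * ((W y) ^ 4 * (deriv W y) ^ 2)
        + deriv (deriv W) y * deriv et y) := J4.add I5
    rw [integral_sub J5 I6, integral_add J4 I5, integral_add J3 (I4.const_mul l),
      integral_sub J2 (I3.const_mul l), integral_const_mul, integral_const_mul, integral_const_mul,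
      integral_sub (I1.const_mul (1 / 2)) (I2.const_mul (1 / 30)), integral_const_mul, integral_const_mul]
  unfold DEW EW
  rw [key, hsplit]

end H37KC
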