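import Pool.Agent.H37.KC.Base

/-!
# Row P1 of MP_95be7d_K4B (120 lines)

Facts on the front `Ph s y = Th 4 (y - 1/(2s))`  (`Th B y = 1/(1+exp(-y/B))`).

* `P1_shift`: `iteratedDeriv_comp_sub_const` (or induction), and `bd p q (y-a) ≤ exp((p+q)|a|) bd p q y` since
  `max (y-a) 0 ≥ max y 0 - |a|`, same for `max (-(y-a)) 0`.
* `P1_Cl`: `Cl_Th (B := 4)` and `P1_shift`.
* `P1_d1`: `Th_hd`.  Write `F = Ph s y`, `F' = F(1-F)/4`, `F'' = F'(1-2F)/4`,
  `F''' = F' ((1-2F)²/16 - F(1-F)/8) = F' (1-6F(1-F))/16`, so `|F'''| ≤ F'/16`.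
* `P1_half`: `exp(-(y-y1)/4) ≤ 1`.  `P1_eight`: `F ≤ 1/2` there.
* `P1_lo`: `1/(1+exp(-z)) ≤ exp z`.   `P1_hi`: `F(1-F) ≤ 1-F = 1/(1+exp z) ≤ exp(-z)`, `z = (y-y1)/4`.
* `P1_tr`: if `y ≤ 0` the left side is `≤ 0`; if `0 ≤ y ≤ 2/s` then `w y ≤ 2w/s ≤ 1/16`; if `y ≥ 2/s` then `y - 1/(2s) ≥ 3y/4`, so
  `w y F' ≤ (w/4) y exp(-3y/16) ≤ (w/4) 16 exp(-y/8) ≤ 4 w exp(-1/(4s))`  (`y exp(-y/16) ≤ 16`).
-/

open MeasureTheory Filter Topology Set
open scoped ContDiff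

namespace H37KC

open H98KB H68KC

theorem P1_bd {p q : ℝ} (hp : 0 ≤ p) (hq : 0 ≤ q) (a y : ℝ) :
    bd p q (y - a) ≤ Real.exp ((p + q) * |a|) * bd p q y := by
  unfold bd
  rw [← Real.exp_add]
  refine Real.exp_le_exp.2 ?_
  have h1 := le_abs_self a
  have h2 := neg_abs_le a
  have e1 : max y 0 ≤ max (y - a) 0 + |a| := by
    refine max_le ?_ ?_
    · linarith [le_max_left (y - a) 0]
    · linarith [le_max_right (y - a) 0, abs_nonneg a]
  have e2 : max (-y) 0 ≤ max (-(y - a)) 0 + |a| := by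
    refine max_le ?_ ?_
    · linarith [le_max_left (-(y - a)) 0]
    · linarith [le_max_right (-(y - a)) 0, abs_nonneg a]
  have e3 := mul_le_mul_of_nonneg_left e1 hp
  have e4 := mul_le_mul_of_nonneg_left e2 hq
  nlinarith

theorem P1_shift {p q : ℝ} {f : ℝ → ℝ} (hp : 0 ≤ p) (hq : 0 ≤ q) (h : Cl p q f) (a : ℝ) :
    Cl p q (fun y => f (y - a)) := by
  refine ⟨h.1.comp (contDiff_id.sub contDiff_const), fun j => ?_⟩
  obtain ⟨C, hC0, hC⟩ := Cl_bndj h j
  refine ⟨C * Real.exp ((p + q) * |a|), fun y => ?_⟩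
  have e : iteratedDeriv j (fun y => f (y - a)) y = iteratedDeriv j f (y - a) := by
    rw [iteratedDeriv_comp_sub_const]
  rw [e, mul_assoc]
  exact (hC _).trans (mul_le_mul_of_nonneg_left (P1_bd hp hq a y) hC0)

theorem P1_Cl (s : ℝ) : Cl 0 (1 / 4) (Ph s) :=
  P1_shift le_rfl (by norm_num) (Cl_Th (B := 4) (by norm_num)) (1 / (2 * s))

theorem P1_pos (s y : ℝ) : 0 < Ph s y := Th_pos _ _

theorem P1_lt (s y : ℝ) : Ph s y < 1 := Th_lt_one _ _

theorem P1_hd (s y : ℝ) : HasDerivAt (Ph s) (Ph s y * (1 - Ph s y) / 4) y :=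
  (Th_hd (B := 4) (by norm_num) (y - 1 / (2 * s))).comp_sub_const y (1 / (2 * s))

theorem P1_d1 (s : ℝ) : deriv (Ph s) = fun y => Ph s y * (1 - Ph s y) / 4 :=
  funext fun y => (P1_hd s y).deriv

theorem P1_hd2 (s y : ℝ) : HasDerivAt (fun y => Ph s y * (1 - Ph s y) / 4)
    (Ph s y * (1 - Ph s y) / 4 * (1 - 2 * Ph s y) / 4) y := by
  have h := P1_hd s y
  refine ((h.mul (h.const_sub 1)).div_const 4).congr_deriv ?_
  ring

theorem P1_hd3 (s y : ℝ) : HasDerivAt (fun y => Ph s y * (1 - Ph s y) / 4 * (1 - 2 * Ph s y) / 4)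
    (Ph s y * (1 - Ph s y) / 4 * (1 - 6 * (Ph s y * (1 - Ph s y))) / 16) y := by
  have h := P1_hd s y
  have h2 := P1_hd2 s y
  refine ((h2.mul ((h.const_mul 2).const_sub 1)).div_const 4).congr_deriv ?_
  ring

theorem P1_d1_nonneg (s y : ℝ) : 0 ≤ deriv (Ph s) y := by
  rw [P1_d1]
  have h1 := P1_pos s y
  have h2 := P1_lt s y
  have : 0 < 1 - Ph s y := by linarith
  positivity

theorem P1_d1_le (s y : ℝ) : deriv (Ph s) y ≤ 1 / 4 * Ph s y := by
  rw [P1_d1]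
  have h1 := P1_pos s y
  simp only
  nlinarith

theorem P1_d2 (s y : ℝ) : |deriv (deriv (Ph s)) y| ≤ 1 / 4 * deriv (Ph s) y := by
  have h0 := P1_d1_nonneg s y
  rw [P1_d1] at h0 ⊢
  rw [(P1_hd2 s y).deriv]
  simp only at h0 ⊢
  have h1 := P1_pos s y
  have h2 := P1_lt s y
  rw [mul_div_assoc, abs_mul, abs_of_nonneg h0, mul_comm (1 / 4 : ℝ)]
  refine mul_le_mul_of_nonneg_left ?_ h0
  rw [abs_le]
  constructor <;> linarith

theorem P1_d3 (s y : ℝ) : |deriv (deriv (deriv (Ph s))) y| ≤ 1 / 16 * deriv (Ph s) y := by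
  have h0 := P1_d1_nonneg s y
  have e2 : deriv (deriv (Ph s)) = fun y => Ph s y * (1 - Ph s y) / 4 * (1 - 2 * Ph s y) / 4 := by
    rw [P1_d1]
    exact funext fun y => (P1_hd2 s y).deriv
  rw [e2, (P1_hd3 s y).deriv]
  rw [P1_d1] at h0 ⊢
  simp only at h0 ⊢
  have h1 := P1_pos s y
  have h2 := P1_lt s y
  rw [mul_div_assoc, abs_mul, abs_of_nonneg h0, mul_comm (1 / 16 : ℝ)]
  refine mul_le_mul_of_nonneg_left ?_ h0
  have h3 : 0 ≤ Ph s y * (1 - Ph s y) := mul_nonneg h1.le (by linarith)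
  have h4 : Ph s y * (1 - Ph s y) ≤ 1 / 4 := by nlinarith [sq_nonneg (Ph s y - 1 / 2)]
  rw [abs_le]
  constructor <;> linarith

theorem P1_half {s y : ℝ} (hy : 1 / (2 * s) ≤ y) : 1 / 2 ≤ Ph s y := by
  unfold Ph Th
  have h1 : Real.exp (-(y - 1 / (2 * s)) / 4) ≤ 1 := Real.exp_le_one_iff.2 (by linarith)
  have h2 := Real.exp_pos (-(y - 1 / (2 * s)) / 4)
  rw [div_le_div_iff₀ (by norm_num) (by linarith)]
  linarith

theorem P1_eight {s y : ℝ} (hy : y ≤ 1 / (2 * s)) : Ph s y ≤ 8 * deriv (Ph s) y := by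
  have h1 := P1_pos s y
  have h2 : Ph s y ≤ 1 / 2 := by
    unfold Ph Th
    have h3 : 1 ≤ Real.exp (-(y - 1 / (2 * s)) / 4) := Real.one_le_exp (by linarith)
    rw [div_le_div_iff₀ (by linarith) (by norm_num)]
    linarith
  rw [P1_d1]
  simp only
  nlinarith

theorem P1_lo (s y : ℝ) : Ph s y ≤ Real.exp ((y - 1 / (2 * s)) / 4) := by
  unfold Ph Th
  have h1 := Real.exp_pos (-(y - 1 / (2 * s)) / 4)
  have h2 := Real.exp_pos ((y - 1 / (2 * s)) / 4)
  rw [div_le_iff₀ (by linarith), mul_add, ← Real.exp_add]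
  have e : (y - 1 / (2 * s)) / 4 + -(y - 1 / (2 * s)) / 4 = 0 := by ring
  rw [e, Real.exp_zero]
  linarith

theorem P1_hi (s y : ℝ) : deriv (Ph s) y ≤ 1 / 4 * Real.exp (-((y - 1 / (2 * s)) / 4)) := by
  have h1 := P1_pos s y
  have h2 := P1_lt s y
  have e : -((y - 1 / (2 * s)) / 4) = -(y - 1 / (2 * s)) / 4 := by ring
  have h3 : 1 - Ph s y ≤ Real.exp (-((y - 1 / (2 * s)) / 4)) := by
    unfold Ph Th
    rw [e]
    have h4 := Real.exp_pos (-(y - 1 / (2 * s)) / 4)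
    set E := Real.exp (-(y - 1 / (2 * s)) / 4) with hE
    have h5 : 1 - 1 / (1 + E) = E / (1 + E) := by
      field_simp
      ring
    rw [h5, div_le_iff₀ (by linarith)]
    nlinarith
  rw [P1_d1]
  simp only
  have h6 : Ph s y * (1 - Ph s y) ≤ 1 - Ph s y := by nlinarith
  linarith

theorem P1_tr {s w : ℝ} (hs : 0 < s) (hw : 0 ≤ w) (hws : 32 * w ≤ s) (y : ℝ) :
    w * y * deriv (Ph s) y ≤ 1 / 16 * deriv (Ph s) y + 4 * w * Real.exp (-(1 / (4 * s))) := by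
  have h0 := P1_d1_nonneg s y
  have h1 := Real.exp_pos (-(1 / (4 * s)))
  have h2 : 0 ≤ 4 * w * Real.exp (-(1 / (4 * s))) := by positivity
  rcases le_total y (2 / s) with hy | hy
  · have h3 : w * y ≤ 1 / 16 := by
      have h4 : w * y ≤ w * (2 / s) := mul_le_mul_of_nonneg_left hy hw
      have h5 : w * (2 / s) ≤ 1 / 16 := by
        rw [← mul_div_assoc, div_le_iff₀ hs]
        linarith
      linarith
    have h6 := mul_le_mul_of_nonneg_right h3 h0
    linarith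
  · have hy0 : 0 < y := lt_of_lt_of_le (by positivity) hy
    have h3 : 1 / (2 * s) ≤ y / 4 := by
      have : 1 / (2 * s) = 2 / s / 4 := by field_simp; ring
      rw [this]
      linarith
    have h4 := P1_hi s y
    have h5 : Real.exp (-((y - 1 / (2 * s)) / 4)) ≤ Real.exp (-(y / 16)) * Real.exp (-(1 / (4 * s))) := by
      rw [← Real.exp_add]
      refine Real.exp_le_exp.2 ?_
      have h6 : 1 / (4 * s) = 2 / s / 8 := by field_simp; ring
      rw [h6]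
      linarith
    have h7 : y * Real.exp (-(y / 16)) ≤ 16 := by
      have h8 : y / 16 ≤ Real.exp (y / 16) := by
        have := Real.add_one_le_exp (y / 16)
        linarith
      rw [Real.exp_neg, ← div_eq_mul_inv, div_le_iff₀ (Real.exp_pos _)]
      linarith
    have hwy : 0 ≤ w * y := mul_nonneg hw hy0.le
    calc w * y * deriv (Ph s) y
        ≤ w * y * (1 / 4 * (Real.exp (-(y / 16)) * Real.exp (-(1 / (4 * s))))) := by
          refine mul_le_mul_of_nonneg_left (h4.trans ?_) hwy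
          exact mul_le_mul_of_nonneg_left h5 (by norm_num)
      _ = (y * Real.exp (-(y / 16))) * (w * Real.exp (-(1 / (4 * s))) / 4) := by ring
      _ ≤ 16 * (w * Real.exp (-(1 / (4 * s))) / 4) :=
          mul_le_mul_of_nonneg_right h7 (by positivity)
      _ = 4 * w * Real.exp (-(1 / (4 * s))) := by ring
      _ ≤ 1 / 16 * deriv (Ph s) y + 4 * w * Real.exp (-(1 / (4 * s))) := by linarith

end H37KC
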