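import Pool.Agent.H37.KC.Base

/-!
# Row Q1 of MP_95be7d_K4B (60 lines)

The weight `pw ξ = 630 t⁴`, `t = (ξ-1)(2-ξ)`, `t' = 3-2ξ`, `t'' = -2`: `pw' = 2520 t³ t' = pw1`, `pw'' = 7560 t² t'² - 5040 t³ = pw2`.
On `[1,2]`: `0 ≤ t ≤ 1/4`, `|t'| ≤ 1`.   `∫_1^2 pw = 1`: antiderivative in `u = ξ - 1`: `630 (u^5/5 - 4u^6/6 + 6u^7/7 - 4u^8/8 + u^9/9)`
(`intervalIntegral.integral_eq_sub_of_hasDerivAt`).
-/

open MeasureTheory Filter Topology Set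
open scoped ContDiff

namespace H37KC

open H98KB H68KC

noncomputable def pw1 (ξ : ℝ) : ℝ := 2520 * ((ξ - 1) * (2 - ξ)) ^ 3 * (3 - 2 * ξ)

noncomputable def pw2 (ξ : ℝ) : ℝ :=
  7560 * ((ξ - 1) * (2 - ξ)) ^ 2 * (3 - 2 * ξ) ^ 2 - 5040 * ((ξ - 1) * (2 - ξ)) ^ 3

theorem Q1_hd (ξ : ℝ) : HasDerivAt pw (pw1 ξ) ξ := by
  have a1 : HasDerivAt (fun ξ : ℝ => ξ - 1) 1 ξ := (hasDerivAt_id ξ).sub_const 1
  have a2 : HasDerivAt (fun ξ : ℝ => 2 - ξ) (-1) ξ := (hasDerivAt_id ξ).const_sub 2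
  have h := ((a1.pow 4).const_mul 630).mul (a2.pow 4)
  refine h.congr_deriv ?_
  unfold pw1
  simp only [Pi.pow_apply]
  push_cast
  ring

theorem Q1_hd1 (ξ : ℝ) : HasDerivAt pw1 (pw2 ξ) ξ := by
  have a1 : HasDerivAt (fun ξ : ℝ => (ξ - 1) * (2 - ξ)) (1 * (2 - ξ) + (ξ - 1) * -1) ξ :=
    ((hasDerivAt_id ξ).sub_const 1).mul ((hasDerivAt_id ξ).const_sub 2)
  have a2 : HasDerivAt (fun ξ : ℝ => 3 - 2 * ξ) (-(2 * 1)) ξ :=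
    ((hasDerivAt_id ξ).const_mul 2).const_sub 3
  have h := ((a1.pow 3).const_mul 2520).mul a2
  refine h.congr_deriv ?_
  unfold pw2
  simp only [Pi.pow_apply]
  push_cast
  ring

theorem Q1_cont : Continuous pw ∧ Continuous pw1 ∧ Continuous pw2 := by
  refine ⟨?_, ?_, ?_⟩
  · exact continuous_iff_continuousAt.2 fun x => (Q1_hd x).continuousAt
  · exact continuous_iff_continuousAt.2 fun x => (Q1_hd1 x).continuousAt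
  · unfold pw2
    fun_prop

theorem Q1_end : pw 1 = 0 ∧ pw 2 = 0 ∧ pw1 1 = 0 ∧ pw1 2 = 0 := by
  unfold pw pw1
  norm_num

theorem Q1_bd {ξ : ℝ} (h1 : 1 ≤ ξ) (h2 : ξ ≤ 2) : 0 ≤ pw ξ ∧ pw ξ ≤ 3 ∧ |pw1 ξ| ≤ 40 ∧ |pw2 ξ| ≤ 600 := by
  obtain ⟨t, ht⟩ : ∃ t : ℝ, t = (ξ - 1) * (2 - ξ) := ⟨_, rfl⟩
  obtain ⟨d, hd⟩ : ∃ d : ℝ, d = 3 - 2 * ξ := ⟨_, rfl⟩
  have t0 : 0 ≤ t := by
    rw [ht]
    exact mul_nonneg (by linarith) (by linarith)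
  have t1 : t ≤ 1 / 4 := by
    rw [ht]
    nlinarith [sq_nonneg (ξ - 3 / 2)]
  have d1 : |d| ≤ 1 := by
    rw [hd, abs_le]
    constructor <;> linarith
  have d2 : d ^ 2 ≤ 1 := by
    rw [← sq_abs]
    exact pow_le_one₀ (abs_nonneg _) d1
  have d20 : 0 ≤ d ^ 2 := sq_nonneg d
  have e2 : t ^ 2 ≤ (1 / 4) ^ 2 := pow_le_pow_left₀ t0 t1 2
  have e3 : t ^ 3 ≤ (1 / 4) ^ 3 := pow_le_pow_left₀ t0 t1 3
  have e4 : t ^ 4 ≤ (1 / 4) ^ 4 := pow_le_pow_left₀ t0 t1 4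
  have f2 : 0 ≤ t ^ 2 := by positivity
  have f3 : 0 ≤ t ^ 3 := by positivity
  have f4 : 0 ≤ t ^ 4 := by positivity
  have p0 : pw ξ = 630 * t ^ 4 := by
    unfold pw
    rw [ht]
    ring
  have p1 : pw1 ξ = 2520 * t ^ 3 * d := by
    unfold pw1
    rw [ht, hd]
  have p2 : pw2 ξ = 7560 * (t ^ 2 * d ^ 2) - 5040 * t ^ 3 := by
    unfold pw2
    rw [ht, hd]
    ring
  refine ⟨?_, ?_, ?_, ?_⟩
  · rw [p0]
    positivity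
  · rw [p0]
    norm_num at e4
    linarith
  · rw [p1, abs_mul, abs_of_nonneg (by positivity : (0 : ℝ) ≤ 2520 * t ^ 3)]
    have : 2520 * t ^ 3 * |d| ≤ 2520 * t ^ 3 * 1 := mul_le_mul_of_nonneg_left d1 (by positivity)
    norm_num at e3
    linarith
  · rw [p2, abs_le]
    have g1 : t ^ 2 * d ^ 2 ≤ (1 / 4) ^ 2 * 1 := mul_le_mul e2 d2 d20 (by norm_num)
    have g2 : 0 ≤ t ^ 2 * d ^ 2 := mul_nonneg f2 d20
    norm_num at g1 e3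
    constructor <;> linarith

theorem Q1_int : ∫ ξ in (1:ℝ)..2, pw ξ = 1 := by
  have hF : ∀ ξ ∈ uIcc (1 : ℝ) 2, HasDerivAt (fun ξ : ℝ => 630 * ((ξ - 1) ^ 5 / 5 - 4 * (ξ - 1) ^ 6 / 6 +
      6 * (ξ - 1) ^ 7 / 7 - 4 * (ξ - 1) ^ 8 / 8 + (ξ - 1) ^ 9 / 9)) (pw ξ) ξ := by
    intro ξ _
    have a1 : HasDerivAt (fun ξ : ℝ => ξ - 1) 1 ξ := (hasDerivAt_id ξ).sub_const 1
    have h := ((((((a1.pow 5).div_const 5).sub (((a1.pow 6).const_mul 4).div_const 6)).add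
      (((a1.pow 7).const_mul 6).div_const 7)).sub (((a1.pow 8).const_mul 4).div_const 8)).add
      ((a1.pow 9).div_const 9)).const_mul 630
    refine h.congr_deriv ?_
    unfold pw
    push_cast
    ring
  rw [intervalIntegral.integral_eq_sub_of_hasDerivAt hF (Q1_cont.1.intervalIntegrable 1 2)]
  norm_num

end H37KC
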