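import Pool.Agent.H37.KC.Q1

/-!
# Row Q2 of MP_95be7d_K4B (80 lines)

`alm = alD + (w/2) alf`, all integrals over `[1,2]` of continuous functions (combine them into one by `intervalIntegral.integral_add`,
`integral_const_mul`).  The integrand of the left side is, at `y = ξ/s`,
`pw (-(3/4) w y W' + (1+m) W' - W''' - W⁴ W' + l W'' - et')`  (the terms `-(1/2) w W` and `+(1/2) w W` cancel, `-w y W' + (1/4) w y W'`).
The difference to the right side is `deriv H ξ` with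
`H ξ = l s pw ξ W'(ξ/s) - s pw ξ W''(ξ/s) + s² pw1 ξ W'(ξ/s) - s pw ξ et(ξ/s)`, and `H 1 = H 2 = 0` (`Q1_end`): use
`intervalIntegral.integral_eq_sub_of_hasDerivAt` (chain rule: derivative of `f(ξ/s)` is `f'(ξ/s)/s`).
-/

open MeasureTheory Filter Topology Set
open scoped ContDiff

namespace H37KC

open H98KB H68KC

theorem Q2 {p q s w m l : ℝ} {W et : ℝ → ℝ} (hs : 0 < s) (hW : Cl p q W) (he : Cl p q et) :
    alm s w W (Zz w m l W et) = ∫ ξ in (1:ℝ)..2,
      (((-(3 / 4) * w * (ξ / s) + (1 + m) - (W (ξ / s)) ^ 4) * pw ξ - s ^ 2 * pw2 ξ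
          - l * s * pw1 ξ) * deriv W (ξ / s)
        + s * pw1 ξ * et (ξ / s)) := by
  have hs0 : s ≠ 0 := hs.ne'
  obtain ⟨cp, cp1, cp2⟩ := Q1_cont
  have hW1 := Cl_der hW
  have hW2 := Cl_der hW1
  have hW3 := Cl_der hW2
  have he1 := Cl_der he
  have cdiv : Continuous fun ξ : ℝ => ξ / s := continuous_id.div_const s
  have cW := Cl_cont hW
  have cW1 := Cl_cont hW1
  have cW2 := Cl_cont hW2
  have cW3 := Cl_cont hW3
  have cet := Cl_cont he
  have cet1 := Cl_cont he1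
  have c0 : Continuous fun ξ : ℝ => W (ξ / s) := (Cl_cont hW).comp cdiv
  have c1 : Continuous fun ξ : ℝ => deriv W (ξ / s) := (Cl_cont hW1).comp cdiv
  have c2 : Continuous fun ξ : ℝ => deriv (deriv W) (ξ / s) := (Cl_cont hW2).comp cdiv
  have c3 : Continuous fun ξ : ℝ => deriv (deriv (deriv W)) (ξ / s) := (Cl_cont hW3).comp cdiv
  have ce : Continuous fun ξ : ℝ => et (ξ / s) := (Cl_cont he).comp cdiv
  have ce1 : Continuous fun ξ : ℝ => deriv et (ξ / s) := (Cl_cont he1).comp cdiv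
  have hdd : ∀ (f : ℝ → ℝ) {a b : ℝ}, Cl a b f → ∀ ξ : ℝ,
      HasDerivAt (fun ξ : ℝ => f (ξ / s)) (deriv f (ξ / s) / s) ξ := by
    intro f a b hf ξ
    have h1 : HasDerivAt (fun ξ : ℝ => ξ / s) (1 / s) ξ := (hasDerivAt_id ξ).div_const s
    have h2 := (Cl_hd hf (ξ / s)).comp ξ h1
    have e : deriv f (ξ / s) * (1 / s) = deriv f (ξ / s) / s := by ring
    rw [e] at h2
    exact h2
  -- the total derivative
  have hH : ∀ ξ : ℝ, HasDerivAt (fun ξ : ℝ => l * s * (pw ξ * deriv W (ξ / s))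
      - s * (pw ξ * deriv (deriv W) (ξ / s)) + s ^ 2 * (pw1 ξ * deriv W (ξ / s))
      - s * (pw ξ * et (ξ / s)))
      (pw ξ * (-deriv (deriv (deriv W)) (ξ / s) + l * deriv (deriv W) (ξ / s) - deriv et (ξ / s))
        + s ^ 2 * pw2 ξ * deriv W (ξ / s) + l * s * pw1 ξ * deriv W (ξ / s)
        - s * pw1 ξ * et (ξ / s)) ξ := by
    intro ξ
    have a1 := ((Q1_hd ξ).mul (hdd _ hW1 ξ)).const_mul (l * s)
    have a2 := ((Q1_hd ξ).mul (hdd _ hW2 ξ)).const_mul s
    have a3 := ((Q1_hd1 ξ).mul (hdd _ hW1 ξ)).const_mul (s ^ 2)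
    have a4 := ((Q1_hd ξ).mul (hdd _ he ξ)).const_mul s
    have a5 := ((a1.sub a2).add a3).sub a4
    refine a5.congr_deriv ?_
    field_simp
    ring
  have hI : (∫ ξ in (1:ℝ)..2, (pw ξ * (-deriv (deriv (deriv W)) (ξ / s) + l * deriv (deriv W) (ξ / s)
        - deriv et (ξ / s))
        + s ^ 2 * pw2 ξ * deriv W (ξ / s) + l * s * pw1 ξ * deriv W (ξ / s)
        - s * pw1 ξ * et (ξ / s))) = 0 := by
    rw [intervalIntegral.integral_eq_sub_of_hasDerivAt (fun ξ _ => hH ξ)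
      (Continuous.intervalIntegrable (by fun_prop) _ _)]
    obtain ⟨e1, e2, e3, e4⟩ := Q1_end
    simp only [e1, e2, e3, e4]
    ring
  have iR : IntervalIntegrable (fun ξ : ℝ =>
      (((-(3 / 4) * w * (ξ / s) + (1 + m) - (W (ξ / s)) ^ 4) * pw ξ - s ^ 2 * pw2 ξ
          - l * s * pw1 ξ) * deriv W (ξ / s)
        + s * pw1 ξ * et (ξ / s))) volume 1 2 := Continuous.intervalIntegrable (by fun_prop) _ _
  have iH : IntervalIntegrable (fun ξ : ℝ =>
      (pw ξ * (-deriv (deriv (deriv W)) (ξ / s) + l * deriv (deriv W) (ξ / s)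
        - deriv et (ξ / s))
        + s ^ 2 * pw2 ξ * deriv W (ξ / s) + l * s * pw1 ξ * deriv W (ξ / s)
        - s * pw1 ξ * et (ξ / s))) volume 1 2 := Continuous.intervalIntegrable (by fun_prop) _ _
  have iA : IntervalIntegrable (fun ξ : ℝ =>
      (Zz w m l W et (ξ / s) + 1 / 4 * w * (ξ / s) * deriv W (ξ / s)) * pw ξ) volume 1 2 := by
    apply Continuous.intervalIntegrable
    unfold Zz
    fun_prop
  have iB : IntervalIntegrable (fun ξ : ℝ => W (ξ / s) * pw ξ) volume 1 2 :=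
    Continuous.intervalIntegrable (by fun_prop) _ _
  rw [← add_zero (∫ ξ in (1:ℝ)..2, (((-(3 / 4) * w * (ξ / s) + (1 + m) - (W (ξ / s)) ^ 4) * pw ξ
      - s ^ 2 * pw2 ξ - l * s * pw1 ξ) * deriv W (ξ / s) + s * pw1 ξ * et (ξ / s))), ← hI,
    ← intervalIntegral.integral_add iR iH]
  unfold alm alD alf
  rw [← intervalIntegral.integral_const_mul, ← intervalIntegral.integral_add iA (iB.const_mul _)]
  apply intervalIntegral.integral_congr
  intro ξ _
  simp only [Zz]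
  ring

end H37KC
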