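import Pool.Agent.H37.KC.Base

/-!
# Row X1 of MP_95be7d_K4B (90 lines)

`X1_Q`: `EW Q = 0`: with `Q'' = Q - Q⁵/5` (`Qf_eq`, `fl 4 u = u⁵/5`): `1/2 ∫Q'² - 1/30 ∫ Q⁶`.  The function
`H = Q Q'/2 + y Q'²/2 + y Q⁶/30 ` satisfies  `H' = Q'²/2 + Q Q''/2 + Q'²/2 + y Q'Q'' + Q⁶/30 + y Q⁵Q'/5 = Q'² + Q²/2 - Q⁶/10 + Q⁶/30 + y Q Q'`
and `(y Q²/2)' = Q²/2 + y Q Q'`, so `(H - y Q²/2)' = Q'² - Q⁶/15 = 2 (Q'²/2 - Q⁶/30)`; integrate (`Cl_int_deriv`).
(Or pointwise: `Q'² = Q² - Q⁶/15`, from `Qf_deriv`, `Qf_pow`, and `(Q Q')' = Q'² + QQ''`.)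
`X1_exp`: expand.  `EW(Q+e) = EW Q + ∫ Q' e' + 1/2 ∫ e'² - ∫ (F(Q+e) - F(Q))`, `F(u) = u⁶/30 = Fl 4 u`, `F(Q+e) - F(Q) = bF 4 e + f(Q) e`,
`∫ Q' e' = -∫ Q'' e` (`Cl_ibp`), `Q'' = Q - f(Q)`.
-/

open MeasureTheory Filter Topology Set
open scoped ContDiff

namespace H37KC

open H98KB H68KC

theorem x1_d (y : ℝ) : 1 / 2 * (deriv (Qf 4) y) ^ 2 - 1 / 30 * (Qf 4 y) ^ 6 =
    1 / 4 * (deriv (Qf 4) y * deriv (Qf 4) y + Qf 4 y * deriv (deriv (Qf 4)) y) := by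
  have h1 : deriv (Qf 4) y = -(th 4 y) * Qf 4 y := by rw [Qf_deriv (by norm_num)]
  have h2 := Qf_pow (k := 4) (by norm_num) y
  have h3 := Qf_eq (k := 4) (by norm_num) y
  have h4 : (th 4 y) ^ 2 = 1 - (Qf 4 y) ^ 4 / 15 := by
    rw [h2, C0]
    push_cast
    ring
  rw [h3, h1, fl]
  push_cast
  have h5 : -(th 4 y) * Qf 4 y * (-(th 4 y) * Qf 4 y) = (Qf 4 y) ^ 2 - (Qf 4 y) ^ 6 / 15 := by
    have : -(th 4 y) * Qf 4 y * (-(th 4 y) * Qf 4 y) = (th 4 y) ^ 2 * (Qf 4 y) ^ 2 := by ring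
    rw [this, h4]
    ring
  have h6 : (-(th 4 y) * Qf 4 y) ^ 2 = (Qf 4 y) ^ 2 - (Qf 4 y) ^ 6 / 15 := by
    rw [← h5]; ring
  rw [h5, h6]
  ring

theorem X1_Q : EW (Qf 4) = 0 := by
  have hQ : Cl 1 1 (Qf 4) := Cl_Qf (by norm_num)
  have hQ' := Cl_der hQ
  have hH := Cl_smul (1 / 4) (Cl_mul hQ hQ')
  have h1 := Cl_int_deriv hH (by norm_num) (by norm_num)
  have i1 : Integrable (fun y => (deriv (Qf 4) y) ^ 2) :=
    Cl_int (Cl_pow' hQ' (by norm_num) (by norm_num) 2 (by norm_num)) (by norm_num) (by norm_num)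
  have i2 : Integrable (fun y => (Qf 4 y) ^ 6) :=
    Cl_int (Cl_pow' hQ (by norm_num) (by norm_num) 6 (by norm_num)) (by norm_num) (by norm_num)
  have e : deriv (fun y => 1 / 4 * (Qf 4 y * deriv (Qf 4) y)) =
      fun y => 1 / 2 * (deriv (Qf 4) y) ^ 2 - 1 / 30 * (Qf 4 y) ^ 6 := by
    funext y
    rw [x1_d]
    exact (((Cl_hd hQ y).mul (Cl_hd hQ' y)).const_mul (1 / 4)).deriv
  rw [e, integral_sub (i1.const_mul _) (i2.const_mul _), integral_const_mul, integral_const_mul] at h1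
  exact h1

theorem X1_exp {p q : ℝ} {W : ℝ → ℝ} (hp : 0 < p) (hq : 0 < q) (hp' : p ≤ 1 / 2) (hq' : q ≤ 1 / 2)
    (h : Cl p q (fun y => W y - Qf 4 y)) :
    EW W = 1 / 2 * Xn (fun y => W y - Qf 4 y) - ip (fun y => W y - Qf 4 y) (Qf 4)
      - ∫ y, bF 4 (fun y => W y - Qf 4 y) y := by
  have hQ : Cl 1 1 (Qf 4) := Cl_Qf (by norm_num)
  have hQ' := Cl_der hQ
  have hW : Cl p q W := Cl_W hp' hq' h
  have d1 : deriv (fun y => W y - Qf 4 y) = fun y => deriv W y - deriv (Qf 4) y := by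
    funext y
    exact ((Cl_hd hW y).sub (Cl_hd hQ y)).deriv
  have iW1 : Integrable (fun y => (deriv W y) ^ 2) :=
    Cl_int (Cl_pow' (Cl_der hW) hp.le hq.le 2 (by norm_num)) hp hq
  have iW6 : Integrable (fun y => (W y) ^ 6) :=
    Cl_int (Cl_pow' hW hp.le hq.le 6 (by norm_num)) hp hq
  have iQ6 : Integrable (fun y => (Qf 4 y) ^ 6) :=
    Cl_int (Cl_pow' hQ (by norm_num) (by norm_num) 6 (by norm_num)) (by norm_num) (by norm_num)
  have ie1 : Integrable (fun y => (deriv (fun y => W y - Qf 4 y) y) ^ 2) :=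
    Cl_int (Cl_pow' (Cl_der h) hp.le hq.le 2 (by norm_num)) hp hq
  have ieQ : Integrable (fun y => (W y - Qf 4 y) * Qf 4 y) :=
    Cl_int (Cl_mul h hQ) (by linarith) (by linarith)
  have if5 : Integrable (fun y => (Qf 4 y) ^ 5 * (W y - Qf 4 y)) :=
    Cl_int (Cl_mul (Cl_pow' hQ (by norm_num) (by norm_num) 5 (by norm_num)) h)
      (by linarith) (by linarith)
  have eB : bF 4 (fun y => W y - Qf 4 y) = fun y => 1 / 30 * (W y) ^ 6 - 1 / 30 * (Qf 4 y) ^ 6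
      - 1 / 5 * ((Qf 4 y) ^ 5 * (W y - Qf 4 y)) := by
    funext y
    simp only [bF, Fl, fl]
    push_cast
    ring
  have ib : Integrable (bF 4 (fun y => W y - Qf 4 y)) := by
    rw [eB]
    exact ((iW6.const_mul _).sub (iQ6.const_mul _)).sub (if5.const_mul _)
  have hH := Cl_add (Cl_mono (Cl_smul (1 / 4) (Cl_mul hQ hQ')) (p' := p) (q' := q)
    (by linarith) (by linarith)) (Cl_mono (Cl_mul hQ' h) (p' := p) (q' := q) (by linarith) (by linarith))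
  have key := Cl_int_eq (F := fun y => 1 / 2 * (deriv W y) ^ 2 - 1 / 30 * (W y) ^ 6)
    (G := fun y => 1 / 2 * (deriv (fun y => W y - Qf 4 y) y) ^ 2 - (W y - Qf 4 y) * Qf 4 y
      - bF 4 (fun y => W y - Qf 4 y) y)
    ((iW1.const_mul _).sub (iW6.const_mul _)) (((ie1.const_mul _).sub ieQ).sub ib) hH hp hq
    (fun y => by
      have hd : deriv (fun y => 1 / 4 * (Qf 4 y * deriv (Qf 4) y) +
          deriv (Qf 4) y * (W y - Qf 4 y)) y =
          1 / 4 * (deriv (Qf 4) y * deriv (Qf 4) y + Qf 4 y * deriv (deriv (Qf 4)) y) +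
          (deriv (deriv (Qf 4)) y * (W y - Qf 4 y) +
            deriv (Qf 4) y * deriv (fun y => W y - Qf 4 y) y) :=
        ((((Cl_hd hQ y).mul (Cl_hd hQ' y)).const_mul (1 / 4)).add
          ((Cl_hd hQ' y).mul (Cl_hd h y))).deriv
      refine Eq.trans ?_ hd.symm
      rw [← x1_d, d1, eB]
      have h3 := Qf_eq (k := 4) (by norm_num) y
      rw [h3, fl]
      push_cast
      ring)
  have i7 : Integrable (fun y => 1 / 2 * (deriv (fun y => W y - Qf 4 y) y) ^ 2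
      - (W y - Qf 4 y) * Qf 4 y) := (ie1.const_mul _).sub ieQ
  rw [integral_sub (iW1.const_mul _) (iW6.const_mul _), integral_const_mul, integral_const_mul,
    integral_sub i7 ib, integral_sub (ie1.const_mul _) ieQ, integral_const_mul] at key
  simpa only [EW, Xn, ip] using key

end H37KC
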